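import Pool.Agent.Helper1x.EP.Scaled

/-!
# The dichotomy over all fields
-/

set_option autoImplicit false

namespace Pool.Agent.Helper1x.EP

open Finset Matrix Pool.Agent.Helper1x.EQ

section rational

variable {K L : Type*} [Field K] [Field L] [Algebra K L] {n : ℕ}

/-- A scaled determinant with coefficients in `K` is a scaled determinant over `K`. -/
theorem rational (hn : 0 < n) {a : Equiv.Perm (Fin n) → K} (ha : ∀ σ, a σ ≠ 0) {lam : Fin n × Fin n → L}
    (h : ∀ σ, algebraMap K L (a σ) = ((Equiv.Perm.sign σ : ℤ) : L) * ∏ i, lam (i, σ i)) :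
    ∃ lam' : Fin n × Fin n → K, ∀ σ, a σ = ((Equiv.Perm.sign σ : ℤ) : K) * ∏ i, lam' (i, σ i) := by
  classical
  set o : Fin n := ⟨0, hn⟩ with ho
  have hne : ∀ i j, lam (i, j) ≠ 0 := by
    intro i j h0
    have h1 := h (Equiv.swap i j)
    have h2 : ∏ k, lam (k, Equiv.swap i j k) = 0 :=
      Finset.prod_eq_zero (mem_univ i) (by rw [Equiv.swap_apply_left]; exact h0)
    rw [h2, mul_zero, map_eq_zero] at h1
    exact ha _ h1
  have hinj := (algebraMap K L).injective
  have hr : ∀ i j, ∃ r : K, algebraMap K L r * (lam (i, o) * lam (o, j)) = lam (i, j) * lam (o, o) := by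
    intro i j
    by_cases hi : i = o
    · refine ⟨1, ?_⟩
      rw [hi, map_one, one_mul, mul_comm]
    by_cases hj : j = o
    · refine ⟨1, ?_⟩
      rw [hj, map_one, one_mul]
    set σ : Equiv.Perm (Fin n) := Equiv.swap i j with hσ
    have hσo : σ o = o := Equiv.swap_apply_of_ne_of_ne (Ne.symm hi) (Ne.symm hj)
    have hσi : σ i = j := Equiv.swap_apply_left _ _
    set σ' := σ * Equiv.swap o i with hσ'
    have hσ'o : σ' o = j := by rw [hσ', Equiv.Perm.mul_apply, Equiv.swap_apply_left, hσi]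
    have hσ'i : σ' i = o := by rw [hσ', Equiv.Perm.mul_apply, Equiv.swap_apply_right, hσo]
    have hsign : Equiv.Perm.sign σ' = -Equiv.Perm.sign σ := by
      rw [hσ', Equiv.Perm.sign_mul, Equiv.Perm.sign_swap (Ne.symm hi), mul_neg, mul_one]
    have hrest : ∏ k ∈ univ \ {o, i}, lam (k, σ' k) = ∏ k ∈ univ \ {o, i}, lam (k, σ k) := by
      refine Finset.prod_congr rfl fun k hk => ?_
      rw [mem_sdiff, mem_insert, mem_singleton] at hk
      push Not at hk
      rw [hσ', Equiv.Perm.mul_apply, Equiv.swap_apply_of_ne_of_ne hk.2.1 hk.2.2]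
    have h1 : ∏ k, lam (k, σ k) = (∏ k ∈ univ \ {o, i}, lam (k, σ k)) * (lam (o, o) * lam (i, j)) := by
      rw [← Finset.prod_sdiff (Finset.subset_univ ({o, i} : Finset (Fin n))), Finset.prod_pair (Ne.symm hi), hσo, hσi]
    have h2 : ∏ k, lam (k, σ' k) = (∏ k ∈ univ \ {o, i}, lam (k, σ k)) * (lam (o, j) * lam (i, o)) := by
      rw [← Finset.prod_sdiff (Finset.subset_univ ({o, i} : Finset (Fin n))), Finset.prod_pair (Ne.symm hi), hσ'o,
        hσ'i, hrest]
    have h3 := h σ
    have h4 := h σ'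
    rw [h1] at h3
    rw [h2, hsign] at h4
    have h5 : (∏ k ∈ univ \ {o, i}, lam (k, σ k)) ≠ 0 := Finset.prod_ne_zero_iff.2 fun k _ => hne _ _
    have h6 : (((Equiv.Perm.sign σ : ℤ) : L)) ≠ 0 := by
      rcases Int.units_eq_one_or (Equiv.Perm.sign σ) with h | h <;> rw [h] <;> simp
    refine ⟨-(a σ / a σ'), ?_⟩
    have h7 : algebraMap K L (a σ') ≠ 0 := by
      rw [Ne, map_eq_zero]
      exact ha _
    rw [map_neg, map_div₀, neg_mul, div_mul_eq_mul_div, h3, ← neg_div, div_eq_iff h7, h4]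
    push_cast
    ring
  choose r hr using hr
  have hprod : ∀ σ : Equiv.Perm (Fin n), algebraMap K L (∏ i, r i (σ i)) * ((∏ i, lam (i, o)) * ∏ j, lam (o, j)) =
      (∏ i, lam (i, σ i)) * lam (o, o) ^ n := by
    intro σ
    have h1 : ∏ j, lam (o, j) = ∏ i, lam (o, σ i) := (Equiv.prod_comp σ fun j => lam (o, j)).symm
    rw [h1, map_prod, ← Finset.prod_mul_distrib, ← Finset.prod_mul_distrib, Finset.prod_congr rfl fun i _ => hr i (σ i),
      Finset.prod_mul_distrib, Finset.prod_const, Finset.card_univ, Fintype.card_fin]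
  have hA : (∏ i, lam (i, o)) * ∏ j, lam (o, j) ≠ 0 :=
    mul_ne_zero (Finset.prod_ne_zero_iff.2 fun k _ => hne _ _) (Finset.prod_ne_zero_iff.2 fun k _ => hne _ _)
  have hB : lam (o, o) ^ n ≠ 0 := pow_ne_zero _ (hne _ _)
  have hr1 : ∏ i, r i i ≠ 0 := by
    intro h0
    have h1 := hprod 1
    simp only [Equiv.Perm.one_apply] at h1
    rw [h0, map_zero, zero_mul] at h1
    exact mul_ne_zero (Finset.prod_ne_zero_iff.2 fun k _ => hne _ _) hB h1.symm
  refine ⟨fun x => (if x.1 = o then a 1 / ∏ i, r i i else 1) * r x.1 x.2, fun σ => hinj ?_⟩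
  have h1 : ∏ i, ((if i = o then a 1 / ∏ i, r i i else 1) * r i (σ i)) = (a 1 / ∏ i, r i i) * ∏ i, r i (σ i) := by
    rw [Finset.prod_mul_distrib, Finset.prod_ite_eq' univ, if_pos (mem_univ _)]
  simp only
  rw [h1, map_mul, map_mul, map_div₀, map_intCast, h σ]
  have h2 := h 1
  rw [Equiv.Perm.sign_one, Units.val_one, Int.cast_one, one_mul] at h2
  simp only [Equiv.Perm.one_apply] at h2
  have h3 := hprod 1
  simp only [Equiv.Perm.one_apply] at h3
  rw [← h2] at h3
  have h4 := hprod σ
  congr 1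
  have h5 : algebraMap K L (∏ i, r i i) ≠ 0 := by
    rw [Ne, map_eq_zero]
    exact hr1
  rw [div_mul_eq_mul_div, eq_div_iff h5]
  apply mul_left_cancel₀ hA
  apply mul_left_cancel₀ hB
  linear_combination (algebraMap K L (∏ i, r i (σ i))) * ((∏ i, lam (i, o)) * ∏ j, lam (o, j)) * h3 -
    algebraMap K L (∏ i, r i i) * ((∏ i, lam (i, o)) * ∏ j, lam (o, j)) * h4

end rational

section basechange

variable {K L X ι : Type*} [Field K] [Field L] [Fintype ι] [DecidableEq ι] (φ : K →+* L)

theorem scale_map (c : X → K) (p : MvPolynomial X K) :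
    scale (fun x => φ (c x)) (MvPolynomial.map φ p) = MvPolynomial.map φ (scale c p) := by
  classical
  ext m
  rw [coeff_scale, MvPolynomial.coeff_map, MvPolynomial.coeff_map, coeff_scale, map_mul]
  congr 1
  unfold Finsupp.prod
  rw [map_prod]
  simp

theorem Equivariant.map {c : X → K} {M : Matrix ι ι (MvPolynomial X K)} (h : Equivariant c M) :
    Equivariant (fun x => φ (c x)) (M.map (MvPolynomial.map φ)) := by
  obtain ⟨B, C, hB, hC, h⟩ := h
  have hdet : ∀ S : Matrix ι ι K, IsUnit S.det → IsUnit (S.map φ).det := by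
    intro S hS
    rw [← RingHom.mapMatrix_apply, ← RingHom.map_det]
    exact hS.map φ
  have h1 : (M.map (MvPolynomial.map φ)).map (scale fun x => φ (c x)) = (M.map (scale c)).map (MvPolynomial.map φ) := by
    ext1 i j
    simp only [Matrix.map_apply]
    exact scale_map φ c _
  have h2 : ∀ S : Matrix ι ι K, (S.map MvPolynomial.C).map (MvPolynomial.map φ) =
      ((S.map φ).map MvPolynomial.C : Matrix ι ι (MvPolynomial X L)) := by
    intro S
    ext1 i j
    simp only [Matrix.map_apply]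
    exact MvPolynomial.map_C φ _
  refine ⟨B.map φ, C.map φ, hdet B hB, hdet C hC, ?_⟩
  rcases h with h | h
  · left
    rw [h1, h, Matrix.map_mul, Matrix.map_mul, h2, h2]
  · right
    rw [h1, h, Matrix.map_mul, Matrix.map_mul, h2, h2, Matrix.transpose_map]

theorem degree_map {d : ℕ} {M : Matrix ι ι (MvPolynomial X K)} (h : ∀ i j, (M i j).totalDegree ≤ d) (i j : ι) :
    ((M.map (MvPolynomial.map φ)) i j).totalDegree ≤ d := by
  rw [Matrix.map_apply]
  refine totalDegree_le_of_coeff fun m hm => ?_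
  rw [MvPolynomial.coeff_map] at hm
  exact degree_le_of_coeff (h i j) fun h0 => hm (by rw [h0, map_zero])

theorem det_map (M : Matrix ι ι (MvPolynomial X K)) :
    (M.map (MvPolynomial.map φ)).det = MvPolynomial.map φ M.det := by
  rw [RingHom.map_det, RingHom.mapMatrix_apply]

theorem GenericPair.map {n : ℕ} {s t : Fin n → Kˣ} (h : GenericPair s t) :
    GenericPair (fun i => Units.map (φ : K →* L) (s i)) (fun j => Units.map (φ : K →* L) (t j)) := by
  intro a b ha hb hab h1
  refine h a b ha hb hab ?_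
  have hinj : Function.Injective (Units.map (φ : K →* L)) := Units.map_injective φ.injective
  apply hinj
  rw [map_one, map_mul, map_prod, map_prod, ← h1]
  simp only [map_zpow]

end basechange

section

variable {K ι : Type*} [Field K] [Fintype ι] [DecidableEq ι] {n : ℕ}

/-- the form with the given coefficients of the monomials of permutations -/
noncomputable def permForm (a : Equiv.Perm (Fin n) → K) : MvPolynomial (Fin n × Fin n) K :=
  ∑ σ : Equiv.Perm (Fin n), MvPolynomial.monomial (pm σ) (a σ)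

theorem coeff_permForm (a : Equiv.Perm (Fin n) → K) (σ : Equiv.Perm (Fin n)) :
    MvPolynomial.coeff (pm σ) (permForm a) = a σ := coeff_multi a σ

theorem permForm_homogeneous (a : Equiv.Perm (Fin n) → K) : (permForm a).IsHomogeneous n := by
  refine MvPolynomial.IsHomogeneous.sum _ _ _ fun σ _ => ?_
  exact MvPolynomial.isHomogeneous_monomial _ (pm_degree σ)

theorem permForm_zero (hn : 0 < n) (a : Equiv.Perm (Fin n) → K) : MvPolynomial.coeff 0 (permForm a) = 0 := by
  by_contra h7
  have h8 := permForm_homogeneous a h7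
  rw [map_zero] at h8
  omega

/-- the coefficients of the monomials of permutations are those of a scaled determinant -/
def ScaledDet (F : MvPolynomial (Fin n × Fin n) K) : Prop :=
  ∃ lam : Fin n × Fin n → K, ∀ σ, MvPolynomial.coeff (pm σ) F = ((Equiv.Perm.sign σ : ℤ) : K) * ∏ i, lam (i, σ i)

theorem master_aux (L : Type*) [Field L] [IsAlgClosed L] [Algebra K L] (hn : 2 ≤ n) {d : ℕ}
    {M : Matrix ι ι (MvPolynomial (Fin n × Fin n) K)} (hMdeg : ∀ i j, (M i j).totalDegree ≤ d)
    (hcoef : ∀ σ, MvPolynomial.coeff (pm σ) M.det ≠ 0) {s t : Fin n → Kˣ}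
    (hgen : GenericPair s t) (hEq : Equivariant (fun x => ((s x.1 * t x.2 : Kˣ) : K)) M) :
    ScaledDet M.det ∨ Bound n d (Fintype.card ι) ∨
    (MvPolynomial.coeff 0 M.det ≠ 0 ∧
      (1 ≤ d → d ≤ n → n.choose ((n - d + 1) / 2) ≤ Fintype.card ι * Fintype.card ι)) := by
  classical
  have hE' := Equivariant.map (algebraMap K L) hEq
  have hE2 : (fun x : Fin n × Fin n => algebraMap K L (((s x.1 * t x.2 : Kˣ) : K))) =
      fun x => ((Units.map (algebraMap K L : K →* L) (s x.1) * Units.map (algebraMap K L : K →* L) (t x.2) : Lˣ) : L) := by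
    funext x
    simp
  rw [hE2] at hE'
  have hdet := det_map (algebraMap K L) M
  rcases master hn (degree_map (algebraMap K L) hMdeg) (fun σ => by
    rw [hdet, MvPolynomial.coeff_map, Ne, map_eq_zero]
    exact hcoef σ) (GenericPair.map (algebraMap K L) hgen) hE' with ⟨lam, h⟩ | h | ⟨h1, h2⟩
  · left
    have h1 : ∀ σ, algebraMap K L (MvPolynomial.coeff (pm σ) M.det) =
        ((Equiv.Perm.sign σ : ℤ) : L) * ∏ i, lam (i, σ i) := by
      intro σ
      have h2 := congrArg (MvPolynomial.coeff (pm σ)) h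
      rw [MvPolynomial.coeff_homogeneousComponent, if_pos (pm_degree σ), hdet, MvPolynomial.coeff_map] at h2
      rw [h2]
      exact coeff_sdet lam σ
    exact rational (by omega) hcoef h1
  · exact Or.inr (Or.inl h)
  · refine Or.inr (Or.inr ⟨fun h0 => h1 ?_, h2⟩)
    rw [hdet, MvPolynomial.coeff_map, h0, map_zero]

/-- The master theorem over every field. -/
theorem master_field (hn : 2 ≤ n) {d : ℕ}
    {M : Matrix ι ι (MvPolynomial (Fin n × Fin n) K)} (hMdeg : ∀ i j, (M i j).totalDegree ≤ d)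
    (hcoef : ∀ σ, MvPolynomial.coeff (pm σ) M.det ≠ 0) {s t : Fin n → Kˣ}
    (hgen : GenericPair s t) (hEq : Equivariant (fun x => ((s x.1 * t x.2 : Kˣ) : K)) M) :
    ScaledDet M.det ∨ Bound n d (Fintype.card ι) ∨
    (MvPolynomial.coeff 0 M.det ≠ 0 ∧
      (1 ≤ d → d ≤ n → n.choose ((n - d + 1) / 2) ≤ Fintype.card ι * Fintype.card ι)) :=
  master_aux (AlgebraicClosure K) hn hMdeg hcoef hgen hEq

/-- The dichotomy over every field. -/
theorem dichotomy_field (hn : 2 ≤ n) {d : ℕ} {M : Matrix ι ι (MvPolynomial (Fin n × Fin n) K)}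
    (hMdeg : ∀ i j, (M i j).totalDegree ≤ d)
    {a : Equiv.Perm (Fin n) → K} (ha : ∀ σ, a σ ≠ 0) (hM : M.det = permForm a) {s t : Fin n → Kˣ}
    (hgen : GenericPair s t) (hEq : Equivariant (fun x => ((s x.1 * t x.2 : Kˣ) : K)) M) :
    Bound n d (Fintype.card ι) ∨ ∃ lam : Fin n × Fin n → K, permForm a = sdet lam := by
  rcases master_field hn hMdeg (fun σ => by rw [hM, coeff_permForm]; exact ha σ) hgen hEq with ⟨lam, h⟩ | h | ⟨h1, _⟩
  · right
    refine ⟨lam, ?_⟩
    rw [sdet_eq, permForm]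
    refine Finset.sum_congr rfl fun σ _ => ?_
    rw [← h σ, hM, coeff_permForm]
  · exact Or.inl h
  · rw [hM, permForm_zero (by omega)] at h1
    exact absurd rfl h1

/-- the scaled determinants satisfy a relation -/
theorem not_scaled (hn : 3 ≤ n) {F : MvPolynomial (Fin n × Fin n) K}
    (hrel : ∀ σ : Fin 6 → Equiv.Perm (Fin n), MvPolynomial.coeff (pm (σ 0)) F * MvPolynomial.coeff (pm (σ 1)) F *
      MvPolynomial.coeff (pm (σ 2)) F + MvPolynomial.coeff (pm (σ 3)) F * MvPolynomial.coeff (pm (σ 4)) F *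
      MvPolynomial.coeff (pm (σ 5)) F ≠ 0) : ¬ ScaledDet F := by
  rintro ⟨lam, h⟩
  obtain ⟨σ, hσ⟩ := sdet_relation hn lam
  apply hrel σ
  have h2 : ∀ τ, MvPolynomial.coeff (pm τ) F = MvPolynomial.coeff (pm τ) (sdet lam) := fun τ => by
    rw [h τ, coeff_sdet]
  simp only [h2]
  exact hσ

end

end Pool.Agent.Helper1x.EP
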