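import Mathlib

/-!
# Counting permutations by the images of sets
-/

set_option autoImplicit false

namespace Pool.Agent.Helper1x.EP

open Finset

section

variable {n : ℕ}

theorem exists_perm_image {B B' : Finset (Fin n)} (h : B.card = B'.card) : ∃ ρ : Equiv.Perm (Fin n), B.image ρ = B' := by
  classical
  set e : {x // x ∈ B} ≃ {x // x ∈ B'} := Finset.equivOfCardEq h with he
  refine ⟨e.extendSubtype, Finset.eq_of_subset_of_card_le ?_ ?_⟩
  · intro x hx
    obtain ⟨y, hy, rfl⟩ := mem_image.1 hx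
    exact Equiv.extendSubtype_mem e y hy
  · rw [Finset.card_image_of_injective _ (Equiv.injective _), h]

theorem card_maps {A B : Finset (Fin n)} (h : A.card = B.card) :
    (univ.filter fun σ : Equiv.Perm (Fin n) => A.image σ = B).card * n.choose A.card = n.factorial := by
  classical
  have h1 : (univ : Finset (Equiv.Perm (Fin n))).card = ∑ B' ∈ powersetCard A.card (univ : Finset (Fin n)),
      (univ.filter fun σ : Equiv.Perm (Fin n) => A.image σ = B').card := by
    refine Finset.card_eq_sum_card_fiberwise fun σ _ => ?_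
    rw [Finset.mem_coe, mem_powersetCard]
    exact ⟨Finset.subset_univ _, Finset.card_image_of_injective _ σ.injective⟩
  have h2 : ∀ B' ∈ powersetCard A.card (univ : Finset (Fin n)),
      (univ.filter fun σ : Equiv.Perm (Fin n) => A.image σ = B').card =
      (univ.filter fun σ : Equiv.Perm (Fin n) => A.image σ = B).card := by
    intro B' hB'
    rw [mem_powersetCard] at hB'
    obtain ⟨ρ, hρ⟩ := exists_perm_image (hB'.2.trans h)
    refine Finset.card_nbij' (fun σ => ρ * σ) (fun σ => ρ⁻¹ * σ) ?_ ?_ ?_ ?_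
    · intro σ hσ
      simp only [Finset.coe_filter, mem_univ, true_and, Set.mem_ofPred_eq] at hσ ⊢
      rw [Equiv.Perm.coe_mul, ← Finset.image_image, hσ, hρ]
    · intro σ hσ
      simp only [Finset.coe_filter, mem_univ, true_and, Set.mem_ofPred_eq] at hσ ⊢
      rw [Equiv.Perm.coe_mul, ← Finset.image_image, hσ, ← hρ, Finset.image_image, ← Equiv.Perm.coe_mul,
        inv_mul_cancel, Equiv.Perm.coe_one, Finset.image_id]
    · intro σ _
      simp
    · intro σ _
      simp
  rw [Finset.sum_congr rfl h2, Finset.sum_const, Finset.card_powersetCard, Finset.card_univ, Finset.card_univ,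
    Fintype.card_perm, Fintype.card_fin, smul_eq_mul] at h1
  rw [h1, mul_comm]

theorem le_choose : ∀ (n k : ℕ), 0 < k → k < n → n ≤ n.choose k := by
  intro n
  induction n with
  | zero => intro k _ h; omega
  | succ n ih =>
    intro k hk hkn
    obtain ⟨k, rfl⟩ := Nat.exists_eq_succ_of_ne_zero hk.ne'
    rw [Nat.succ_eq_add_one] at hkn ⊢
    rcases Nat.eq_zero_or_pos k with h0 | h0
    · subst h0
      simp
    · rcases Nat.lt_or_ge (k + 1) n with h1 | h1
      · have h2 := ih k h0 (by omega)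
        have h3 := ih (k + 1) (by omega) h1
        rw [Nat.choose_succ_succ' n k]
        omega
      · have h2 : k + 1 = n := by omega
        rw [h2, Nat.choose_succ_self_right]

variable {G : Type*} [CommGroup G]

/-- the weight of a pair of sets -/
def wt (S T : Fin n → G) (A B : Finset (Fin n)) : G := (∏ i ∈ A, S i) * ∏ j ∈ B, T j

/-- the weights of the pairs of proper sets of equal size are different -/
def Gen (S T : Fin n → G) : Prop := ∀ A A' B B' : Finset (Fin n), A.card < n → A'.card < n → A.card = B.card →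
  A'.card = B'.card → wt S T A B = wt S T A' B' → A = A' ∧ B = B'

theorem prod_eq_wt (S T : Fin n → G) (σ : Equiv.Perm (Fin n)) (A : Finset (Fin n)) :
    ∏ i ∈ A, (S i * T (σ i)) = wt S T A (A.image σ) := by
  rw [wt, Finset.prod_mul_distrib, Finset.prod_image fun x _ y _ h => σ.injective h]

theorem card_image_perm (σ : Equiv.Perm (Fin n)) (A : Finset (Fin n)) : A.card = (A.image σ).card :=
  (Finset.card_image_of_injective _ σ.injective).symm

/-- If every permutation has a labelled set in every size, there are at least `2 ^ n - 1` labels. -/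
theorem count_levels {ι : Type*} [Fintype ι] {S T : Fin n → G} (hgen : Gen S T) {μ : ι → G} {c : G}
    (h : ∀ σ : Equiv.Perm (Fin n), ∀ j < n, ∃ (v : ι) (A : Finset (Fin n)), A.card = j ∧
      c = μ v * ∏ i ∈ A, (S i * T (σ i))) : 2 ^ n - 1 ≤ Fintype.card ι := by
  classical
  set R : Finset (Finset (Fin n) × Finset (Fin n)) := univ.filter fun p => p.1.card = p.2.card ∧ p.1.card < n ∧
    ∃ v, c = μ v * wt S T p.1 p.2 with hR
  have h1 : R.card ≤ Fintype.card ι := by
    have hex : ∀ p : Finset (Fin n) × Finset (Fin n), p ∈ R → ∃ v, c = μ v * wt S T p.1 p.2 := by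
      intro p hp
      exact (mem_filter.1 hp).2.2.2
    choose f hf using hex
    rw [← Finset.card_univ, ← Finset.card_attach]
    refine Finset.card_le_card_of_injOn (fun p => f p.1 p.2) (fun p _ => mem_univ _) ?_
    intro p _ q _ hpq
    have h2 := hf p.1 p.2
    have h3 := hf q.1 q.2
    simp only at hpq
    rw [hpq] at h2
    have h4 := mul_left_cancel (h2.symm.trans h3)
    have h5 := hgen _ _ _ _ (mem_filter.1 p.2).2.2.1 (mem_filter.1 q.2).2.2.1 (mem_filter.1 p.2).2.1
      (mem_filter.1 q.2).2.1 h4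
    exact Subtype.ext (Prod.ext h5.1 h5.2)
  have h2 : R.card = ∑ j ∈ range n, (R.filter fun p => p.1.card = j).card := by
    refine Finset.card_eq_sum_card_fiberwise fun p hp => ?_
    rw [Finset.mem_coe] at hp ⊢
    exact mem_range.2 (mem_filter.1 hp).2.2.1
  have h3 : ∀ j ∈ range n, n.choose j ≤ (R.filter fun p => p.1.card = j).card := by
    intro j hj
    rw [mem_range] at hj
    have h4 : n.factorial ≤ ∑ p ∈ R.filter (fun p => p.1.card = j),
        (univ.filter fun σ : Equiv.Perm (Fin n) => p.1.image σ = p.2).card := by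
      refine le_trans ?_ Finset.card_biUnion_le
      have h5 : (univ : Finset (Equiv.Perm (Fin n))) ⊆ (R.filter fun p => p.1.card = j).biUnion
          fun p => univ.filter fun σ : Equiv.Perm (Fin n) => p.1.image σ = p.2 := by
        intro σ _
        obtain ⟨v, A, hA, hv⟩ := h σ j hj
        rw [prod_eq_wt] at hv
        rw [mem_biUnion]
        refine ⟨(A, A.image σ), ?_, mem_filter.2 ⟨mem_univ _, rfl⟩⟩
        rw [mem_filter, mem_filter]
        exact ⟨⟨mem_univ _, card_image_perm σ A, by simp only; omega, v, hv⟩, hA⟩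
      have h6 := Finset.card_le_card h5
      rwa [Finset.card_univ, Fintype.card_perm, Fintype.card_fin] at h6
    have h5 : n.factorial * n.choose j ≤ n.factorial * (R.filter fun p => p.1.card = j).card := by
      calc n.factorial * n.choose j ≤ (∑ p ∈ R.filter (fun p => p.1.card = j),
          (univ.filter fun σ : Equiv.Perm (Fin n) => p.1.image σ = p.2).card) * n.choose j :=
            Nat.mul_le_mul_right _ h4
        _ = ∑ p ∈ R.filter (fun p => p.1.card = j), n.factorial := by
            rw [Finset.sum_mul]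
            refine Finset.sum_congr rfl fun p hp => ?_
            rw [mem_filter] at hp
            rw [← card_maps (mem_filter.1 hp.1).2.1, hp.2]
        _ = n.factorial * (R.filter fun p => p.1.card = j).card := by
            rw [Finset.sum_const, smul_eq_mul, mul_comm]
    exact Nat.le_of_mul_le_mul_left h5 (Nat.factorial_pos n)
  have h4 := Nat.sum_range_choose n
  rw [Finset.sum_range_succ, Nat.choose_self] at h4
  have h5 := Finset.sum_le_sum h3
  omega

/-- If every permutation has a pair in `R` with sizes in a window, then `R` has as many elements as the smallest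
binomial coefficient in the window. -/
theorem count_pairs {R : Finset (Finset (Fin n) × Finset (Fin n))} {B : ℕ}
    (hR : ∀ p ∈ R, p.1.card = p.2.card ∧ B ≤ n.choose p.1.card)
    (h : ∀ σ : Equiv.Perm (Fin n), ∃ p ∈ R, p.1.image σ = p.2) : B ≤ R.card := by
  classical
  have h4 : n.factorial ≤ ∑ p ∈ R, (univ.filter fun σ : Equiv.Perm (Fin n) => p.1.image σ = p.2).card := by
    refine le_trans ?_ Finset.card_biUnion_le
    have h5 : (univ : Finset (Equiv.Perm (Fin n))) ⊆ R.biUnion
        fun p => univ.filter fun σ : Equiv.Perm (Fin n) => p.1.image σ = p.2 := by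
      intro σ _
      obtain ⟨p, hp, hσ⟩ := h σ
      exact mem_biUnion.2 ⟨p, hp, mem_filter.2 ⟨mem_univ _, hσ⟩⟩
    have h6 := Finset.card_le_card h5
    rwa [Finset.card_univ, Fintype.card_perm, Fintype.card_fin] at h6
  have h5 : n.factorial * B ≤ n.factorial * R.card := by
    calc n.factorial * B ≤ (∑ p ∈ R, (univ.filter fun σ : Equiv.Perm (Fin n) => p.1.image σ = p.2).card) * B :=
          Nat.mul_le_mul_right _ h4
      _ ≤ ∑ p ∈ R, n.factorial := by
          rw [Finset.sum_mul]
          refine Finset.sum_le_sum fun p hp => ?_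
          rw [← card_maps (hR p hp).1]
          exact Nat.mul_le_mul_left _ (hR p hp).2
      _ = n.factorial * R.card := by
          rw [Finset.sum_const, smul_eq_mul, mul_comm]
  exact Nat.le_of_mul_le_mul_left h5 (Nat.factorial_pos n)

/-- the bound from one window of levels -/
theorem count_window {ι : Type*} [Fintype ι] {S T : Fin n → G} (hgen : Gen S T) {μ : ι → G} {c : G} {B : ℕ}
    (h : ∀ σ : Equiv.Perm (Fin n), ∃ (v : ι) (A : Finset (Fin n)), A.card < n ∧ B ≤ n.choose A.card ∧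
      c = μ v * ∏ i ∈ A, (S i * T (σ i))) : B ≤ Fintype.card ι := by
  classical
  set R : Finset (Finset (Fin n) × Finset (Fin n)) := univ.filter fun p => p.1.card = p.2.card ∧ p.1.card < n ∧
    B ≤ n.choose p.1.card ∧ ∃ v, c = μ v * wt S T p.1 p.2 with hR
  have h1 : R.card ≤ Fintype.card ι := by
    have hex : ∀ p : Finset (Fin n) × Finset (Fin n), p ∈ R → ∃ v, c = μ v * wt S T p.1 p.2 := by
      intro p hp
      exact (mem_filter.1 hp).2.2.2.2
    choose f hf using hex
    rw [← Finset.card_univ, ← Finset.card_attach]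
    refine Finset.card_le_card_of_injOn (fun p => f p.1 p.2) (fun p _ => mem_univ _) ?_
    intro p _ q _ hpq
    have h2 := hf p.1 p.2
    have h3 := hf q.1 q.2
    simp only at hpq
    rw [hpq] at h2
    have h4 := mul_left_cancel (h2.symm.trans h3)
    have h5 := hgen _ _ _ _ (mem_filter.1 p.2).2.2.1 (mem_filter.1 q.2).2.2.1 (mem_filter.1 p.2).2.1
      (mem_filter.1 q.2).2.1 h4
    exact Subtype.ext (Prod.ext h5.1 h5.2)
  refine (count_pairs (fun p hp => ⟨(mem_filter.1 hp).2.1, (mem_filter.1 hp).2.2.2.1⟩) fun σ => ?_).trans h1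
  obtain ⟨v, A, hA1, hA2, hv⟩ := h σ
  rw [prod_eq_wt] at hv
  exact ⟨(A, A.image σ), mem_filter.2 ⟨mem_univ _, card_image_perm σ A, hA1, hA2, v, hv⟩, rfl⟩

/-- the bound from one window of levels, without a common base point -/
theorem count_window_sq {ι : Type*} [Fintype ι] {S T : Fin n → G} (hgen : Gen S T) {μ : ι → G} {B : ℕ}
    (h : ∀ σ : Equiv.Perm (Fin n), ∃ (z v : ι) (A : Finset (Fin n)), A.card < n ∧ B ≤ n.choose A.card ∧
      μ z = μ v * ∏ i ∈ A, (S i * T (σ i))) : B ≤ Fintype.card ι * Fintype.card ι := by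
  classical
  set R : Finset (Finset (Fin n) × Finset (Fin n)) := univ.filter fun p => p.1.card = p.2.card ∧ p.1.card < n ∧
    B ≤ n.choose p.1.card ∧ ∃ z v, μ z = μ v * wt S T p.1 p.2 with hR
  have h1 : R.card ≤ Fintype.card ι * Fintype.card ι := by
    have hex : ∀ p : Finset (Fin n) × Finset (Fin n), p ∈ R → ∃ q : ι × ι, μ q.1 = μ q.2 * wt S T p.1 p.2 := by
      intro p hp
      obtain ⟨z, v, hzv⟩ := (mem_filter.1 hp).2.2.2.2
      exact ⟨(z, v), hzv⟩
    choose f hf using hex
    rw [← Fintype.card_prod, ← Finset.card_univ, ← Finset.card_attach]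
    refine Finset.card_le_card_of_injOn (fun p => f p.1 p.2) (fun p _ => mem_univ _) ?_
    intro p _ q _ hpq
    have h2 := hf p.1 p.2
    have h3 := hf q.1 q.2
    simp only at hpq
    rw [hpq] at h2
    have h4 := mul_left_cancel (h2.symm.trans h3)
    have h5 := hgen _ _ _ _ (mem_filter.1 p.2).2.2.1 (mem_filter.1 q.2).2.2.1 (mem_filter.1 p.2).2.1
      (mem_filter.1 q.2).2.1 h4
    exact Subtype.ext (Prod.ext h5.1 h5.2)
  refine (count_pairs (fun p hp => ⟨(mem_filter.1 hp).2.1, (mem_filter.1 hp).2.2.2.1⟩) fun σ => ?_).trans h1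
  obtain ⟨z, v, A, hA1, hA2, hv⟩ := h σ
  rw [prod_eq_wt] at hv
  exact ⟨(A, A.image σ), mem_filter.2 ⟨mem_univ _, card_image_perm σ A, hA1, hA2, z, v, hv⟩, rfl⟩

/-- the binomial coefficients of a centered window -/
theorem choose_window {n d i : ℕ} (hd1 : 1 ≤ d) (hdn : d ≤ n) (h1 : i ≤ (n + d - 1) / 2)
    (h2 : (n + d - 1) / 2 < i + d) : n.choose ((n - d + 1) / 2) ≤ n.choose i := by
  have key : ∀ b a : ℕ, a ≤ b → 2 * b ≤ n → n.choose a ≤ n.choose b := by
    intro b
    induction b with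
    | zero =>
      intro a ha _
      have : a = 0 := by omega
      rw [this]
    | succ b ih =>
      intro a ha hb
      rcases Nat.lt_or_ge a (b + 1) with h | h
      · refine (ih a (by omega) (by omega)).trans ?_
        exact Nat.choose_le_succ_of_lt_half_left (by omega)
      · have : a = b + 1 := by omega
        rw [this]
  rcases Nat.lt_or_ge n (2 * i) with h3 | h3
  · have h4 : i ≤ n := by omega
    rw [← Nat.choose_symm h4]
    exact key _ _ (by omega) (by omega)
  · exact key _ _ (by omega) (by omega)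

variable {ι : Type*} [DecidableEq ι]

/-- two cells in a common row or column -/
def Coll (p q : Fin n × Fin n) : Prop := p.1 = q.1 ∨ p.2 = q.2

theorem coll_of {p q : Fin n × Fin n} (h : ∀ σ : Equiv.Perm (Fin n), σ p.1 = p.2 → σ q.1 = q.2 → False) : Coll p q := by
  classical
  by_contra hcon
  unfold Coll at hcon
  push Not at hcon
  set ρ := Equiv.swap p.1 p.2 with hρ
  set σ := Equiv.swap (ρ q.1) q.2 * ρ with hσ
  have h1 : ρ p.1 = p.2 := Equiv.swap_apply_left _ _
  have h2 : σ p.1 = p.2 := by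
    rw [hσ, Equiv.Perm.mul_apply, h1]
    refine Equiv.swap_apply_of_ne_of_ne ?_ hcon.2
    rw [← h1]
    intro h
    exact hcon.1 (ρ.injective h)
  have h3 : σ q.1 = q.2 := by
    rw [hσ, Equiv.Perm.mul_apply, Equiv.swap_apply_left]
  exact h σ h2 h3

/-- The structure of the walks between at least two unmatched labels. -/
theorem count_struct {S T : Fin n → G} (hgen : Gen S T) {b μ : ι → G} {Z : Finset ι} (hZ2 : 2 ≤ Z.card)
    (h : ∀ σ : Equiv.Perm (Fin n), ∃ (r : ι → ι) (A : ι → Finset (Fin n)), (∀ z ∈ Z, r z ∈ Z) ∧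
      (∀ z ∈ Z, ∀ z' ∈ Z, r z = r z' → z = z') ∧
      (∀ z ∈ Z, (A z).Nonempty) ∧ (∀ z ∈ Z, μ z = b (r z) * ∏ i ∈ A z, (S i * T (σ i))) ∧
      (∀ z ∈ Z, ∀ z' ∈ Z, z ≠ z' → Disjoint (A z) (A z'))) :
    Z.card = n ∧ ∃ φ : ι → ι → Fin n × Fin n,
      (∀ z ∈ Z, ∀ z' ∈ Z, μ z = b z' * (S (φ z z').1 * T (φ z z').2)) ∧
      (∀ z1 ∈ Z, ∀ z1' ∈ Z, ∀ z2 ∈ Z, ∀ z2' ∈ Z, φ z1 z1' = φ z2 z2' → z1 = z2 ∧ z1' = z2') ∧
      (∀ z ∈ Z, ∀ z1 ∈ Z, ∀ z2 ∈ Z, z1 ≠ z2 → Coll (φ z z1) (φ z z2)) ∧
      (∀ z ∈ Z, ∀ z1 ∈ Z, ∀ z2 ∈ Z, z1 ≠ z2 → Coll (φ z1 z) (φ z2 z)) := by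
  classical
  choose r A hrZ hrinj hAne hμ hdis using h
  have hsum : ∀ σ, ∑ z ∈ Z, (A σ z).card ≤ n := by
    intro σ
    rw [← Finset.card_biUnion (fun z hz z' hz' hne => hdis σ z hz z' hz' hne)]
    refine (Finset.card_le_univ _).trans ?_
    rw [Fintype.card_fin]
  have hone : ∀ σ, ∀ z ∈ Z, 1 ≤ (A σ z).card := fun σ z hz => Finset.card_pos.2 (hAne σ z hz)
  have hcardle : Z.card ≤ n := by
    refine le_trans ?_ (hsum 1)
    rw [Finset.card_eq_sum_ones]
    exact Finset.sum_le_sum (hone 1)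
  have hlt : ∀ σ, ∀ z ∈ Z, (A σ z).card < n := by
    intro σ z hz
    obtain ⟨z', hz', hne⟩ := Finset.exists_mem_ne (by omega : 1 < Z.card) z
    have h1 := hdis σ z' hz' z hz hne
    have h2 : (A σ z' ∪ A σ z).card ≤ n := by
      refine (Finset.card_le_univ _).trans ?_
      rw [Fintype.card_fin]
    rw [Finset.card_union_of_disjoint h1] at h2
    have h3 := hone σ z' hz'
    omega
  have hn2 : 2 ≤ n := hZ2.trans hcardle
  -- the permutations which join `z` to `z'`
  set F : ι → ι → Finset (Equiv.Perm (Fin n)) := fun z z' => univ.filter fun σ =>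
    ∃ A : Finset (Fin n), 0 < A.card ∧ A.card < n ∧ μ z = b z' * wt S T A (A.image σ) with hF
  have hFr : ∀ σ, ∀ z ∈ Z, σ ∈ F z (r σ z) := by
    intro σ z hz
    rw [hF, mem_filter]
    refine ⟨mem_univ _, A σ z, hone σ z hz, hlt σ z hz, ?_⟩
    rw [← prod_eq_wt]
    exact hμ σ z hz
  have hFcard : ∀ z z', n * (F z z').card ≤ n.factorial := by
    intro z z'
    rcases (F z z').eq_empty_or_nonempty with h0 | ⟨σ0, h0⟩
    · rw [h0]
      simp
    · obtain ⟨A0, hA1, hA2, hA3⟩ := (mem_filter.1 h0).2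
      have hsub : F z z' ⊆ univ.filter fun σ => A0.image σ = A0.image σ0 := by
        intro σ hσ
        obtain ⟨A1, hB1, hB2, hB3⟩ := (mem_filter.1 hσ).2
        have h4 := mul_left_cancel (hB3.symm.trans hA3)
        have h5 := hgen _ _ _ _ hB2 hA2 (card_image_perm σ A1) (card_image_perm σ0 A0) h4
        refine mem_filter.2 ⟨mem_univ _, ?_⟩
        rw [← h5.2, h5.1]
      calc n * (F z z').card ≤ n.choose A0.card * (univ.filter fun σ : Equiv.Perm (Fin n) =>
          A0.image σ = A0.image σ0).card := Nat.mul_le_mul (le_choose n _ hA1 hA2) (Finset.card_le_card hsub)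
        _ = n.factorial := by
          rw [mul_comm]
          exact card_maps (card_image_perm σ0 A0)
  have hdouble : ∀ z, ∑ z' ∈ Z, (F z z').card = ∑ σ : Equiv.Perm (Fin n), (Z.filter fun z' => σ ∈ F z z').card := by
    intro z
    simp only [Finset.card_filter, Finset.card_eq_sum_ones (F z _)]
    rw [Finset.sum_comm]
    refine Finset.sum_congr rfl fun z' _ => ?_
    rw [← Finset.sum_filter]
    congr 1
    ext σ
    simp
  have hge : ∀ z ∈ Z, ∀ σ : Equiv.Perm (Fin n), 1 ≤ (Z.filter fun z' => σ ∈ F z z').card := by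
    intro z hz σ
    exact Finset.card_pos.2 ⟨r σ z, mem_filter.2 ⟨hrZ σ z hz, hFr σ z hz⟩⟩
  have hfac : ∀ z ∈ Z, n.factorial ≤ ∑ z' ∈ Z, (F z z').card := by
    intro z hz
    rw [hdouble z]
    have h1 := Finset.sum_le_sum (s := (univ : Finset (Equiv.Perm (Fin n)))) fun σ _ => hge z hz σ
    rw [← Finset.card_eq_sum_ones, Finset.card_univ, Fintype.card_perm, Fintype.card_fin] at h1
    exact h1
  have hub : ∀ z, n * ∑ z' ∈ Z, (F z z').card ≤ Z.card * n.factorial := by
    intro z
    rw [Finset.mul_sum, ← smul_eq_mul, ← Finset.sum_const]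
    exact Finset.sum_le_sum fun z' _ => hFcard z z'
  have hcard : Z.card = n := by
    refine le_antisymm hcardle ?_
    obtain ⟨z, hz⟩ := Finset.card_pos.1 (by omega : 0 < Z.card)
    have h1 := (Nat.mul_le_mul_left n (hfac z hz)).trans (hub z)
    exact Nat.le_of_mul_le_mul_right h1 (Nat.factorial_pos n)
  have hsumeq : ∀ z ∈ Z, ∑ z' ∈ Z, (F z z').card = n.factorial := by
    intro z hz
    refine le_antisymm ?_ (hfac z hz)
    have h1 := hub z
    rw [hcard] at h1
    exact Nat.le_of_mul_le_mul_left h1 (by omega)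
  have huniq : ∀ z ∈ Z, ∀ σ, (Z.filter fun z' => σ ∈ F z z').card = 1 := by
    intro z hz σ
    have h1 := hsumeq z hz
    rw [hdouble z] at h1
    have h2 : ∑ σ : Equiv.Perm (Fin n), 1 = ∑ σ : Equiv.Perm (Fin n), (Z.filter fun z' => σ ∈ F z z').card := by
      rw [h1, ← Finset.card_eq_sum_ones, Finset.card_univ, Fintype.card_perm, Fintype.card_fin]
    exact ((Finset.sum_eq_sum_iff_of_le fun σ _ => hge z hz σ).1 h2 σ (mem_univ _)).symm
  have hr_eq : ∀ z ∈ Z, ∀ z' ∈ Z, ∀ σ, σ ∈ F z z' → r σ z = z' := by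
    intro z hz z' hz' σ hσ
    have h1 := Finset.card_le_one.1 (huniq z hz σ).le
    exact h1 _ (mem_filter.2 ⟨hrZ σ z hz, hFr σ z hz⟩) _ (mem_filter.2 ⟨hz', hσ⟩)
  have hFne : ∀ z ∈ Z, ∀ z' ∈ Z, (F z z').Nonempty := by
    intro z hz z' hz'
    rw [← Finset.card_pos]
    have h1 : ∑ z' ∈ Z, n * (F z z').card = ∑ z' ∈ Z, n.factorial := by
      rw [← Finset.mul_sum, hsumeq z hz, Finset.sum_const, hcard, smul_eq_mul]
    have h2 := (Finset.sum_eq_sum_iff_of_le fun z' _ => hFcard z z').1 h1 z' hz'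
    by_contra h3
    have h4 : (F z z').card = 0 := by omega
    rw [h4, mul_zero] at h2
    exact absurd h2.symm (Nat.factorial_pos n).ne'
  have hA1 : ∀ σ, ∀ z ∈ Z, (A σ z).card = 1 := by
    intro σ z hz
    have h1 : ∑ z ∈ Z, 1 = ∑ z ∈ Z, (A σ z).card := by
      refine le_antisymm (Finset.sum_le_sum (hone σ)) ?_
      rw [← Finset.card_eq_sum_ones, hcard]
      exact hsum σ
    exact ((Finset.sum_eq_sum_iff_of_le (hone σ)).1 h1 z hz).symm
  -- the cell of `z` and `z'`
  have hcell : ∀ z ∈ Z, ∀ z' ∈ Z, ∃ c : Fin n × Fin n, μ z = b z' * (S c.1 * T c.2) := by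
    intro z hz z' hz'
    obtain ⟨σ, hσ⟩ := hFne z hz z' hz'
    obtain ⟨i, hi⟩ := Finset.card_eq_one.1 (hA1 σ z hz)
    have h1 := hμ σ z hz
    rw [hi, Finset.prod_singleton, hr_eq z hz z' hz' σ hσ] at h1
    exact ⟨(i, σ i), h1⟩
  have hn0 : Nonempty (Fin n) := ⟨⟨0, by omega⟩⟩
  have hcell' : ∀ z z' : ι, ∃ c : Fin n × Fin n, z ∈ Z → z' ∈ Z → μ z = b z' * (S c.1 * T c.2) := by
    intro z z'
    by_cases hz : z ∈ Z
    · by_cases hz' : z' ∈ Z
      · obtain ⟨c, hc⟩ := hcell z hz z' hz'
        exact ⟨c, fun _ _ => hc⟩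
      · exact ⟨(Classical.arbitrary _, Classical.arbitrary _), fun _ h => absurd h hz'⟩
    · exact ⟨(Classical.arbitrary _, Classical.arbitrary _), fun h => absurd h hz⟩
  choose φ hφ' using hcell'
  have hφ : ∀ z ∈ Z, ∀ z' ∈ Z, μ z = b z' * (S (φ z z').1 * T (φ z z').2) := fun z hz z' hz' => hφ' z z' hz hz'
  have hkey : ∀ z ∈ Z, ∀ z' ∈ Z, ∀ σ : Equiv.Perm (Fin n), σ (φ z z').1 = (φ z z').2 →
      r σ z = z' ∧ A σ z = {(φ z z').1} := by
    intro z hz z' hz' σ hσ
    have h1 : μ z = b z' * wt S T {(φ z z').1} (({(φ z z').1} : Finset (Fin n)).image σ) := by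
      rw [← prod_eq_wt, Finset.prod_singleton, hσ]
      exact hφ z hz z' hz'
    have h2 : σ ∈ F z z' := by
      rw [hF, mem_filter]
      exact ⟨mem_univ _, {(φ z z').1}, by simp, by rw [Finset.card_singleton]; omega, h1⟩
    have h3 := hr_eq z hz z' hz' σ h2
    refine ⟨h3, ?_⟩
    have h4 := hμ σ z hz
    rw [prod_eq_wt, h3] at h4
    exact (hgen _ _ _ _ (hlt σ z hz) (by rw [Finset.card_singleton]; omega) (card_image_perm σ _)
      (card_image_perm σ _) (mul_left_cancel (h4.symm.trans h1))).1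
  refine ⟨hcard, φ, hφ, ?_, ?_, ?_⟩
  · intro z1 hz1 z1' hz1' z2 hz2 z2' hz2' heq
    set σ := Equiv.swap (φ z1 z1').1 (φ z1 z1').2 with hσ
    have h1 := hkey z1 hz1 z1' hz1' σ (Equiv.swap_apply_left _ _)
    have h2 := hkey z2 hz2 z2' hz2' σ (by rw [← heq]; exact Equiv.swap_apply_left _ _)
    have h3 : z1 = z2 := by
      by_contra hne
      have h4 := hdis σ z1 hz1 z2 hz2 hne
      rw [h1.2, h2.2, ← heq, Finset.disjoint_singleton] at h4
      exact h4 rfl
    refine ⟨h3, ?_⟩
    rw [← h1.1, ← h2.1, h3]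
  · intro z hz z1 hz1 z2 hz2 hne
    refine coll_of fun σ h1 h2 => hne ?_
    rw [← (hkey z hz z1 hz1 σ h1).1, ← (hkey z hz z2 hz2 σ h2).1]
  · intro z hz z1 hz1 z2 hz2 hne
    refine coll_of fun σ h1 h2 => hne ?_
    have h3 := (hkey z1 hz1 z hz σ h1).1
    have h4 := (hkey z2 hz2 z hz σ h2).1
    exact hrinj σ z1 hz1 z2 hz2 (h3.trans h4.symm)

end

end Pool.Agent.Helper1x.EP
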