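import Pool.Agent.Helper1x.EQ.Sym

/-!
# Gradings by generalized eigenspaces
-/

set_option autoImplicit false

namespace Pool.Agent.Helper1x.EP

open Matrix Pool.Agent.Helper1x.EQ

section

variable {K ι : Type*} [Field K] [IsAlgClosed K] [Fintype ι] [DecidableEq ι]

omit [DecidableEq ι] in
theorem graded_basis (E : Module.End K (ι → K)) : ∃ (b : Module.Basis ι K (ι → K)) (μ : ι → K),
    (∀ v, b v ∈ E.maxGenEigenspace (μ v)) ∧
      ∀ θ, ∀ y ∈ E.maxGenEigenspace θ, ∀ v, b.repr y v ≠ 0 → μ v = θ := by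
  classical
  have hint : DirectSum.IsInternal fun θ : K => E.maxGenEigenspace θ :=
    DirectSum.isInternal_submodule_of_iSupIndep_of_iSup_eq_top E.independent_maxGenEigenspace
      (Module.End.iSup_maxGenEigenspace_eq_top E)
  set c := hint.collectedBasis fun θ => Module.finBasis K (E.maxGenEigenspace θ) with hc
  set e := c.indexEquiv (Pi.basisFun K ι) with he
  refine ⟨c.reindex e, fun v => (e.symm v).1, fun v => ?_, fun θ y hy v hv => ?_⟩
  · rw [Module.Basis.reindex_apply]
    exact hint.collectedBasis_mem _ _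
  · rw [Module.Basis.repr_reindex_apply] at hv
    by_contra hne
    exact hv (hint.collectedBasis_repr_of_mem_ne _ (fun h => hne h.symm) hy)

/-- the endomorphism of a matrix -/
noncomputable def en {K ι : Type*} [Field K] [Fintype ι] [DecidableEq ι] (C : Matrix ι ι K) : Module.End K (ι → K) :=
  Matrix.toLin' C

omit [IsAlgClosed K] in
theorem en_apply (C : Matrix ι ι K) (y : ι → K) : en C y = C *ᵥ y := Matrix.toLin'_apply C y

/-- the basis as a matrix -/
theorem graded_matrix {C : Matrix ι ι K} (hC : IsUnit C.det) : ∃ (P Q : Matrix ι ι K) (μ : ι → Kˣ), Q * P = 1 ∧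
    (∀ v, (fun i => P i v) ∈ (en C).maxGenEigenspace (μ v : K)) ∧
      ∀ θ, ∀ y ∈ (en C).maxGenEigenspace θ, ∀ v, (Q *ᵥ y) v ≠ 0 → (μ v : K) = θ := by
  classical
  obtain ⟨b, μ, h1, h2⟩ := graded_basis (en C)
  have hμ : ∀ v, μ v ≠ 0 := by
    intro v h0
    have h3 := h1 v
    rw [h0, Module.End.mem_maxGenEigenspace] at h3
    obtain ⟨k, hk⟩ := h3
    rw [zero_smul, sub_zero] at hk
    have hinj : Function.Injective (en C) := by
      intro x y hxy
      rw [en_apply, en_apply] at hxy
      exact Matrix.mulVec_injective_iff_isUnit.2 ((Matrix.isUnit_iff_isUnit_det C).2 hC) hxy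
    have hinj2 : ∀ k : ℕ, Function.Injective ((en C) ^ k) := by
      intro k
      induction k with
      | zero =>
        rw [pow_zero]
        exact Function.injective_id
      | succ k ih =>
        rw [pow_succ]
        exact ih.comp hinj
    exact b.ne_zero v (hinj2 k (hk.trans (map_zero _).symm))
  refine ⟨(Pi.basisFun K ι).toMatrix b, b.toMatrix (Pi.basisFun K ι), fun v => Units.mk0 (μ v) (hμ v), ?_, ?_, ?_⟩
  · exact b.toMatrix_mul_toMatrix_flip _
  · intro v
    have h3 : (fun i => (Pi.basisFun K ι).toMatrix b i v) = b v := by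
      funext i
      simp [Module.Basis.toMatrix_apply]
    rw [h3]
    exact h1 v
  · intro θ y hy v hv
    refine h2 θ y hy v ?_
    have h3 := (Pi.basisFun K ι).toMatrix_mulVec_repr b y
    rw [← h3]
    have h4 : ((Pi.basisFun K ι).repr y : ι → K) = y := by
      funext i
      simp
    rw [h4]
    exact hv

omit [IsAlgClosed K] [Fintype ι] [DecidableEq ι] in
/-- intertwiners shift the generalized eigenspaces -/
theorem shift_gen {E F A : Module.End K (ι → K)} {W : K} (hW : W ≠ 0)
    (h : ∀ y, A (E y) = W • F (A y)) (θ : K) {y : ι → K} (hy : y ∈ E.maxGenEigenspace θ) :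
    A y ∈ F.maxGenEigenspace (θ / W) := by
  have key : ∀ k : ℕ, ∀ y, A (((E - θ • (1 : Module.End K (ι → K))) ^ k) y) =
      W ^ k • ((F - (θ / W) • (1 : Module.End K (ι → K))) ^ k) (A y) := by
    intro k
    induction k with
    | zero => intro y; simp
    | succ k ih =>
      intro y
      have h1 : A ((E - θ • (1 : Module.End K (ι → K))) y) = W • (F - (θ / W) • (1 : Module.End K (ι → K))) (A y) := by
        simp only [LinearMap.sub_apply, LinearMap.smul_apply, Module.End.one_apply, map_sub, map_smul, h, smul_sub,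
          smul_smul]
        rw [mul_div_cancel₀ _ hW]
      rw [pow_succ, Module.End.mul_apply, ih, h1, map_smul, smul_smul, ← pow_succ, pow_succ (F - _),
        Module.End.mul_apply]
  rw [Module.End.mem_maxGenEigenspace] at hy ⊢
  obtain ⟨k, hk⟩ := hy
  refine ⟨k, ?_⟩
  have h1 := key k y
  rw [hk, map_zero] at h1
  exact (smul_eq_zero.1 h1.symm).resolve_left (pow_ne_zero k hW)

end

section

variable {K ι X : Type*} [Field K] [Fintype ι] [DecidableEq ι]

omit [DecidableEq ι] in
theorem coeff_conj (P Q : Matrix ι ι K) (M : Matrix ι ι (MvPolynomial X K)) (m : X →₀ ℕ) (u v : ι) :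
    MvPolynomial.coeff m ((P.map MvPolynomial.C * M * Q.map MvPolynomial.C : Matrix ι ι (MvPolynomial X K)) u v) =
      (P * M.map (MvPolynomial.coeff m) * Q) u v := by
  classical
  simp only [Matrix.mul_apply, MvPolynomial.coeff_sum, Matrix.map_apply, coeff_mul_C, MvPolynomial.coeff_C_mul]

/-- the weight of a monomial -/
noncomputable def mwt (c : X → Kˣ) (m : X →₀ ℕ) : Kˣ := m.prod fun x k => c x ^ k

theorem mwt_val (c : X → Kˣ) (m : X →₀ ℕ) :
    ((mwt c m : Kˣ) : K) = m.prod (N := K) fun x k => ((c x : Kˣ) : K) ^ k := by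
  unfold mwt Finsupp.prod
  rw [Units.coe_prod]
  exact Finset.prod_congr rfl fun x _ => Units.val_pow_eq_pow_val _ _

/-- An equivariant matrix can be graded. -/
theorem graded_form [IsAlgClosed K] {M : Matrix ι ι (MvPolynomial X K)} {c : X → Kˣ} {B C : Matrix ι ι K}
    (hB : IsUnit B.det) (hC : IsUnit C.det)
    (hBC : M.map (scale fun x => ((c x : Kˣ) : K)) = B.map MvPolynomial.C * M * C.map MvPolynomial.C) :
    ∃ (P Q : Matrix ι ι K) (ν μ : ι → Kˣ), IsUnit P.det ∧ IsUnit Q.det ∧
      ∀ (m : X →₀ ℕ) (u v : ι), MvPolynomial.coeff m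
        ((P.map MvPolynomial.C * M * Q.map MvPolynomial.C : Matrix ι ι (MvPolynomial X K)) u v) ≠ 0 →
        ν u * mwt c m = μ v := by
  classical
  have hB' : IsUnit (B⁻¹).det := Matrix.isUnit_nonsing_inv_det_iff.2 hB
  obtain ⟨P1, Q1, ν, hQP1, hP1, hQ1⟩ := graded_matrix hB'
  obtain ⟨P2, Q2, μ, hQP2, hP2, hQ2⟩ := graded_matrix hC
  refine ⟨Q1, P2, ν, μ, ?_, ?_, ?_⟩
  · exact (Matrix.isUnit_iff_isUnit_det _).1 (IsUnit.of_mul_eq_one P1 hQP1)
  · have h3 : P2 * Q2 = 1 := mul_eq_one_comm.1 hQP2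
    exact (Matrix.isUnit_iff_isUnit_det _).1 (IsUnit.of_mul_eq_one Q2 h3)
  · intro m u v hne
    rw [coeff_conj] at hne
    set A := M.map (MvPolynomial.coeff m) with hA
    have h1 : ((mwt c m : Kˣ) : K) • A = B * A * C := by
      ext i j
      have h2 := congrArg (fun S : Matrix ι ι (MvPolynomial X K) => MvPolynomial.coeff m (S i j)) hBC
      simp only [Matrix.map_apply] at h2
      rw [coeff_conj, coeff_scale, ← mwt_val] at h2
      rw [Matrix.smul_apply, smul_eq_mul, hA, Matrix.map_apply]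
      exact h2
    have h2 : A * C = ((mwt c m : Kˣ) : K) • (B⁻¹ * A) := by
      rw [← Matrix.mul_smul, h1, Matrix.mul_assoc, ← Matrix.mul_assoc B⁻¹, Matrix.nonsing_inv_mul B hB, Matrix.one_mul]
    have h3 : ∀ y, (en A) ((en C) y) =
        ((mwt c m : Kˣ) : K) • (en B⁻¹) ((en A) y) := by
      intro y
      simp only [en_apply, Matrix.mulVec_mulVec]
      rw [h2, Matrix.smul_mulVec]
    have h4 := shift_gen (mwt c m).ne_zero h3 _ (hP2 v)
    have h5 : (Q1 * A * P2) u v = (Q1 *ᵥ ((en A) fun i => P2 i v)) u := by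
      rw [en_apply, Matrix.mulVec_mulVec]
      rfl
    rw [h5] at hne
    have h6 := hQ1 _ _ h4 u hne
    ext
    rw [Units.val_mul, h6, div_mul_cancel₀ _ (mwt c m).ne_zero]

end

end Pool.Agent.Helper1x.EP
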