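import Pool.Agent.Helper1x.EQ.Core

/-!
# The terms of the Leibniz expansion with a multilinear monomial
-/

set_option autoImplicit false

namespace Pool.Agent.Helper1x.EP

open Finset Pool.Agent.Helper1x.EQ

variable {K ι : Type*} [Field K]

theorem coeff_prod_ne {X : Type*} (s : Finset ι) (p : ι → MvPolynomial X K) : ∀ m : X →₀ ℕ,
    MvPolynomial.coeff m (∏ v ∈ s, p v) ≠ 0 →
    ∃ d : ι → X →₀ ℕ, ∑ v ∈ s, d v = m ∧ ∀ v ∈ s, MvPolynomial.coeff (d v) (p v) ≠ 0 := by
  classical
  induction s using Finset.induction_on with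
  | empty =>
    intro m h
    rw [Finset.prod_empty, MvPolynomial.coeff_one] at h
    refine ⟨fun _ => 0, ?_, fun v hv => absurd hv (Finset.notMem_empty v)⟩
    rw [Finset.sum_empty]
    by_contra hne
    exact h (if_neg hne)
  | insert a s ha ih =>
    intro m h
    rw [Finset.prod_insert ha, MvPolynomial.coeff_mul] at h
    obtain ⟨⟨m1, m2⟩, hm, hne⟩ := Finset.exists_ne_zero_of_sum_ne_zero h
    rw [Finset.HasAntidiagonal.mem_antidiagonal] at hm
    simp only at hm hne
    obtain ⟨d, hd1, hd2⟩ := ih m2 (right_ne_zero_of_mul hne)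
    refine ⟨Function.update d a m1, ?_, ?_⟩
    · rw [Finset.sum_insert ha, Function.update_self, ← hm, ← hd1]
      congr 1
      refine Finset.sum_congr rfl fun v hv => ?_
      rw [Function.update_of_ne]
      rintro rfl
      exact ha hv
    · intro v hv
      by_cases hva : v = a
      · subst hva
        rw [Function.update_self]
        exact left_ne_zero_of_mul hne
      · rw [Function.update_of_ne hva]
        exact hd2 v ((mem_insert.1 hv).resolve_left hva)

variable {n : ℕ}

/-- the monomial of a permutation -/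
noncomputable def pm (σ : Equiv.Perm (Fin n)) : (Fin n × Fin n) →₀ ℕ := ∑ i, Finsupp.single (i, σ i) 1

theorem pm_apply (σ : Equiv.Perm (Fin n)) (x : Fin n × Fin n) : pm σ x = if σ x.1 = x.2 then 1 else 0 := by
  classical
  rw [pm, Finsupp.finsetSum_apply, Finset.sum_eq_single x.1]
  · rw [Finsupp.single_apply]
    by_cases h : σ x.1 = x.2
    · have h1 : (x.1, σ x.1) = x := Prod.ext rfl h
      rw [if_pos h1, if_pos h]
    · have h1 : ¬ (x.1, σ x.1) = x := fun h1 => h (congrArg Prod.snd h1)
      rw [if_neg h1, if_neg h]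
  · intro i _ hi
    rw [Finsupp.single_apply, if_neg]
    intro h
    exact hi (congrArg Prod.fst h)
  · intro h
    exact absurd (mem_univ _) h

theorem pm_injective : Function.Injective (pm (n := n)) := by
  intro σ τ h
  ext i
  have h1 := congrFun (congrArg DFunLike.coe h) (i, σ i)
  rw [pm_apply, pm_apply, if_pos rfl] at h1
  simp only at h1
  by_cases h2 : τ i = σ i
  · rw [h2]
  · rw [if_neg h2] at h1
    exact absurd h1 one_ne_zero

theorem pm_degree (σ : Equiv.Perm (Fin n)) : (pm σ).degree = n := by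
  rw [pm, map_sum, Finset.sum_congr rfl fun i _ => Finsupp.degree_single _ _, Finset.sum_const, Finset.card_univ,
    Fintype.card_fin, smul_eq_mul, mul_one]

variable [Fintype ι] [DecidableEq ι]

/-- the part of the monomial of a permutation in the rows of a set -/
noncomputable def pmA (σ : Equiv.Perm (Fin n)) (A : Finset (Fin n)) : (Fin n × Fin n) →₀ ℕ :=
  ∑ i ∈ A, Finsupp.single (i, σ i) 1

theorem pmA_degree (σ : Equiv.Perm (Fin n)) (A : Finset (Fin n)) : (pmA σ A).degree = A.card := by
  rw [pmA, map_sum, Finset.sum_congr rfl fun i _ => Finsupp.degree_single _ _, Finset.sum_const, smul_eq_mul, mul_one]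

theorem pmA_apply (σ : Equiv.Perm (Fin n)) (A : Finset (Fin n)) (x : Fin n × Fin n) :
    pmA σ A x = if σ x.1 = x.2 ∧ x.1 ∈ A then 1 else 0 := by
  classical
  rw [pmA, Finsupp.finsetSum_apply]
  by_cases hx : x.1 ∈ A
  · rw [Finset.sum_eq_single x.1]
    · rw [Finsupp.single_apply]
      by_cases h : σ x.1 = x.2
      · have h1 : (x.1, σ x.1) = x := Prod.ext rfl h
        rw [if_pos h1, if_pos ⟨h, hx⟩]
      · have h1 : ¬ (x.1, σ x.1) = x := fun h1 => h (congrArg Prod.snd h1)
        rw [if_neg h1, if_neg fun h2 => h h2.1]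
    · intro i _ hi
      rw [Finsupp.single_apply, if_neg]
      intro h
      exact hi (congrArg Prod.fst h)
    · intro h
      exact absurd hx h
  · rw [if_neg fun h => hx h.2]
    refine Finset.sum_eq_zero fun i hi => ?_
    rw [Finsupp.single_apply, if_neg]
    intro h
    apply hx
    rw [← h]
    exact hi

/-- A monomial of a permutation in a determinant comes from a permutation of the rows and a distribution of the
variables to the columns. -/
theorem leib {N : Matrix ι ι (MvPolynomial (Fin n × Fin n) K)}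
    (σ : Equiv.Perm (Fin n)) (h : MvPolynomial.coeff (pm σ) N.det ≠ 0) :
    ∃ (ψ : Equiv.Perm ι) (g : Fin n → ι),
      ∀ v, MvPolynomial.coeff (pmA σ (univ.filter fun i => g i = v)) (N (ψ v) v) ≠ 0 := by
  classical
  rw [Matrix.det_apply, MvPolynomial.coeff_sum] at h
  obtain ⟨ψ, _, hψ⟩ := Finset.exists_ne_zero_of_sum_ne_zero h
  have h1 : MvPolynomial.coeff (pm σ) (∏ v, N (ψ v) v) ≠ 0 := by
    intro h0
    apply hψ
    rcases Int.units_eq_one_or (Equiv.Perm.sign ψ) with h2 | h2
    · rw [h2, one_smul, h0]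
    · rw [h2, Units.neg_smul, one_smul, MvPolynomial.coeff_neg, h0, neg_zero]
  obtain ⟨d, hd1, hd2⟩ := coeff_prod_ne univ _ _ h1
  have hsum : ∀ x, ∑ v, d v x = if σ x.1 = x.2 then 1 else 0 := by
    intro x
    rw [← pm_apply, ← hd1, Finsupp.finsetSum_apply]
  have hex : ∀ i, ∃ v, d v (i, σ i) ≠ 0 := by
    intro i
    have h3 := hsum (i, σ i)
    rw [if_pos rfl] at h3
    obtain ⟨v, _, hv⟩ := Finset.exists_ne_zero_of_sum_ne_zero (h3.symm ▸ one_ne_zero : ∑ v, d v (i, σ i) ≠ 0)
    exact ⟨v, hv⟩
  choose g hg using hex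
  refine ⟨ψ, g, fun v => ?_⟩
  have hkey : d v = pmA σ (univ.filter fun i => g i = v) := by
    ext x
    rw [pmA_apply]
    have h3 := hsum x
    by_cases h4 : σ x.1 = x.2
    · rw [if_pos h4] at h3
      have hx : x = (x.1, σ x.1) := Prod.ext rfl h4.symm
      have h5 : d (g x.1) x ≠ 0 := by
        have := hg x.1
        rwa [← hx] at this
      have h6 : d (g x.1) x + ∑ w ∈ univ.erase (g x.1), d w x = 1 := by
        rw [Finset.add_sum_erase univ (fun w => d w x) (mem_univ _), h3]
      by_cases h7 : g x.1 = v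
      · rw [if_pos ⟨h4, mem_filter.2 ⟨mem_univ _, h7⟩⟩, ← h7]
        omega
      · have h9 : ¬ (σ x.1 = x.2 ∧ x.1 ∈ univ.filter fun i => g i = v) := fun h8 => h7 (mem_filter.1 h8.2).2
        rw [if_neg h9]
        have h8 : ∑ w ∈ univ.erase (g x.1), d w x = 0 := by omega
        exact (Finset.sum_eq_zero_iff.1 h8) v (mem_erase.2 ⟨Ne.symm h7, mem_univ _⟩)
    · rw [if_neg h4] at h3
      rw [if_neg fun h8 => h4 h8.1]
      exact (Finset.sum_eq_zero_iff.1 h3) v (mem_univ _)
  rw [← hkey]
  exact hd2 v (mem_univ v)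

end Pool.Agent.Helper1x.EP
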