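import Pool.Agent.Helper1x.EP.Block
import Pool.Agent.Helper1x.EP.GenEig
import Pool.Agent.Helper1x.EP.Leib

/-!
# The determinant in the case of several unmatched labels
-/

set_option autoImplicit false

namespace Pool.Agent.Helper1x.EP

open Finset Matrix Pool.Agent.Helper1x.EQ

section

variable {K ι X G : Type*} [Field K] [Fintype ι] [DecidableEq ι]

theorem totalDegree_le_of_coeff {p : MvPolynomial X K} {d : ℕ} (h : ∀ m, MvPolynomial.coeff m p ≠ 0 → m.degree ≤ d) :
    p.totalDegree ≤ d := by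
  refine Finset.sup_le fun m hm => ?_
  exact h m (MvPolynomial.mem_support_iff.1 hm)

omit [DecidableEq ι] in
theorem conj_degree {M : Matrix ι ι (MvPolynomial X K)} (P Q : Matrix ι ι K) {d : ℕ}
    (hM : ∀ i j, (M i j).totalDegree ≤ d) (u v : ι) :
    ((P.map MvPolynomial.C * M * Q.map MvPolynomial.C : Matrix ι ι (MvPolynomial X K)) u v).totalDegree ≤ d := by
  refine totalDegree_le_of_coeff fun m hm => ?_
  by_contra hcon
  apply hm
  rw [coeff_conj]
  have h1 : M.map (MvPolynomial.coeff m) = 0 := by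
    ext i j
    rw [Matrix.map_apply, Matrix.zero_apply]
    by_contra h2
    exact hcon (degree_le_of_coeff (hM i j) h2)
  rw [h1, Matrix.mul_zero, Matrix.zero_mul, Matrix.zero_apply]

theorem det_conj (P Q : Matrix ι ι K) (M : Matrix ι ι (MvPolynomial X K)) :
    (P.map MvPolynomial.C * M * Q.map MvPolynomial.C : Matrix ι ι (MvPolynomial X K)).det =
      MvPolynomial.C P.det * M.det * MvPolynomial.C Q.det := by
  rw [Matrix.det_mul, Matrix.det_mul, RingHom.map_det, RingHom.map_det, RingHom.mapMatrix_apply,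
    RingHom.mapMatrix_apply]

variable [CommGroup G]

/-- The lowest part of the determinant of a graded matrix when the unmatched labels are different. -/
theorem several {N : Matrix ι ι (MvPolynomial X K)} {b μ : ι → G} {w : (X →₀ ℕ) → G} (hw0 : w 0 = 1)
    (hN : ∀ m u v, MvPolynomial.coeff m (N u v) ≠ 0 → b u * w m = μ v)
    {Z : Finset ι} (h2 : ∀ v, v ∉ Z → b v = μ v) (h3 : ∀ z ∈ Z, ∀ z' ∈ Z, b z' ≠ μ z)
    (hμ : ∀ z ∈ Z, ∀ z' ∈ Z, μ z = μ z' → z = z') (hb : ∀ z ∈ Z, ∀ z' ∈ Z, b z = b z' → z = z')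
    {φ : ι → ι → X} (hφ : ∀ z ∈ Z, ∀ z' ∈ Z, ∀ x, b z' * w (Finsupp.single x 1) = μ z → x = φ z z') :
    ∃ (lam : ι → ι → K) (κ : K), MvPolynomial.homogeneousComponent Z.card N.det = (Matrix.of fun u v : {x // x ∈ Z} =>
      MvPolynomial.C (lam u.1 v.1) * MvPolynomial.X (φ v.1 u.1)).det * MvPolynomial.C κ := by
  classical
  set N0 : Matrix ι ι K := N.map (MvPolynomial.coeff 0) with hN0
  have hN0' : ∀ u v, N0 u v ≠ 0 → b u = μ v := by
    intro u v h
    have h4 := hN 0 u v h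
    rwa [hw0, mul_one] at h4
  -- the right kernel vectors
  have hr : ∀ z, ∃ r : ι → K, z ∈ Z → r ≠ 0 ∧ (∀ v, r v ≠ 0 → μ v = μ z) ∧ N0 *ᵥ r = 0 := by
    intro z
    by_cases hz : z ∈ Z
    · obtain ⟨r, h4⟩ := exists_kernel (b := b) (μ := μ) hN0' (θ := μ z) (by
        refine Finset.card_lt_card (Finset.ssubset_iff_of_subset ?_ |>.2 ⟨z, ?_, ?_⟩)
        · intro u hu
          rw [mem_filter] at hu ⊢
          refine ⟨mem_univ _, ?_⟩
          have hu' : u ∉ Z := fun h => h3 z hz u h hu.2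
          rw [← h2 u hu']
          exact hu.2
        · exact mem_filter.2 ⟨mem_univ _, rfl⟩
        · intro h
          exact h3 z hz z hz (mem_filter.1 h).2)
      exact ⟨r, fun _ => h4⟩
    · exact ⟨0, fun h => absurd h hz⟩
  choose r hr using hr
  -- the left kernel vectors
  have hl : ∀ z, ∃ l : ι → K, z ∈ Z → l ≠ 0 ∧ (∀ v, l v ≠ 0 → b v = b z) ∧ N0ᵀ *ᵥ l = 0 := by
    intro z
    by_cases hz : z ∈ Z
    · obtain ⟨l, h4⟩ := exists_kernel (N0 := N0ᵀ) (b := μ) (μ := b) (fun u v h => (hN0' v u h).symm) (θ := b z) (by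
        refine Finset.card_lt_card (Finset.ssubset_iff_of_subset ?_ |>.2 ⟨z, ?_, ?_⟩)
        · intro u hu
          rw [mem_filter] at hu ⊢
          refine ⟨mem_univ _, ?_⟩
          have hu' : u ∉ Z := fun h => h3 u h z hz hu.2.symm
          rw [h2 u hu']
          exact hu.2
        · exact mem_filter.2 ⟨mem_univ _, rfl⟩
        · intro h
          exact h3 z hz z hz (mem_filter.1 h).2.symm)
      exact ⟨l, fun _ => h4⟩
    · exact ⟨0, fun h => absurd h hz⟩
  choose l hl using hl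
  obtain ⟨P2, hP2, hP2'⟩ := completion (Z := Z) (r := r) (lab := μ) hμ (fun z hz => (hr z hz).2.1) fun z hz => (hr z hz).1
  obtain ⟨PL, hPL, hPL'⟩ := completion (Z := Z) (r := l) (lab := b) hb (fun z hz => (hl z hz).2.1) fun z hz => (hl z hz).1
  set N2 : Matrix ι ι (MvPolynomial X K) := PLᵀ.map MvPolynomial.C * N * P2.map MvPolynomial.C with hN2
  have hN2det : N2.det = MvPolynomial.C PLᵀ.det * N.det * MvPolynomial.C P2.det := det_conj _ _ _
  have hrow : ∀ z ∈ Z, ∀ v, MvPolynomial.coeff 0 (N2 z v) = 0 := by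
    intro z hz v
    rw [hN2, coeff_conj, Matrix.mul_apply]
    refine Finset.sum_eq_zero fun w _ => ?_
    have h4 : (PLᵀ * N.map (MvPolynomial.coeff 0)) z w = (N0ᵀ *ᵥ l z) w := by
      rw [Matrix.mul_apply]
      simp only [Matrix.mulVec, dotProduct, Matrix.transpose_apply]
      refine Finset.sum_congr rfl fun u _ => ?_
      rw [hPL' z hz u, mul_comm]
    rw [h4, (hl z hz).2.2, Pi.zero_apply, zero_mul]
  have hcol : ∀ z ∈ Z, ∀ u, MvPolynomial.coeff 0 (N2 u z) = 0 := by
    intro z hz u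
    rw [hN2, coeff_conj, Matrix.mul_assoc, Matrix.mul_apply]
    refine Finset.sum_eq_zero fun w _ => ?_
    have h4 : (N.map (MvPolynomial.coeff 0) * P2) w z = (N0 *ᵥ r z) w := by
      rw [Matrix.mul_apply]
      simp only [Matrix.mulVec, dotProduct]
      refine Finset.sum_congr rfl fun u _ => ?_
      rw [hP2' z hz u]
    rw [h4, (hr z hz).2.2, Pi.zero_apply, mul_zero]
  have hgr : ∀ z ∈ Z, ∀ z' ∈ Z, ∀ m, MvPolynomial.coeff m (N2 z' z) ≠ 0 → b z' * w m = μ z := by
    intro z hz z' hz' m hm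
    rw [hN2, coeff_conj, Matrix.mul_apply] at hm
    obtain ⟨v, _, hv⟩ := Finset.exists_ne_zero_of_sum_ne_zero hm
    have hv1 := left_ne_zero_of_mul hv
    have hv2 := right_ne_zero_of_mul hv
    rw [Matrix.mul_apply] at hv1
    obtain ⟨u, _, hu⟩ := Finset.exists_ne_zero_of_sum_ne_zero hv1
    have hu1 := left_ne_zero_of_mul hu
    have hu2 := right_ne_zero_of_mul hu
    rw [Matrix.transpose_apply, hPL' z' hz' u] at hu1
    rw [hP2' z hz v] at hv2
    rw [← (hl z' hz').2.1 u hu1, ← (hr z hz).2.1 v hv2]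
    exact hN m u v hu2
  have hent : ∀ z ∈ Z, ∀ z' ∈ Z, MvPolynomial.homogeneousComponent 1 (N2 z' z) =
      MvPolynomial.C (MvPolynomial.coeff (Finsupp.single (φ z z') 1) (N2 z' z)) * MvPolynomial.X (φ z z') := by
    intro z hz z' hz'
    ext m
    rw [MvPolynomial.coeff_C_mul, MvPolynomial.coeff_X, MvPolynomial.coeff_homogeneousComponent]
    by_cases hm : Finsupp.single (φ z z') 1 = m
    · rw [if_pos hm, mul_one, hm, if_pos]
      rw [← hm, Finsupp.degree_single]
    · rw [if_neg hm, mul_zero]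
      split_ifs with h5
      · by_contra h4
        obtain ⟨x, rfl⟩ := eq_single_of_degree h5
        apply hm
        rw [hφ z hz z' hz' x (hgr z hz z' hz' _ h4)]
      · rfl
  obtain ⟨κ, hκ⟩ := block_det hrow hcol
  refine ⟨fun u v => MvPolynomial.coeff (Finsupp.single (φ v u) 1) (N2 u v), κ * (PLᵀ.det)⁻¹ * (P2.det)⁻¹, ?_⟩
  have h4 : (Matrix.of fun u v : {x // x ∈ Z} => MvPolynomial.homogeneousComponent 1 (N2 u.1 v.1)) =
      Matrix.of fun u v : {x // x ∈ Z} =>
      MvPolynomial.C (MvPolynomial.coeff (Finsupp.single (φ v.1 u.1) 1) (N2 u.1 v.1)) *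
        MvPolynomial.X (φ v.1 u.1) := by
    ext1 u v
    rw [Matrix.of_apply, Matrix.of_apply]
    exact hent v.1 v.2 u.1 u.2
  have h9 : MvPolynomial.homogeneousComponent Z.card N2.det =
      MvPolynomial.C PLᵀ.det * MvPolynomial.homogeneousComponent Z.card N.det * MvPolynomial.C P2.det := by
    rw [hN2det, mul_comm, ← mul_assoc, ← map_mul, MvPolynomial.homogeneousComponent_C_mul, map_mul]
    ring
  rw [← h4, map_mul, map_mul, ← mul_assoc, ← mul_assoc, ← hκ, h9]
  have h5 : PLᵀ.det ≠ 0 := by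
    rw [Matrix.det_transpose]
    exact hPL.ne_zero
  have h6 : P2.det ≠ 0 := hP2.ne_zero
  have h7 : MvPolynomial.C (σ := X) PLᵀ.det * MvPolynomial.C (PLᵀ.det)⁻¹ = 1 := by
    rw [← map_mul, mul_inv_cancel₀ h5, map_one]
  have h8 : MvPolynomial.C (σ := X) P2.det * MvPolynomial.C (P2.det)⁻¹ = 1 := by
    rw [← map_mul, mul_inv_cancel₀ h6, map_one]
  linear_combination (-MvPolynomial.homogeneousComponent Z.card N.det * MvPolynomial.C P2.det *
    MvPolynomial.C (P2.det)⁻¹) * h7 - MvPolynomial.homogeneousComponent Z.card N.det * h8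

end

section

variable {K ι : Type*} [Field K] [DecidableEq ι] {n : ℕ}

theorem to_fin {Z : Finset ι} (hcard : Z.card = n) {α γ : ι → Fin n} (hα : ∀ z1 ∈ Z, ∀ z2 ∈ Z, α z1 = α z2 → z1 = z2)
    (hγ : ∀ z1 ∈ Z, ∀ z2 ∈ Z, γ z1 = γ z2 → z1 = z2) (lam : ι → ι → K) :
    ∃ (lam' : Fin n × Fin n → K) (ε : K), (Matrix.of fun u v : {x // x ∈ Z} =>
      MvPolynomial.C (lam u.1 v.1) * (MvPolynomial.X (α u.1, γ v.1) : MvPolynomial (Fin n × Fin n) K)).det =
      MvPolynomial.C ε * (Matrix.of fun i j : Fin n => MvPolynomial.C (lam' (i, j)) *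
        (MvPolynomial.X (i, j) : MvPolynomial (Fin n × Fin n) K)).det := by
  classical
  have hc : Fintype.card {x // x ∈ Z} = Fintype.card (Fin n) := by
    rw [Fintype.card_coe, hcard, Fintype.card_fin]
  set eα : {x // x ∈ Z} ≃ Fin n := Equiv.ofBijective (fun z => α z.1)
    ((Fintype.bijective_iff_injective_and_card _).2 ⟨fun x y h => Subtype.ext (hα _ x.2 _ y.2 h), hc⟩) with heα
  set eγ : {x // x ∈ Z} ≃ Fin n := Equiv.ofBijective (fun z => γ z.1)
    ((Fintype.bijective_iff_injective_and_card _).2 ⟨fun x y h => Subtype.ext (hγ _ x.2 _ y.2 h), hc⟩) with heγ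
  set A : Matrix (Fin n) (Fin n) (MvPolynomial (Fin n × Fin n) K) := Matrix.of fun i j : Fin n =>
    MvPolynomial.C (lam (eα.symm i).1 (eγ.symm j).1) * MvPolynomial.X (i, j) with hA
  refine ⟨fun x => lam (eα.symm x.1).1 (eγ.symm x.2).1, ((Equiv.Perm.sign (eα.symm.trans eγ) : ℤ) : K), ?_⟩
  have h1 : (Matrix.of fun u v : {x // x ∈ Z} => MvPolynomial.C (lam u.1 v.1) *
      (MvPolynomial.X (α u.1, γ v.1) : MvPolynomial (Fin n × Fin n) K)) =
      (A.submatrix id (eα.symm.trans eγ)).submatrix eα eα := by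
    ext1 u v
    rw [Matrix.submatrix_apply, Matrix.submatrix_apply, hA, Matrix.of_apply, Matrix.of_apply]
    simp only [id_eq, Equiv.coe_trans, Function.comp_apply, Equiv.symm_apply_apply]
    rfl
  rw [h1, Matrix.det_submatrix_equiv_self, Matrix.det_permute', map_intCast]

theorem absorb (hn : 0 < n) (lam : Fin n × Fin n → K) (ε : K) : ∃ lam' : Fin n × Fin n → K,
    MvPolynomial.C ε * (Matrix.of fun i j : Fin n => MvPolynomial.C (lam (i, j)) *
      (MvPolynomial.X (i, j) : MvPolynomial (Fin n × Fin n) K)).det =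
    (Matrix.of fun i j : Fin n => MvPolynomial.C (lam' (i, j)) *
      (MvPolynomial.X (i, j) : MvPolynomial (Fin n × Fin n) K)).det := by
  classical
  refine ⟨fun x => (if x.1 = ⟨0, hn⟩ then ε else 1) * lam x, ?_⟩
  set A : Matrix (Fin n) (Fin n) (MvPolynomial (Fin n × Fin n) K) := Matrix.of fun i j : Fin n =>
    MvPolynomial.C (lam (i, j)) * MvPolynomial.X (i, j) with hA
  have h1 := Matrix.det_mul_column (fun i : Fin n => MvPolynomial.C (if i = ⟨0, hn⟩ then ε else 1)) A
  have h2 : (∏ i : Fin n, MvPolynomial.C (if i = ⟨0, hn⟩ then ε else 1) : MvPolynomial (Fin n × Fin n) K) =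
      MvPolynomial.C ε := by
    rw [← map_prod, Finset.prod_ite_eq' univ, if_pos (mem_univ _)]
  rw [h2] at h1
  rw [← h1]
  congr 1
  ext1 i j
  rw [Matrix.of_apply, Matrix.of_apply, hA, Matrix.of_apply]
  simp only
  rw [map_mul, mul_assoc]

end

end Pool.Agent.Helper1x.EP
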