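import Pool.Agent.Helper1x.EQ.Core

/-!
# Kernel vectors, completion to bases and the lowest part of a determinant
-/

set_option autoImplicit false

namespace Pool.Agent.Helper1x.EP

open Finset Matrix Pool.Agent.Helper1x.EQ

section linear

variable {K ι G : Type*} [Field K] [Fintype ι] [DecidableEq ι]

/-- Vectors with disjoint classes of labels are columns of an invertible matrix. -/
theorem completion {Z : Finset ι} {r : ι → ι → K} {lab : ι → G}
    (hlab : ∀ z ∈ Z, ∀ z' ∈ Z, lab z = lab z' → z = z') (hsupp : ∀ z ∈ Z, ∀ v, r z v ≠ 0 → lab v = lab z)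
    (hne : ∀ z ∈ Z, r z ≠ 0) : ∃ P : Matrix ι ι K, IsUnit P.det ∧ ∀ z ∈ Z, ∀ v, P v z = r z v := by
  classical
  have hex : ∀ z, ∃ v, z ∈ Z → r z v ≠ 0 := by
    intro z
    by_cases hz : z ∈ Z
    · obtain ⟨v, hv⟩ := Function.ne_iff.1 (hne z hz)
      exact ⟨v, fun _ => hv⟩
    · exact ⟨z, fun h => absurd h hz⟩
  choose p hp using hex
  have hinj : Set.InjOn p Z := by
    intro z hz z' hz' h
    refine hlab z hz z' hz' ?_
    rw [← hsupp z hz _ (hp z hz), ← hsupp z' hz' _ (hp z' hz'), h]
  obtain ⟨g, hg⟩ := Finset.exists_equiv_extend_of_card_eq (t := (univ : Finset ι)) (Finset.card_univ (α := ι)).symm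
    (Finset.subset_univ (Z.image p)) hinj
  set π : ι ≃ ι := g.trans (Equiv.subtypeUnivEquiv Finset.mem_univ) with hπ
  have hπZ : ∀ z ∈ Z, π z = p z := fun z hz => hg z hz
  set P : Matrix ι ι K := fun v w => if w ∈ Z then r w v else if v = π w then 1 else 0 with hP
  refine ⟨P, ?_, ?_⟩
  · rw [isUnit_iff_ne_zero]
    intro h0
    obtain ⟨y, hy0, hy⟩ := Matrix.exists_mulVec_eq_zero_iff.2 h0
    have hyZ : ∀ z ∈ Z, y z = 0 := by
      intro z hz
      have h1 := congrFun hy (π z)
      simp only [Matrix.mulVec, dotProduct, Pi.zero_apply] at h1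
      rw [Finset.sum_eq_single z] at h1
      · rw [hP] at h1
        simp only [if_pos hz, hπZ z hz] at h1
        exact (mul_eq_zero.1 h1).resolve_left (hp z hz)
      · intro w _ hw
        rw [hP]
        simp only
        split_ifs with h2 h3
        · have h4 : r w (π z) = 0 := by
            by_contra h5
            apply hw
            refine hlab w h2 z hz ?_
            rw [← hsupp w h2 _ h5, hπZ z hz, hsupp z hz _ (hp z hz)]
          rw [h4, zero_mul]
        · exact absurd (π.injective h3).symm hw
        · rw [zero_mul]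
      · intro h
        exact absurd (mem_univ _) h
    apply hy0
    funext w
    by_cases hw : w ∈ Z
    · exact hyZ w hw
    · have h1 := congrFun hy (π w)
      simp only [Matrix.mulVec, dotProduct, Pi.zero_apply] at h1
      rw [Finset.sum_eq_single w] at h1
      · rw [hP] at h1
        simp only [if_neg hw, if_true, one_mul] at h1
        exact h1
      · intro w' _ hw'
        rw [hP]
        simp only
        split_ifs with h2 h3
        · rw [hyZ w' h2, mul_zero]
        · exact absurd (π.injective h3).symm hw'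
        · rw [zero_mul]
      · intro h
        exact absurd (mem_univ _) h
  · intro z hz v
    rw [hP]
    simp only [if_pos hz]

/-- A graded matrix with more columns than rows of some label has a kernel vector there. -/
theorem exists_kernel [DecidableEq G] {N0 : Matrix ι ι K} {b μ : ι → G} (h : ∀ u v, N0 u v ≠ 0 → b u = μ v) {θ : G}
    (hcard : (univ.filter fun u => b u = θ).card < (univ.filter fun v => μ v = θ).card) :
    ∃ r : ι → K, r ≠ 0 ∧ (∀ v, r v ≠ 0 → μ v = θ) ∧ N0 *ᵥ r = 0 := by
  classical
  set L : ({v // μ v = θ} → K) →ₗ[K] ({u // b u = θ} → K) :=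
    (N0.submatrix (fun u : {u // b u = θ} => u.1) fun v : {v // μ v = θ} => v.1).mulVecLin with hL
  have h1 : LinearMap.ker L ≠ ⊥ := by
    apply LinearMap.ker_ne_bot_of_finrank_lt
    rw [Module.finrank_fintype_fun_eq_card, Module.finrank_fintype_fun_eq_card, Fintype.card_subtype,
      Fintype.card_subtype]
    exact hcard
  obtain ⟨x, hx, hx0⟩ := Submodule.exists_mem_ne_zero_of_ne_bot h1
  rw [LinearMap.mem_ker] at hx
  refine ⟨fun v => if hv : μ v = θ then x ⟨v, hv⟩ else 0, ?_, ?_, ?_⟩
  · intro h0
    apply hx0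
    funext v
    have h2 := congrFun h0 v.1
    simp only [v.2, dif_pos, Pi.zero_apply] at h2
    exact h2
  · intro v hv
    by_contra hcon
    simp only [dif_neg hcon] at hv
    exact hv rfl
  · funext u
    simp only [Matrix.mulVec, dotProduct, Pi.zero_apply]
    by_cases hu : b u = θ
    · have h2 := congrFun hx ⟨u, hu⟩
      rw [hL, Matrix.mulVecLin_apply] at h2
      simp only [Matrix.mulVec, dotProduct, Matrix.submatrix_apply, Pi.zero_apply] at h2
      have h3 : ∑ v ∈ univ.filter (fun v => μ v = θ), (N0 u v * if hv : μ v = θ then x ⟨v, hv⟩ else 0) =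
          ∑ v : {v // μ v = θ}, (N0 u v.1 * if hv : μ v.1 = θ then x ⟨v.1, hv⟩ else 0) :=
        Finset.sum_subtype (univ.filter fun v => μ v = θ) (p := fun v => μ v = θ) (by simp) _
      have h4 : ∑ v : {v // μ v = θ}, (N0 u v.1 * if hv : μ v.1 = θ then x ⟨v.1, hv⟩ else 0) =
          ∑ v : {v // μ v = θ}, N0 u v.1 * x v := by
        refine Finset.sum_congr rfl fun v _ => ?_
        rw [dif_pos v.2]
      rw [h4, h2] at h3
      refine Eq.trans ?_ h3
      symm
      refine Finset.sum_subset (Finset.subset_univ _) fun v _ hv => ?_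
      rw [mem_filter, not_and] at hv
      rw [dif_neg (hv (mem_univ _)), mul_zero]
    · refine Finset.sum_eq_zero fun v _ => ?_
      split_ifs with hv
      · have h3 : N0 u v = 0 := by
          by_contra h4
          exact hu ((h u v h4).trans hv)
        rw [h3, zero_mul]
      · rw [mul_zero]

end linear

section poly

variable {K X : Type*} [Field K]

/-- the substitution `x ↦ h x` with a new variable `h` -/
noncomputable def hs {K X : Type*} [Field K] : MvPolynomial X K →+* Polynomial (MvPolynomial X K) :=
  MvPolynomial.eval₂Hom (Polynomial.C.comp MvPolynomial.C) fun x => Polynomial.X * Polynomial.C (MvPolynomial.X x)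

theorem hs_C (a : K) : hs (X := X) (MvPolynomial.C a) = Polynomial.C (MvPolynomial.C a) := by
  unfold hs
  rw [MvPolynomial.eval₂Hom_C]
  rfl

theorem hs_monomial (m : X →₀ ℕ) (a : K) : hs (MvPolynomial.monomial m a) =
    Polynomial.X ^ m.degree * Polynomial.C (MvPolynomial.monomial m a) := by
  unfold hs
  rw [MvPolynomial.coe_eval₂Hom, MvPolynomial.eval₂_monomial]
  rw [MvPolynomial.monomial_eq, map_mul, RingHom.comp_apply, Finsupp.prod, Finsupp.prod]
  simp only [mul_pow, Finset.prod_mul_distrib, Finset.prod_pow_eq_pow_sum, map_prod, map_pow]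
  have h1 : m.degree = ∑ i ∈ m.support, m i := rfl
  rw [h1]
  ring

theorem hs_homogeneous {p : MvPolynomial X K} {d : ℕ} (hp : p.IsHomogeneous d) :
    hs p = Polynomial.X ^ d * Polynomial.C p := by
  conv_lhs => rw [p.as_sum, map_sum]
  conv_rhs => rw [p.as_sum, map_sum, Finset.mul_sum]
  refine Finset.sum_congr rfl fun m hm => ?_
  rw [hs_monomial]
  congr 2
  have := hp (MvPolynomial.mem_support_iff.1 hm)
  rw [Finsupp.degree_eq_weight_one]
  exact this

theorem hs_coeff (p : MvPolynomial X K) (d : ℕ) : (hs p).coeff d = MvPolynomial.homogeneousComponent d p := by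
  classical
  induction p using MvPolynomial.induction_on' with
  | monomial u a =>
    rw [hs_monomial, Polynomial.coeff_mul_C, Polynomial.coeff_X_pow]
    by_cases h : d = u.degree
    · rw [if_pos h, one_mul]
      have h1 : (MvPolynomial.monomial u a).IsHomogeneous d := MvPolynomial.isHomogeneous_monomial a h.symm
      rw [MvPolynomial.homogeneousComponent_of_mem h1, if_pos rfl]
    · rw [if_neg h, zero_mul]
      have h1 : (MvPolynomial.monomial u a).IsHomogeneous u.degree := MvPolynomial.isHomogeneous_monomial a rfl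
      rw [MvPolynomial.homogeneousComponent_of_mem h1, if_neg h]
  | add p q hp hq => rw [map_add, Polynomial.coeff_add, hp, hq, map_add]

theorem hs_coeff_zero (p : MvPolynomial X K) : (hs p).coeff 0 = MvPolynomial.C (MvPolynomial.coeff 0 p) := by
  rw [hs_coeff, MvPolynomial.homogeneousComponent_zero]

end poly

variable {K ι X : Type*} [Field K] [Fintype ι] [DecidableEq ι]

theorem two_block {R : Type*} [CommRing R] (A : Matrix ι ι R) (Z : Finset ι) (h : ∀ u, u ∉ Z → ∀ v ∈ Z, A u v = 0) :
    A.det = (Matrix.of fun u v : {x // x ∈ Z} => A u.1 v.1).det *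
      (Matrix.of fun u v : {x // ¬ x ∈ Z} => A u.1 v.1).det := by
  classical
  have key : ∀ {p : ι → Prop} (f1 f2 : Fintype {x // p x}) (d1 d2 : DecidableEq {x // p x})
      (M : Matrix {x // p x} {x // p x} R), @Matrix.det _ d1 f1 _ _ M = @Matrix.det _ d2 f2 _ _ M := by
    intro p f1 f2 d1 d2 M
    cases Subsingleton.elim f1 f2
    cases Subsingleton.elim d1 d2
    rfl
  have h1 := Matrix.twoBlockTriangular_det A (fun x => x ∈ Z) h
  rw [h1]
  simp only [Matrix.toSquareBlockProp_def]
  exact congrArg₂ (fun a b : R => a * b) (key _ _ _ _ _) (key _ _ _ _ _)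

/-- The lowest part of the determinant of a matrix, some of whose rows and columns have no constant terms. -/
theorem block_det {N : Matrix ι ι (MvPolynomial X K)} {Z : Finset ι}
    (hrow : ∀ z ∈ Z, ∀ v, MvPolynomial.coeff 0 (N z v) = 0) (hcol : ∀ z ∈ Z, ∀ u, MvPolynomial.coeff 0 (N u z) = 0) :
    ∃ κ : K, MvPolynomial.homogeneousComponent Z.card N.det =
      (Matrix.of fun u v : {x // x ∈ Z} => MvPolynomial.homogeneousComponent 1 (N u.1 v.1)).det *
        MvPolynomial.C κ := by
  classical
  set N1 : Matrix ι ι (Polynomial (MvPolynomial X K)) := fun u v => if u ∈ Z then (hs (N u v)).divX else hs (N u v)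
    with hN1
  set D : ι → Polynomial (MvPolynomial X K) := fun u => if u ∈ Z then Polynomial.X else 1 with hD
  have h1 : N.map hs = Matrix.diagonal D * N1 := by
    ext1 u v
    rw [Matrix.diagonal_mul, Matrix.map_apply, hD, hN1]
    simp only
    split_ifs with hu
    · conv_lhs => rw [← Polynomial.X_mul_divX_add (hs (N u v))]
      rw [hs_coeff_zero, hrow u hu v, map_zero, map_zero, add_zero]
    · rw [one_mul]
  have h2 : (N.map hs).det = hs N.det := ((hs (K := K) (X := X)).map_det N).symm
  have h3 : (Matrix.diagonal D).det = Polynomial.X ^ Z.card := by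
    rw [Matrix.det_diagonal, hD]
    simp only
    rw [Finset.prod_ite_mem, Finset.univ_inter, Finset.prod_const]
  have h4 : MvPolynomial.homogeneousComponent Z.card N.det = (N1.map (Polynomial.evalRingHom 0)).det := by
    rw [← hs_coeff, ← h2, h1, Matrix.det_mul, h3]
    have h5 : (Polynomial.X ^ Z.card * N1.det).coeff Z.card = N1.det.coeff 0 := by
      have := Polynomial.coeff_X_pow_mul N1.det Z.card 0
      rwa [zero_add] at this
    rw [h5, Polynomial.coeff_zero_eq_eval_zero]
    exact RingHom.map_det (Polynomial.evalRingHom 0) N1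
  have h6 : ∀ u v, (N1.map (Polynomial.evalRingHom 0)) u v = if u ∈ Z then
      MvPolynomial.homogeneousComponent 1 (N u v) else MvPolynomial.C (MvPolynomial.coeff 0 (N u v)) := by
    intro u v
    rw [Matrix.map_apply, hN1]
    simp only
    split_ifs with hu
    · rw [Polynomial.coe_evalRingHom, ← Polynomial.coeff_zero_eq_eval_zero, Polynomial.coeff_divX, zero_add, hs_coeff]
    · rw [Polynomial.coe_evalRingHom, ← Polynomial.coeff_zero_eq_eval_zero, hs_coeff_zero]
  refine ⟨(Matrix.of fun u v : {x // ¬ x ∈ Z} => MvPolynomial.coeff 0 (N u.1 v.1)).det, ?_⟩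
  rw [h4, two_block (N1.map (Polynomial.evalRingHom 0)) Z fun u hu v hv => by rw [h6, if_neg hu, hcol v hv u, map_zero]]
  congr 1
  · congr 1
    ext1 u v
    rw [Matrix.of_apply, Matrix.of_apply, h6, if_pos u.2]
  · rw [RingHom.map_det, RingHom.mapMatrix_apply]
    congr 1
    ext1 u v
    have h7 := h6 u.1 v.1
    rw [if_neg u.2] at h7
    exact h7

end Pool.Agent.Helper1x.EP
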