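import Pool.Agent.Helper1x.EP.Field

/-!
# Approximative equivariant determinantal representations of the permanent
-/

set_option autoImplicit false

namespace Pool.Agent.Helper1x.EP

open Finset Matrix Pool.Agent.Helper1x.EQ

theorem prod_zpow_sum {α G : Type*} [CommGroup G] (g : G) (s : Finset α) (f : α → ℤ) :
    ∏ i ∈ s, g ^ f i = g ^ ∑ i ∈ s, f i := by
  classical
  induction s using Finset.induction_on with
  | empty => simp
  | insert a s ha ih => rw [Finset.prod_insert ha, Finset.sum_insert ha, ih, _root_.zpow_add]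

section semi

variable {K ι : Type*} [Field K] [Fintype ι] [DecidableEq ι] {n : ℕ}

theorem mwt_torus (s t : Fin n → Kˣ) (m : (Fin n × Fin n) →₀ ℕ) :
    mwt (fun x => s x.1 * t x.2 * (s x.1 * t x.2)) m =
      (∏ i, s i ^ (2 * ∑ j, (m (i, j) : ℤ))) * ∏ j, t j ^ (2 * ∑ i, (m (i, j) : ℤ)) := by
  have h1 : mwt (fun x => s x.1 * t x.2 * (s x.1 * t x.2)) m = ∏ i, ∏ j, (s i ^ (2 * (m (i, j) : ℤ)) *
      t j ^ (2 * (m (i, j) : ℤ))) := by
    rw [mwt, Finsupp.prod_fintype _ _ (fun x => pow_zero _), Fintype.prod_prod_type]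
    refine Finset.prod_congr rfl fun i _ => Finset.prod_congr rfl fun j _ => ?_
    simp only
    rw [_root_.zpow_mul, _root_.zpow_mul, _root_.zpow_natCast, _root_.zpow_natCast, ← mul_pow, zpow_two, zpow_two,
      mul_mul_mul_comm]
  rw [h1]
  simp only [Finset.prod_mul_distrib]
  congr 1
  · refine Finset.prod_congr rfl fun i _ => ?_
    rw [prod_zpow_sum, Finset.mul_sum]
  · rw [Finset.prod_comm]
    refine Finset.prod_congr rfl fun j _ => ?_
    rw [prod_zpow_sum, Finset.mul_sum]

/-- If the determinant of an equivariant matrix contains the product of the diagonal entries and a constant term, then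
the square of the product of all entries of the pair is one. -/
theorem semi {M : Matrix ι ι (MvPolynomial (Fin n × Fin n) K)} {s t : Fin n → Kˣ}
    (hEq : Equivariant (fun x => ((s x.1 * t x.2 : Kˣ) : K)) M) (h1 : MvPolynomial.coeff (pm 1) M.det ≠ 0)
    (h0 : MvPolynomial.coeff 0 M.det ≠ 0) : ((∏ i, s i) * ∏ j, t j) ^ 2 = 1 := by
  classical
  obtain ⟨B, C, hB, hC, hBC⟩ := hEq.square
  set c2 : Fin n × Fin n → Kˣ := fun x => s x.1 * t x.2 * (s x.1 * t x.2) with hc2
  have hsc : (scale fun x => ((s x.1 * t x.2 : Kˣ) : K) * ((s x.1 * t x.2 : Kˣ) : K)) =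
      scale fun x => ((c2 x : Kˣ) : K) := by
    congr 1
  rw [hsc] at hBC
  have hdet : scale (fun x => ((c2 x : Kˣ) : K)) M.det = MvPolynomial.C B.det * M.det * MvPolynomial.C C.det := by
    rw [← det_conj, ← hBC]
    exact AlgHom.map_det _ _
  have hcoef : ∀ m, MvPolynomial.coeff m M.det ≠ 0 → ((mwt c2 m : Kˣ) : K) = B.det * C.det := by
    intro m hm
    have h2 := congrArg (MvPolynomial.coeff m) hdet
    rw [coeff_scale, ← mwt_val, coeff_mul_C, MvPolynomial.coeff_C_mul] at h2
    apply mul_right_cancel₀ hm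
    rw [h2]
    ring
  have h2 : mwt c2 (pm 1) = 1 := by
    have h3 : mwt c2 (pm 1) = mwt c2 0 := by
      ext
      rw [hcoef _ h1, hcoef _ h0]
    rw [h3]
    simp [mwt]
  have h3 : ∀ i, ∑ j, (pm (1 : Equiv.Perm (Fin n)) (i, j) : ℤ) = 1 := by
    intro i
    rw [Finset.sum_eq_single i]
    · rw [pm_apply]; simp
    · intro j _ hj
      rw [pm_apply, if_neg]
      · rfl
      · exact fun h => hj h.symm
    · intro h
      exact absurd (mem_univ _) h
  have h4 : ∀ j, ∑ i, (pm (1 : Equiv.Perm (Fin n)) (i, j) : ℤ) = 1 := by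
    intro j
    rw [Finset.sum_eq_single j]
    · rw [pm_apply]; simp
    · intro i _ hi
      rw [pm_apply, if_neg]
      · rfl
      · exact fun h => hi h
    · intro h
      exact absurd (mem_univ _) h
  have h6 := mwt_torus s t (pm 1)
  simp only [h3, h4] at h6
  rw [← hc2, h2] at h6
  rw [h6, mul_pow, ← Finset.prod_pow, ← Finset.prod_pow]
  congr 1

/-- the lower bounds for approximations -/
theorem lower_approx (hn : 3 ≤ n) {d : ℕ} {M : Matrix ι ι (MvPolynomial (Fin n × Fin n) K)}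
    (hMdeg : ∀ i j, (M i j).totalDegree ≤ d) (hne : ∀ σ, MvPolynomial.coeff (pm σ) M.det ≠ 0)
    (hrel : ∀ σ : Fin 6 → Equiv.Perm (Fin n), MvPolynomial.coeff (pm (σ 0)) M.det *
      MvPolynomial.coeff (pm (σ 1)) M.det * MvPolynomial.coeff (pm (σ 2)) M.det +
      MvPolynomial.coeff (pm (σ 3)) M.det * MvPolynomial.coeff (pm (σ 4)) M.det *
      MvPolynomial.coeff (pm (σ 5)) M.det ≠ 0) {s t : Fin n → Kˣ} (hgen : GenericPair s t)
    (hEq : Equivariant (fun x => ((s x.1 * t x.2 : Kˣ) : K)) M) :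
    (((∏ i, s i) * ∏ j, t j) ^ 2 ≠ 1 → Bound n d (Fintype.card ι)) ∧
    (1 ≤ d → d ≤ n → n.choose ((n - d + 1) / 2) ≤ Fintype.card ι * Fintype.card ι) := by
  rcases master_field (by omega) hMdeg hne hgen hEq with h | h | ⟨h1, h2⟩
  · exact absurd h (not_scaled hn hrel)
  · refine ⟨fun _ => h, fun hd1 hdn => (h.2 hd1 hdn).trans ?_⟩
    have h3 := h.2 hd1 hdn
    have h4 : 0 < n.choose ((n - d + 1) / 2) := Nat.choose_pos (by omega)
    exact Nat.le_mul_of_pos_left _ (by omega)
  · exact ⟨fun h3 => absurd (semi hEq (hne 1) h1) h3, h2⟩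

end semi

section permanent

variable {n : ℕ}

theorem per_eq (K : Type*) [Field K] : (Matrix.of fun i j : Fin n =>
    (MvPolynomial.X (i, j) : MvPolynomial (Fin n × Fin n) K)).permanent = permForm fun _ => 1 := by
  rw [← Matrix.permanent_transpose, Matrix.permanent, permForm]
  refine Finset.sum_congr rfl fun σ _ => ?_
  simp only [Matrix.transpose_apply, Matrix.of_apply]
  rw [MvPolynomial.monomial_eq, map_one, one_mul, pm,
    ← Finsupp.prod_finsetSum_index (h := fun x k => (MvPolynomial.X x : MvPolynomial (Fin n × Fin n) K) ^ k)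
    (fun x => pow_zero _) (fun x a b => pow_add _ _ _)]
  refine Finset.prod_congr rfl fun i _ => ?_
  rw [Finsupp.prod_single_index (h := fun x k => (MvPolynomial.X x : MvPolynomial (Fin n × Fin n) K) ^ k)
    (pow_zero _), pow_one]

theorem coeff_per (K : Type*) [Field K] (σ : Equiv.Perm (Fin n)) : MvPolynomial.coeff (pm σ) (Matrix.of fun i j : Fin n =>
    (MvPolynomial.X (i, j) : MvPolynomial (Fin n × Fin n) K)).permanent = 1 := by
  rw [per_eq, coeff_permForm]

open Filter Topology in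
/-- Limits over the complex numbers. -/
theorem border_limit (hn : 3 ≤ n) {d m : ℕ} {M : ℕ → Matrix (Fin m) (Fin m) (MvPolynomial (Fin n × Fin n) ℂ)}
    (hlim : ∀ e, Tendsto (fun k => MvPolynomial.coeff e (M k).det) atTop (𝓝 (MvPolynomial.coeff e
      (Matrix.of fun i j : Fin n => (MvPolynomial.X (i, j) : MvPolynomial (Fin n × Fin n) ℂ)).permanent)))
    (hdeg : ∀ k i j, (M k i j).totalDegree ≤ d) {s t : ℕ → Fin n → ℂˣ} (hgen : ∀ k, GenericPair (s k) (t k))
    (hEq : ∀ k, Equivariant (fun x => ((s k x.1 * t k x.2 : ℂˣ) : ℂ)) (M k)) :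
    ((∀ k, ((∏ i, s k i) * ∏ j, t k j) ^ 2 ≠ 1) → Bound n d m) ∧
    (1 ≤ d → d ≤ n → n.choose ((n - d + 1) / 2) ≤ m * m) := by
  have h1 : ∀ σ : Equiv.Perm (Fin n), Tendsto (fun k => MvPolynomial.coeff (pm σ) (M k).det) atTop (𝓝 1) := by
    intro σ
    have := hlim (pm σ)
    rwa [coeff_per] at this
  have h2 : ∀ᶠ k in atTop, ∀ σ : Equiv.Perm (Fin n), MvPolynomial.coeff (pm σ) (M k).det ≠ 0 := by
    rw [Filter.eventually_all]
    intro σ
    exact (h1 σ).eventually_ne one_ne_zero
  have h3 : ∀ᶠ k in atTop, ∀ σ : Fin 6 → Equiv.Perm (Fin n), MvPolynomial.coeff (pm (σ 0)) (M k).det *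
      MvPolynomial.coeff (pm (σ 1)) (M k).det * MvPolynomial.coeff (pm (σ 2)) (M k).det +
      MvPolynomial.coeff (pm (σ 3)) (M k).det *
      MvPolynomial.coeff (pm (σ 4)) (M k).det * MvPolynomial.coeff (pm (σ 5)) (M k).det ≠ 0 := by
    rw [Filter.eventually_all]
    intro σ
    have h4 := (((h1 (σ 0)).mul (h1 (σ 1))).mul (h1 (σ 2))).add (((h1 (σ 3)).mul (h1 (σ 4))).mul (h1 (σ 5)))
    exact h4.eventually_ne (by norm_num)
  obtain ⟨k, hk1, hk2⟩ := (h2.and h3).exists
  have h4 := lower_approx hn (hdeg k) hk1 hk2 (hgen k) (hEq k)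
  rw [Fintype.card_fin] at h4
  exact ⟨fun h5 => h4.1 (h5 k), h4.2⟩

end permanent

section ratfunc

variable {k : Type*} [Field k]

/-- the rational functions defined at `0` -/
noncomputable def local0 (k : Type*) [Field k] : Subring (RatFunc k) where
  carrier := {x | x.denom.eval 0 ≠ 0}
  zero_mem' := by simp
  one_mem' := by simp
  add_mem' := by
    intro x y hx hy
    obtain ⟨q, hq⟩ := RatFunc.denom_add_dvd x y
    have := congrArg (Polynomial.eval 0) hq
    rw [Polynomial.eval_mul, Polynomial.eval_mul] at this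
    exact left_ne_zero_of_mul (this ▸ mul_ne_zero hx hy)
  mul_mem' := by
    intro x y hx hy
    obtain ⟨q, hq⟩ := RatFunc.denom_mul_dvd x y
    have := congrArg (Polynomial.eval 0) hq
    rw [Polynomial.eval_mul, Polynomial.eval_mul] at this
    exact left_ne_zero_of_mul (this ▸ mul_ne_zero hx hy)
  neg_mem' := by
    intro x hx
    obtain ⟨q, hq⟩ := RatFunc.denom_mul_dvd (-1) x
    have h1 : (-1 : RatFunc k).denom = 1 := by
      have : (-1 : RatFunc k) = RatFunc.C (-1) := by simp
      rw [this, RatFunc.denom_C]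
    rw [h1, one_mul, neg_one_mul] at hq
    have := congrArg (Polynomial.eval 0) hq
    rw [Polynomial.eval_mul] at this
    have hx' : x.denom.eval 0 ≠ 0 := hx
    rw [this] at hx'
    exact left_ne_zero_of_mul hx'

/-- evaluation at `0` -/
noncomputable def ev0 (k : Type*) [Field k] : local0 k →+* k where
  toFun x := RatFunc.eval (RingHom.id k) 0 (x : RatFunc k)
  map_one' := by simp
  map_zero' := by simp
  map_add' := by
    intro x y
    exact RatFunc.eval_add (f := RingHom.id k) (a := 0) x.2 y.2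
  map_mul' := by
    intro x y
    exact RatFunc.eval_mul (f := RingHom.id k) (a := 0) x.2 y.2

/-- Approximations over `k(ε)`. -/
theorem border_rat {n : ℕ} (hn : 3 ≤ n) (h2 : (2 : k) ≠ 0) {d m : ℕ}
    {M : Matrix (Fin m) (Fin m) (MvPolynomial (Fin n × Fin n) (RatFunc k))}
    (hspec : ∀ σ : Equiv.Perm (Fin n), (MvPolynomial.coeff (pm σ) M.det).denom.eval 0 ≠ 0 ∧
      (MvPolynomial.coeff (pm σ) M.det).eval (RingHom.id k) 0 = MvPolynomial.coeff (pm σ) (Matrix.of fun i j : Fin n =>
        (MvPolynomial.X (i, j) : MvPolynomial (Fin n × Fin n) k)).permanent)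
    (hdeg : ∀ i j, (M i j).totalDegree ≤ d)
    {s t : Fin n → (RatFunc k)ˣ} (hgen : GenericPair s t)
    (hEq : Equivariant (fun x => ((s x.1 * t x.2 : (RatFunc k)ˣ) : RatFunc k)) M) :
    (((∏ i, s i) * ∏ j, t j) ^ 2 ≠ 1 → Bound n d m) ∧
    (1 ≤ d → d ≤ n → n.choose ((n - d + 1) / 2) ≤ m * m) := by
  set a : Equiv.Perm (Fin n) → local0 k := fun σ => ⟨MvPolynomial.coeff (pm σ) M.det, (hspec σ).1⟩ with ha
  have ha1 : ∀ σ, ev0 k (a σ) = 1 := by
    intro σ
    rw [← coeff_per k σ]
    exact (hspec σ).2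
  have h3 := lower_approx hn hdeg (fun σ h0 => by
    have h4 : a σ = 0 := Subtype.ext h0
    have h5 := ha1 σ
    rw [h4, map_zero] at h5
    exact zero_ne_one h5) (fun σ h0 => by
    have h4 : a (σ 0) * a (σ 1) * a (σ 2) + a (σ 3) * a (σ 4) * a (σ 5) = 0 := Subtype.ext h0
    have h5 := congrArg (ev0 k) h4
    simp only [map_add, map_mul, ha1, map_zero, mul_one] at h5
    apply h2
    rw [← h5]
    norm_num) hgen hEq
  rwa [Fintype.card_fin] at h3

end ratfunc

end Pool.Agent.Helper1x.EP
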