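import Pool.Agent.Helper1x.EP.Main
import Pool.Agent.Helper1x.EQ.Gen

/-!
# Generic pairs exist over infinite fields
-/

set_option autoImplicit false

namespace Pool.Agent.Helper1x.EP

open Finset Pool.Agent.Helper1x.EQ

/-- Over an infinite field there are generic pairs such that the square of the product of all entries is not one. -/
theorem exists_pair (K : Type*) [Field K] [Infinite K] {n : ℕ} (hn : 1 ≤ n) :
    ∃ s t : Fin n → Kˣ, GenericPair s t ∧ ((∏ i, s i) * ∏ j, t j) ^ 2 ≠ 1 := by
  classical
  obtain ⟨t, ht⟩ := exists_generic K Bool (Fin n) 2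
  have key : ∀ a b : Fin n → ℤ, (∀ i, |a i| ≤ 2) → (∀ j, |b j| ≤ 2) →
      (∏ i, t true i ^ a i) * ∏ j, t false j ^ b j = 1 → a = 0 ∧ b = 0 := by
    intro a b ha hb h
    have h1 := ht (fun e i => if e then a i else b i) (by
      intro e i
      cases e
      · simpa using hb i
      · simpa using ha i) (by
      rw [Fintype.prod_bool]
      simpa using h)
    refine ⟨?_, ?_⟩
    · funext i
      have := congrFun (congrFun h1 true) i
      simpa using this
    · funext i
      have := congrFun (congrFun h1 false) i
      simpa using this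
  refine ⟨t true, t false, ?_, ?_⟩
  · intro a b ha hb _ h
    obtain ⟨h1, h2⟩ := key a b ha hb h
    exact ⟨0, fun i => by rw [h1]; rfl, fun j => by rw [h2]; rfl⟩
  · intro h
    obtain ⟨h1, _⟩ := key (fun _ => 2) (fun _ => 2) (fun _ => by norm_num) (fun _ => by norm_num) (by
      rw [mul_pow, ← Finset.prod_pow, ← Finset.prod_pow] at h
      exact_mod_cast h)
    have := congrFun h1 ⟨0, hn⟩
    simp at this

/-- Over an infinite field there are generic pairs for which the product of all entries is one. -/
theorem exists_pair_one (K : Type*) [Field K] [Infinite K] {n : ℕ} (hn : 1 ≤ n) :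
    ∃ s t : Fin n → Kˣ, GenericPair s t ∧ (∏ i, s i) * ∏ j, t j = 1 := by
  classical
  obtain ⟨t, ht⟩ := exists_generic K Bool (Fin n) 4
  have key : ∀ a b : Fin n → ℤ, (∀ i, |a i| ≤ 4) → (∀ j, |b j| ≤ 4) →
      (∏ i, t true i ^ a i) * ∏ j, t false j ^ b j = 1 → a = 0 ∧ b = 0 := by
    intro a b ha hb h
    have h1 := ht (fun e i => if e then a i else b i) (by
      intro e i
      cases e
      · simpa using hb i
      · simpa using ha i) (by
      rw [Fintype.prod_bool]
      simpa using h)
    refine ⟨?_, ?_⟩
    · funext i
      have := congrFun (congrFun h1 true) i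
      simpa using this
    · funext i
      have := congrFun (congrFun h1 false) i
      simpa using this
  set o : Fin n := ⟨0, hn⟩ with ho
  set P : Kˣ := (∏ i, t true i) * ∏ j, t false j with hP
  have hprod : ∀ b : Fin n → ℤ, ∏ j, (Function.update (t false) o (t false o * P⁻¹)) j ^ b j =
      (∏ j, t false j ^ b j) * (P ^ b o)⁻¹ := by
    intro b
    rw [← Finset.mul_prod_erase univ _ (mem_univ o), ← Finset.mul_prod_erase univ (fun j => t false j ^ b j) (mem_univ o),
      Function.update_self]
    have h1 : ∏ j ∈ univ.erase o, (Function.update (t false) o (t false o * P⁻¹)) j ^ b j =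
        ∏ j ∈ univ.erase o, t false j ^ b j := by
      refine Finset.prod_congr rfl fun j hj => ?_
      rw [Function.update_of_ne (Finset.ne_of_mem_erase hj)]
    rw [h1, mul_zpow, inv_zpow]
    rw [mul_right_comm]
  refine ⟨t true, Function.update (t false) o (t false o * P⁻¹), ?_, ?_⟩
  · intro a b ha hb _ h
    rw [hprod] at h
    have habs : ∀ (c : Fin n → ℤ), (∀ i, |c i| ≤ 2) → ∀ i, |c i - b o| ≤ 4 := by
      intro c hc i
      have h1 := hc i
      have h2 := hb o
      rw [abs_le] at h1 h2 ⊢
      omega
    obtain ⟨h1, h2⟩ := key (fun i => a i - b o) (fun j => b j - b o) (habs a ha) (habs b hb) (by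
      rw [← h, hP, mul_zpow, ← Finset.prod_zpow, ← Finset.prod_zpow]
      simp only [zpow_sub, Finset.prod_mul_distrib, Finset.prod_inv_distrib]
      rw [mul_inv, mul_mul_mul_comm]
      simp only [mul_assoc])
    refine ⟨b o, fun i => ?_, fun j => ?_⟩
    · have := congrFun h1 i
      simp only [Pi.zero_apply] at this
      omega
    · have := congrFun h2 j
      simp only [Pi.zero_apply] at this
      omega
  · have h1 := hprod fun _ => 1
    simp only [zpow_one] at h1
    rw [h1, ← mul_assoc, ← hP, mul_inv_cancel]

end Pool.Agent.Helper1x.EP
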