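import Pool.Agent.Helper1x.EP.Border
import Pool.Agent.Helper1x.EQ.Upper

/-!
# The equivariant determinantal representation of the permanent of size `2 ^ n - 1` (Grenet)
-/

set_option autoImplicit false

namespace Pool.Agent.Helper1x.EP

open Finset Matrix Pool.Agent.Helper1x.EQ

section grenet

variable {K : Type*} [Field K] {n : ℕ} [NeZero n]

/-- the sum over the injective maps from the last `k` rows to the columns outside of `A` -/
noncomputable def part (K : Type*) [Field K] (n : ℕ) [NeZero n] (k : ℕ) (A : Finset (Fin n)) :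
    MvPolynomial (Fin n × Fin n) K := by
  classical
  exact ∑ g : Fin k → Fin n, if Function.Injective g ∧ ∀ i, g i ∉ A then
    ∏ i : Fin k, MvPolynomial.X (Fin.ofNat n (n - k + i), g i) else 0

theorem part_zero (A : Finset (Fin n)) : part K n 0 A = 1 := by
  classical
  unfold part
  rw [Fintype.sum_unique, if_pos ⟨fun i => i.elim0, fun i => i.elim0⟩, Finset.univ_eq_empty, Finset.prod_empty]

theorem part_succ {k : ℕ} (hk : k + 1 ≤ n) (A : Finset (Fin n)) : part K n (k + 1) A =
    ∑ j : Fin n, if j ∉ A then MvPolynomial.X (Fin.ofNat n (n - (k + 1)), j) * part K n k (insert j A) else 0 := by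
  classical
  unfold part
  rw [← (Fin.consEquiv fun _ : Fin (k + 1) => Fin n).sum_comp, Fintype.sum_prod_type]
  refine Finset.sum_congr rfl fun j _ => ?_
  have hcond : ∀ g : Fin k → Fin n, (Function.Injective (Fin.cons j g : Fin (k + 1) → Fin n) ∧
      ∀ i, (Fin.cons j g : Fin (k + 1) → Fin n) i ∉ A) ↔ j ∉ A ∧ Function.Injective g ∧ ∀ i, g i ∉ insert j A := by
    intro g
    rw [Fin.cons_injective_iff, Fin.forall_fin_succ]
    simp only [Fin.cons_zero, Fin.cons_succ, Set.mem_range, not_exists, mem_insert, not_or]
    constructor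
    · rintro ⟨⟨h1, h2⟩, h3, h4⟩
      exact ⟨h3, h2, fun i => ⟨h1 i, h4 i⟩⟩
    · rintro ⟨h3, h2, h4⟩
      exact ⟨⟨fun i => (h4 i).1, h2⟩, h3, fun i => (h4 i).2⟩
  by_cases hj : j ∈ A
  · rw [if_neg (not_not.2 hj)]
    refine Finset.sum_eq_zero fun g _ => ?_
    have h1 : ¬ (Function.Injective (Fin.cons j g : Fin (k + 1) → Fin n) ∧
      ∀ i, (Fin.cons j g : Fin (k + 1) → Fin n) i ∉ A) := fun h => ((hcond g).1 h).1 hj
    exact if_neg h1
  · rw [if_pos hj, Finset.mul_sum]
    refine Finset.sum_congr rfl fun g _ => ?_
    by_cases hg : Function.Injective g ∧ ∀ i, g i ∉ insert j A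
    · have h1 : (Function.Injective (Fin.cons j g : Fin (k + 1) → Fin n) ∧
        ∀ i, (Fin.cons j g : Fin (k + 1) → Fin n) i ∉ A) := (hcond g).2 ⟨hj, hg⟩
      rw [if_pos hg]
      refine (if_pos h1).trans ?_
      rw [Fin.prod_univ_succ]
      congr 1
      refine Finset.prod_congr rfl fun i _ => ?_
      simp only [Fin.consEquiv_apply, Fin.cons_succ, Fin.val_succ]
      congr 3
      omega
    · have h1 : ¬ (Function.Injective (Fin.cons j g : Fin (k + 1) → Fin n) ∧
        ∀ i, (Fin.cons j g : Fin (k + 1) → Fin n) i ∉ A) := fun h => hg ((hcond g).1 h).2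
      rw [if_neg hg, mul_zero]
      exact if_neg h1

theorem part_full : part K n n ∅ = permForm fun _ => 1 := by
  classical
  unfold part permForm
  rw [← Finset.sum_filter]
  symm
  refine Finset.sum_bij (fun (σ : Equiv.Perm (Fin n)) _ => (σ : Fin n → Fin n)) ?_ ?_ ?_ ?_
  · intro σ _
    exact mem_filter.2 ⟨mem_univ _, σ.injective, fun i => Finset.notMem_empty _⟩
  · intro σ _ τ _ h
    exact DFunLike.coe_injective h
  · intro g hg
    have h1 := (mem_filter.1 hg).2.1
    exact ⟨Equiv.ofBijective g (Finite.injective_iff_bijective.1 h1), mem_univ _, rfl⟩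
  · intro σ _
    rw [MvPolynomial.monomial_eq, map_one, one_mul, pm,
      ← Finsupp.prod_finsetSum_index (h := fun x k => (MvPolynomial.X x : MvPolynomial (Fin n × Fin n) K) ^ k)
      (fun x => pow_zero _) (fun x a b => pow_add _ _ _)]
    refine Finset.prod_congr rfl fun i _ => ?_
    rw [Finsupp.prod_single_index (h := fun x k => (MvPolynomial.X x : MvPolynomial (Fin n × Fin n) K) ^ k)
      (pow_zero _), pow_one]
    congr 2
    rw [Nat.sub_self, zero_add]
    ext
    simp [Fin.ofNat, Nat.mod_eq_of_lt i.2]

/-- the proper subsets of the columns -/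
abbrev Nd (n : ℕ) : Type := {A : Finset (Fin n) // A ≠ univ}

omit [NeZero n] in
theorem nd_card (A : Nd n) : A.1.card < n := by
  rcases lt_or_eq_of_le (Finset.card_le_univ A.1) with h | h
  · rwa [Fintype.card_fin] at h
  · exact absurd (Finset.eq_univ_of_card _ h) A.2

/-- the empty set -/
def nd0 (n : ℕ) [NeZero n] : Nd n := ⟨∅, fun h => by
  have h1 := congrArg Finset.card h
  rw [Finset.card_empty, Finset.card_univ, Fintype.card_fin] at h1
  exact NeZero.ne n h1.symm⟩

/-- a set of columns as a node: the full set is identified with the empty set -/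
def nx (A : Finset (Fin n)) : Nd n := if h : A = univ then nd0 n else ⟨A, h⟩

/-- the matrix -/
noncomputable def gmat (K : Type*) [Field K] (n : ℕ) [NeZero n] : Matrix (Nd n) (Nd n) (MvPolynomial (Fin n × Fin n) K) :=
  fun A B => (if A = B ∧ A ≠ nd0 n then 1 else 0) + (if A = nd0 n then 1 else -1) *
    ∑ j : Fin n, if j ∉ A.1 ∧ nx (insert j A.1) = B then MvPolynomial.X (Fin.ofNat n A.1.card, j) else 0

theorem gmat_mulVec : gmat K n *ᵥ (fun B => if B = nd0 n then 1 else part K n (n - B.1.card) B.1) =
    fun A => if A = nd0 n then permForm fun _ => 1 else 0 := by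
  classical
  funext A
  have hA := nd_card A
  have inner : (∑ B : Nd n, (∑ j : Fin n, if j ∉ A.1 ∧ nx (insert j A.1) = B then
      (MvPolynomial.X (Fin.ofNat n A.1.card, j) : MvPolynomial (Fin n × Fin n) K) else 0) *
      (if B = nd0 n then 1 else part K n (n - B.1.card) B.1)) = part K n (n - A.1.card) A.1 := by
    have h1 : n - A.1.card = (n - A.1.card - 1) + 1 := by omega
    rw [h1, part_succ (by omega)]
    simp only [Finset.sum_mul]
    rw [Finset.sum_comm]
    refine Finset.sum_congr rfl fun j _ => ?_
    by_cases hj : j ∈ A.1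
    · rw [if_neg (not_not.2 hj)]
      refine Finset.sum_eq_zero fun B _ => ?_
      rw [if_neg (fun h => h.1 hj), zero_mul]
    · rw [if_pos hj, Finset.sum_eq_single (nx (insert j A.1))]
      · rw [if_pos ⟨hj, rfl⟩]
        have h2 : n - (n - A.1.card - 1 + 1) = A.1.card := by omega
        rw [h2]
        congr 1
        have hcard : (insert j A.1).card = A.1.card + 1 := Finset.card_insert_of_notMem hj
        unfold nx
        by_cases hu : insert j A.1 = univ
        · rw [dif_pos hu, if_pos rfl]
          have h3 : n - A.1.card - 1 = 0 := by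
            rw [hu, Finset.card_univ, Fintype.card_fin] at hcard
            omega
          rw [h3, part_zero]
        · rw [dif_neg hu, if_neg]
          · simp only
            rw [hcard]
            congr 1
          · intro h
            have h3 := congrArg (fun x : Nd n => x.1.card) h
            simp only [nd0, Finset.card_empty] at h3
            omega
      · intro B _ hB
        rw [if_neg (fun h => hB h.2.symm), zero_mul]
      · intro h
        exact absurd (mem_univ _) h
  simp only [Matrix.mulVec, dotProduct, gmat, add_mul, Finset.sum_add_distrib]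
  simp only [mul_assoc, ← Finset.mul_sum]
  rw [inner]
  by_cases hk0 : A = nd0 n
  · subst hk0
    simp only [ne_eq, not_true_eq_false, and_false, if_false, zero_mul, Finset.sum_const_zero, zero_add, if_true,
      one_mul]
    simp only [nd0, Finset.card_empty, Nat.sub_zero]
    exact part_full
  · have h1 : (∑ B : Nd n, (if A = B ∧ A ≠ nd0 n then (1 : MvPolynomial (Fin n × Fin n) K) else 0) *
        (if B = nd0 n then 1 else part K n (n - B.1.card) B.1)) = part K n (n - A.1.card) A.1 := by
      rw [Finset.sum_eq_single A]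
      · simp [hk0]
      · intro b _ hb
        rw [if_neg (fun h => hb h.1.symm), zero_mul]
      · intro h
        exact absurd (Finset.mem_univ _) h
    rw [h1]
    simp [hk0]

theorem gmat_det : (gmat K n).det = permForm fun _ => 1 := by
  classical
  set M := gmat K n with hM
  have h1 := congrFun (congrArg (fun x => M.adjugate *ᵥ x) (gmat_mulVec (K := K) (n := n))) (nd0 n)
  simp only [← hM] at h1
  rw [Matrix.mulVec_mulVec, Matrix.adjugate_mul, Matrix.smul_mulVec, Matrix.one_mulVec] at h1
  simp only [Pi.smul_apply, smul_eq_mul] at h1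
  rw [if_pos trivial, mul_one] at h1
  rw [h1]
  simp only [Matrix.mulVec, dotProduct]
  rw [Finset.sum_eq_single (nd0 n)]
  · rw [if_pos rfl]
    have h2 : M.adjugate (nd0 n) (nd0 n) = 1 := by
      rw [Matrix.adjugate_apply]
      have hnx : ∀ (A : Nd n) (j : Fin n), j ∉ A.1 → A ≠ nd0 n → nx (insert j A.1) = nd0 n ∨
          (nx (insert j A.1)).1.card = A.1.card + 1 := by
        intro A j hj _
        unfold nx
        by_cases hu : insert j A.1 = univ
        · rw [dif_pos hu]
          exact Or.inl rfl
        · rw [dif_neg hu]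
          exact Or.inr (Finset.card_insert_of_notMem hj)
      refine det_eq_one_of_rank _ (fun p => if p = nd0 n then n else p.1.card) ?_ ?_
      · intro p
        by_cases hp : p = nd0 n
        · rw [hp, Matrix.updateRow_self, Pi.single_eq_same]
        · rw [Matrix.updateRow_ne hp, hM]
          unfold gmat
          rw [if_pos ⟨rfl, hp⟩, Finset.sum_eq_zero, mul_zero, add_zero]
          intro j _
          rw [if_neg]
          rintro ⟨hj, hj'⟩
          rcases hnx p j hj hp with h3 | h3
          · exact hp (hj'.symm.trans h3)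
          · rw [hj'] at h3
            omega
      · intro p p' hne
        by_cases hp : p = nd0 n
        · rw [hp, Matrix.updateRow_self] at hne
          by_cases h3 : p' = nd0 n
          · left; rw [hp, h3]
          · rw [Pi.single_eq_of_ne h3] at hne
            exact absurd rfl hne
        · rw [Matrix.updateRow_ne hp, hM] at hne
          by_cases hpp : p = p'
          · exact Or.inl hpp
          · right
            unfold gmat at hne
            rw [if_neg (fun h => hpp h.1), zero_add] at hne
            obtain ⟨j, _, hj⟩ := Finset.exists_ne_zero_of_sum_ne_zero (right_ne_zero_of_mul hne)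
            have hj' : j ∉ p.1 ∧ nx (insert j p.1) = p' := by
              by_contra h4
              exact hj (if_neg h4)
            rw [if_neg hp]
            rcases hnx p j hj'.1 hp with h4 | h4
            · rw [hj'.2] at h4
              rw [if_pos h4]
              exact nd_card p
            · rw [hj'.2] at h4
              have h5 : p' ≠ nd0 n := by
                intro h6
                rw [h6] at h4
                simp only [nd0, Finset.card_empty] at h4
                omega
              rw [if_neg h5, h4]
              omega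
    rw [h2, one_mul]
  · intro p _ hp
    rw [if_neg hp, mul_zero]
  · intro h
    exact absurd (Finset.mem_univ _) h

theorem gmat_degree (A B : Nd n) : (gmat K n A B).totalDegree ≤ 1 := by
  classical
  unfold gmat
  refine (MvPolynomial.totalDegree_add _ _).trans (max_le ?_ ?_)
  · split_ifs <;> simp
  · refine (MvPolynomial.totalDegree_mul _ _).trans ?_
    have h1 : (if A = nd0 n then 1 else -1 : MvPolynomial (Fin n × Fin n) K).totalDegree = 0 := by
      split_ifs
      · simp
      · rw [MvPolynomial.totalDegree_neg, MvPolynomial.totalDegree_one]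
    rw [h1, zero_add]
    refine MvPolynomial.totalDegree_finsetSum_le fun j _ => ?_
    split_ifs
    · rw [MvPolynomial.totalDegree_X]
    · simp

/-- the weight of a set of columns -/
noncomputable def swt (s t : Fin n → Kˣ) (A : Finset (Fin n)) : Kˣ :=
  (∏ i ∈ range A.card, s (Fin.ofNat n i)) * ∏ j ∈ A, t j

theorem swt_insert (s t : Fin n → Kˣ) {A : Finset (Fin n)} {j : Fin n} (hj : j ∉ A) :
    swt s t (insert j A) = s (Fin.ofNat n A.card) * t j * swt s t A := by
  unfold swt
  rw [Finset.card_insert_of_notMem hj, Finset.prod_range_succ, Finset.prod_insert hj]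
  rw [mul_comm (∏ i ∈ range A.card, s (Fin.ofNat n i)), mul_mul_mul_comm]

/-- the weight of a node as a column -/
noncomputable def cwt (s t : Fin n → Kˣ) (A : Nd n) : Kˣ := if A = nd0 n then swt s t univ else swt s t A.1

theorem cwt_nx (s t : Fin n → Kˣ) {A : Nd n} {j : Fin n} (hj : j ∉ A.1) :
    cwt s t (nx (insert j A.1)) = s (Fin.ofNat n A.1.card) * t j * swt s t A.1 := by
  rw [← swt_insert s t hj]
  unfold nx
  by_cases hu : insert j A.1 = univ
  · rw [dif_pos hu, cwt, if_pos rfl, hu]
  · rw [dif_neg hu, cwt, if_neg]
    intro h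
    have h3 := congrArg (fun x : Nd n => x.1.card) h
    simp only [nd0, Finset.card_empty] at h3
    rw [Finset.card_insert_of_notMem hj] at h3
    omega

theorem gmat_equivariant (s t : Fin n → Kˣ) : (gmat K n).map (scale fun x => ((s x.1 * t x.2 : Kˣ) : K)) =
      (Matrix.diagonal fun A : Nd n => (((swt s t A.1)⁻¹ : Kˣ) : K)).map MvPolynomial.C * gmat K n *
        (Matrix.diagonal fun A : Nd n => ((cwt s t A : Kˣ) : K)).map MvPolynomial.C := by
  classical
  ext1 A B
  have hmap : ∀ f : Nd n → K, (Matrix.diagonal f).map MvPolynomial.C =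
      (Matrix.diagonal fun p => MvPolynomial.C (f p) :
        Matrix _ _ (MvPolynomial (Fin n × Fin n) K)) := by
    intro f
    rw [Matrix.diagonal_map (by simp)]
  rw [hmap, hmap, Matrix.mul_diagonal, Matrix.diagonal_mul, Matrix.map_apply]
  unfold gmat
  rw [map_add, map_mul, map_sum, mul_add, add_mul]
  congr 1
  · by_cases h1 : A = B ∧ A ≠ nd0 n
    · rw [if_pos h1, map_one, mul_one, ← map_mul, ← Units.val_mul]
      have h2 : cwt s t B = swt s t A.1 := by
        rw [← h1.1, cwt, if_neg h1.2]
      rw [h2, inv_mul_cancel, Units.val_one, map_one]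
    · rw [if_neg h1, map_zero, mul_zero, zero_mul]
  · have h1 : scale (fun x => ((s x.1 * t x.2 : Kˣ) : K)) (if A = nd0 n then 1 else -1 : MvPolynomial (Fin n × Fin n) K) =
        if A = nd0 n then 1 else -1 := by
      split_ifs
      · rw [map_one]
      · rw [map_neg, map_one]
    rw [h1, mul_left_comm, mul_assoc]
    congr 1
    rw [Finset.mul_sum, Finset.sum_mul]
    refine Finset.sum_congr rfl fun j _ => ?_
    by_cases h2 : j ∉ A.1 ∧ nx (insert j A.1) = B
    · rw [if_pos h2, scale_X, ← h2.2, cwt_nx s t h2.1]
      simp only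
      rw [mul_right_comm, ← map_mul, ← Units.val_mul]
      congr 3
      rw [mul_comm (swt s t A.1)⁻¹, mul_assoc, mul_inv_cancel, mul_one]
    · rw [if_neg h2, map_zero, mul_zero, zero_mul]

end grenet

/-- The permanent has a determinantal representation of size `2 ^ n - 1` which is equivariant under all pairs of
diagonal matrices. -/
theorem grenet (K : Type*) [Field K] {n : ℕ} (hn : 1 ≤ n) :
    ∃ M : Matrix (Fin (2 ^ n - 1)) (Fin (2 ^ n - 1)) (MvPolynomial (Fin n × Fin n) K),
      IsDetRep M (permForm fun _ => 1) ∧ ∀ s t : Fin n → Kˣ, Equivariant (fun x => ((s x.1 * t x.2 : Kˣ) : K)) M := by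
  classical
  have : NeZero n := ⟨by omega⟩
  have hcard : Fintype.card (Nd n) = 2 ^ n - 1 := by
    rw [Fintype.card_subtype_compl, Fintype.card_subtype_eq, Fintype.card_finset, Fintype.card_fin]
  set e : Nd n ≃ Fin (2 ^ n - 1) := Fintype.equivFinOfCardEq hcard with he
  refine ⟨Matrix.reindex e e (gmat K n), ⟨fun i j => gmat_degree _ _, ?_⟩, fun s t => ?_⟩
  · rw [Matrix.det_reindex_self]
    exact gmat_det
  · have h4 := gmat_equivariant (K := K) s t
    refine ⟨Matrix.reindex e e (Matrix.diagonal fun A : Nd n => (((swt s t A.1)⁻¹ : Kˣ) : K)),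
      Matrix.reindex e e (Matrix.diagonal fun A : Nd n => ((cwt s t A : Kˣ) : K)), ?_, ?_, Or.inl ?_⟩
    · rw [Matrix.det_reindex_self, Matrix.det_diagonal, ← Units.coe_prod]
      exact Units.isUnit _
    · rw [Matrix.det_reindex_self, Matrix.det_diagonal, ← Units.coe_prod]
      exact Units.isUnit _
    · have h5 : ∀ (A : Matrix (Nd n) (Nd n) K), (Matrix.reindex e e A).map MvPolynomial.C =
          (Matrix.reindex e e (A.map MvPolynomial.C) : Matrix _ _ (MvPolynomial (Fin n × Fin n) K)) :=
        fun A => rfl
      rw [h5, h5]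
      have h6 : (Matrix.reindex e e (gmat K n)).map (scale fun x => ((s x.1 * t x.2 : Kˣ) : K)) =
          Matrix.reindex e e ((gmat K n).map (scale fun x => ((s x.1 * t x.2 : Kˣ) : K))) := rfl
      rw [h6, h4]
      simp only [Matrix.reindex_apply, Matrix.submatrix_mul_equiv]

end Pool.Agent.Helper1x.EP
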