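import Pool.Agent.Helper1x.EP.Count

/-!
# Bijections between grids which preserve lines
-/

set_option autoImplicit false

namespace Pool.Agent.Helper1x.EP

open Finset

variable {n : ℕ} {ι : Type*} [DecidableEq ι] {Z : Finset ι}

omit [DecidableEq ι] in
theorem line_of_coll {f : ι → Fin n × Fin n} (hinj : ∀ z1 ∈ Z, ∀ z2 ∈ Z, f z1 = f z2 → z1 = z2)
    (h : ∀ z1 ∈ Z, ∀ z2 ∈ Z, z1 ≠ z2 → Coll (f z1) (f z2)) (hZ : 2 ≤ Z.card) :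
    (∃ i, ∀ z ∈ Z, (f z).1 = i) ∨ ∃ j, ∀ z ∈ Z, (f z).2 = j := by
  classical
  obtain ⟨z1, hz1⟩ := Finset.card_pos.1 (by omega : 0 < Z.card)
  obtain ⟨z2, hz2, hne⟩ := Finset.exists_mem_ne (by omega : 1 < Z.card) z1
  have hfne : f z1 ≠ f z2 := fun heq => hne (hinj z1 hz1 z2 hz2 heq).symm
  rcases h z1 hz1 z2 hz2 hne.symm with h1 | h1
  · left
    refine ⟨(f z1).1, fun z hz => ?_⟩
    by_contra hcon
    have h3 : z ≠ z1 := by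
      rintro rfl
      exact hcon rfl
    have h4 : z ≠ z2 := by
      rintro rfl
      exact hcon h1.symm
    rcases h z hz z1 hz1 h3 with h5 | h5
    · exact hcon h5
    rcases h z hz z2 hz2 h4 with h6 | h6
    · exact hcon (h6.trans h1.symm)
    · exact hfne (Prod.ext h1 (h5.symm.trans h6))
  · right
    refine ⟨(f z1).2, fun z hz => ?_⟩
    by_contra hcon
    have h3 : z ≠ z1 := by
      rintro rfl
      exact hcon rfl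
    have h4 : z ≠ z2 := by
      rintro rfl
      exact hcon h1.symm
    rcases h z hz z1 hz1 h3 with h5 | h5
    · rcases h z hz z2 hz2 h4 with h6 | h6
      · exact hfne (Prod.ext (h5.symm.trans h6) h1)
      · exact hcon (h6.trans h1.symm)
    · exact hcon h5

omit [DecidableEq ι] in
theorem surj_of_inj {f : ι → Fin n} (hinj : ∀ z1 ∈ Z, ∀ z2 ∈ Z, f z1 = f z2 → z1 = z2) (hZ : Z.card = n) (j : Fin n) :
    ∃ z ∈ Z, f z = j := by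
  classical
  have h1 : Z.image f = univ := by
    refine Finset.eq_univ_of_card _ ?_
    rw [Finset.card_image_of_injOn fun x hx y hy h => hinj x hx y hy h, hZ, Fintype.card_fin]
  have h2 : j ∈ Z.image f := by
    rw [h1]
    exact mem_univ _
  exact mem_image.1 h2

omit [DecidableEq ι] in
theorem grid_row (hcard : Z.card = n) (hn : 2 ≤ n) {φ : ι → ι → Fin n × Fin n}
    (hinj : ∀ z1 ∈ Z, ∀ z1' ∈ Z, ∀ z2 ∈ Z, ∀ z2' ∈ Z, φ z1 z1' = φ z2 z2' → z1 = z2 ∧ z1' = z2')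
    (hcol : ∀ z ∈ Z, ∀ z1 ∈ Z, ∀ z2 ∈ Z, z1 ≠ z2 → Coll (φ z1 z) (φ z2 z))
    (hrow : ∀ z ∈ Z, ∃ i, ∀ z' ∈ Z, (φ z z').1 = i) :
    ∃ α γ : ι → Fin n, (∀ z1 ∈ Z, ∀ z2 ∈ Z, α z1 = α z2 → z1 = z2) ∧ (∀ z1 ∈ Z, ∀ z2 ∈ Z, γ z1 = γ z2 → z1 = z2) ∧
      ∀ z ∈ Z, ∀ z' ∈ Z, φ z z' = (α z, γ z') := by
  classical
  obtain ⟨z0, hz0⟩ := Finset.card_pos.1 (by omega : 0 < Z.card)
  have hrow' : ∀ z ∈ Z, ∀ z' ∈ Z, (φ z z').1 = (φ z z0).1 := by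
    intro z hz z' hz'
    obtain ⟨i, hi⟩ := hrow z hz
    rw [hi z' hz', hi z0 hz0]
  have hinj2 : ∀ z ∈ Z, ∀ z1 ∈ Z, ∀ z2 ∈ Z, (φ z z1).2 = (φ z z2).2 → z1 = z2 := by
    intro z hz z1 hz1 z2 hz2 h
    exact (hinj z hz z1 hz1 z hz z2 hz2 (Prod.ext ((hrow' z hz z1 hz1).trans (hrow' z hz z2 hz2).symm) h)).2
  have hα : ∀ z1 ∈ Z, ∀ z2 ∈ Z, (φ z1 z0).1 = (φ z2 z0).1 → z1 = z2 := by
    intro z1 hz1 z2 hz2 h
    obtain ⟨z', hz', h1⟩ := surj_of_inj (hinj2 z2 hz2) hcard (φ z1 z0).2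
    refine (hinj z1 hz1 z0 hz0 z2 hz2 z' hz' (Prod.ext ?_ h1.symm)).1
    rw [h, hrow' z2 hz2 z' hz']
  refine ⟨fun z => (φ z z0).1, fun z => (φ z0 z).2, hα, hinj2 z0 hz0, fun z hz z' hz' => Prod.ext (hrow' z hz z' hz') ?_⟩
  by_cases h : z = z0
  · rw [h]
  · rcases hcol z' hz' z hz z0 hz0 h with h1 | h1
    · rw [hrow' z hz z' hz', hrow' z0 hz0 z' hz'] at h1
      exact absurd (hα z hz z0 hz0 h1) h
    · exact h1

omit [DecidableEq ι] in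
theorem grid (hcard : Z.card = n) (hn : 2 ≤ n) {φ : ι → ι → Fin n × Fin n}
    (hinj : ∀ z1 ∈ Z, ∀ z1' ∈ Z, ∀ z2 ∈ Z, ∀ z2' ∈ Z, φ z1 z1' = φ z2 z2' → z1 = z2 ∧ z1' = z2')
    (hrow : ∀ z ∈ Z, ∀ z1 ∈ Z, ∀ z2 ∈ Z, z1 ≠ z2 → Coll (φ z z1) (φ z z2))
    (hcol : ∀ z ∈ Z, ∀ z1 ∈ Z, ∀ z2 ∈ Z, z1 ≠ z2 → Coll (φ z1 z) (φ z2 z)) :
    ∃ α γ : ι → Fin n, (∀ z1 ∈ Z, ∀ z2 ∈ Z, α z1 = α z2 → z1 = z2) ∧ (∀ z1 ∈ Z, ∀ z2 ∈ Z, γ z1 = γ z2 → z1 = z2) ∧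
      ((∀ z ∈ Z, ∀ z' ∈ Z, φ z z' = (α z, γ z')) ∨ ∀ z ∈ Z, ∀ z' ∈ Z, φ z z' = (α z', γ z)) := by
  classical
  have hinj1 : ∀ z ∈ Z, ∀ z1 ∈ Z, ∀ z2 ∈ Z, φ z z1 = φ z z2 → z1 = z2 := fun z hz z1 hz1 z2 hz2 h =>
    (hinj z hz z1 hz1 z hz z2 hz2 h).2
  have hline : ∀ z ∈ Z, (∃ i, ∀ z' ∈ Z, (φ z z').1 = i) ∨ ∃ j, ∀ z' ∈ Z, (φ z z').2 = j := fun z hz =>
    line_of_coll (hinj1 z hz) (hrow z hz) (by omega)
  by_cases hall : ∀ z ∈ Z, ∃ i, ∀ z' ∈ Z, (φ z z').1 = i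
  · obtain ⟨α, γ, h1, h2, h3⟩ := grid_row hcard hn hinj hcol hall
    exact ⟨α, γ, h1, h2, Or.inl h3⟩
  · push Not at hall
    obtain ⟨z2, hz2, hz2'⟩ := hall
    have hz2c : ∃ j, ∀ z' ∈ Z, (φ z2 z').2 = j := by
      rcases hline z2 hz2 with ⟨i, hi⟩ | h
      · obtain ⟨z', hz', h⟩ := hz2' i
        exact absurd (hi z' hz') h
      · exact h
    obtain ⟨j, hj⟩ := hz2c
    have hallc : ∀ z ∈ Z, ∃ j, ∀ z' ∈ Z, (φ z z').2 = j := by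
      intro z hz
      rcases hline z hz with ⟨i, hi⟩ | h
      · exfalso
        have h1 : ∀ a ∈ Z, ∀ b ∈ Z, (φ z a).2 = (φ z b).2 → a = b := fun a ha b hb h =>
          hinj1 z hz a ha b hb (Prod.ext ((hi a ha).trans (hi b hb).symm) h)
        have h2 : ∀ a ∈ Z, ∀ b ∈ Z, (φ z2 a).1 = (φ z2 b).1 → a = b := fun a ha b hb h =>
          hinj1 z2 hz2 a ha b hb (Prod.ext h ((hj a ha).trans (hj b hb).symm))
        obtain ⟨a, ha, ha'⟩ := surj_of_inj h1 hcard j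
        obtain ⟨b, hb, hb'⟩ := surj_of_inj h2 hcard i
        have h3 := hinj z hz a ha z2 hz2 b hb (Prod.ext ((hi a ha).trans hb'.symm) (ha'.trans (hj b hb).symm))
        obtain ⟨z', hz', h⟩ := hz2' i
        rw [← h3.1] at h
        exact h (hi z' hz')
      · exact h
    obtain ⟨α, γ, h1, h2, h3⟩ := grid_row (φ := fun z z' => (φ z z').swap) hcard hn
      (fun z1 hz1 z1' hz1' z2 hz2 z2' hz2' h => hinj z1 hz1 z1' hz1' z2 hz2 z2' hz2' (Prod.swap_injective h))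
      (fun z hz z1 hz1 z2 hz2 hne => (hcol z hz z1 hz1 z2 hz2 hne).symm) hallc
    refine ⟨γ, α, h2, h1, Or.inr fun z hz z' hz' => ?_⟩
    have h4 := congrArg Prod.swap (h3 z hz z' hz')
    simpa using h4

end Pool.Agent.Helper1x.EP
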