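import Mathlib

/-!
# Walks for matrices of affine forms which are graded by a commutative group
-/

set_option autoImplicit false

namespace Pool.Agent.Helper1x.EP

open Finset

section

variable {ι G : Type*} [Fintype ι] [DecidableEq ι]

/-- A permutation of the rows which matches as many labels as possible. -/
theorem exists_beta (ν μ : ι → G) : ∃ β : Equiv.Perm ι, ∀ z z', ν (β z) ≠ μ z → ν (β z') ≠ μ z' →
    ν (β z') ≠ μ z := by
  classical
  obtain ⟨β, hβ⟩ := Finite.exists_max (fun β : Equiv.Perm ι => (univ.filter fun v => ν (β v) = μ v).card)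
  refine ⟨β, fun z z' hz hz' h => ?_⟩
  have hne : z ≠ z' := by
    rintro rfl
    exact hz h
  have h1 := hβ (β * Equiv.swap z z')
  have h2 : (univ.filter fun v => ν (β v) = μ v) ⊂ (univ.filter fun v => ν ((β * Equiv.swap z z') v) = μ v) := by
    rw [Finset.ssubset_iff_of_subset]
    · exact ⟨z, by simp [h], by simpa using hz⟩
    · intro v hv
      rw [mem_filter] at hv ⊢
      refine ⟨mem_univ _, ?_⟩
      have hvz : v ≠ z := by
        rintro rfl
        exact hz hv.2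
      have hvz' : v ≠ z' := by
        rintro rfl
        exact hz' hv.2
      rw [Equiv.Perm.mul_apply, Equiv.swap_apply_of_ne_of_ne hvz hvz']
      exact hv.2
  exact absurd (Finset.card_lt_card h2) (not_lt.2 h1)

theorem exists_ret (ψ : Equiv.Perm ι) (Z : Finset ι) {z : ι} (hz : z ∈ Z) :
    ∃ T, 0 < T ∧ (ψ ^ T) z ∈ Z ∧ ∀ s, 0 < s → s < T → (ψ ^ s) z ∉ Z := by
  classical
  have h : ∃ t, 0 < t ∧ (ψ ^ t) z ∈ Z := ⟨orderOf ψ, orderOf_pos ψ, by rw [pow_orderOf_eq_one]; exact hz⟩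
  exact ⟨Nat.find h, (Nat.find_spec h).1, (Nat.find_spec h).2, fun s hs hlt hmem => Nat.find_min h hlt ⟨hs, hmem⟩⟩

variable [CommGroup G] {b μ w : ι → G} {Z : Finset ι} {ψ : Equiv.Perm ι}

omit [Fintype ι] [DecidableEq ι] in
theorem walk (h1 : ∀ v, b (ψ v) * w v = μ v) (h2 : ∀ v, v ∉ Z → b v = μ v) {y : ι} {T : ℕ}
    (hT : ∀ s, 0 < s → s < T → (ψ ^ s) y ∉ Z) : ∀ t, 0 < t → t ≤ T →
      μ y = b ((ψ ^ t) y) * ∏ s ∈ range t, w ((ψ ^ s) y) := by
  intro t
  induction t with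
  | zero => intro h; omega
  | succ t ih =>
    intro _ ht
    rcases Nat.eq_zero_or_pos t with h0 | h0
    · subst h0
      rw [zero_add, pow_one, Finset.prod_range_one, pow_zero, Equiv.Perm.one_apply]
      exact (h1 y).symm
    · rw [ih h0 (by omega), Finset.prod_range_succ, h2 _ (hT t h0 (by omega)), ← h1 ((ψ ^ t) y), pow_succ',
        Equiv.Perm.mul_apply]
      rw [mul_assoc, mul_comm (w ((ψ ^ t) y))]

omit [Fintype ι] [DecidableEq ι] in
theorem shift {s s' : ℕ} (hle : s ≤ s') {z z' : ι} (h : (ψ ^ s) z = (ψ ^ s') z') : z = (ψ ^ (s' - s)) z' := by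
  have h3 : (ψ ^ s') z' = (ψ ^ s) ((ψ ^ (s' - s)) z') := by
    rw [← Equiv.Perm.mul_apply, ← pow_add, Nat.add_sub_cancel' hle]
  rw [h3] at h
  exact (ψ ^ s).injective h

omit [Fintype ι] [DecidableEq ι] in
theorem seg_inj {T : ι → ℕ} (hT : ∀ z ∈ Z, ∀ s, 0 < s → s < T z → (ψ ^ s) z ∉ Z) {z z' : ι} (hz : z ∈ Z) (hz' : z' ∈ Z)
    {s s' : ℕ} (hs : s < T z) (hs' : s' < T z') (h : (ψ ^ s) z = (ψ ^ s') z') : z = z' ∧ s = s' := by
  rcases le_total s s' with hle | hle
  · have h4 := shift hle h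
    rcases Nat.eq_zero_or_pos (s' - s) with h0 | h0
    · rw [h0, pow_zero, Equiv.Perm.one_apply] at h4
      exact ⟨h4, by omega⟩
    · exact absurd (h4 ▸ hz) (hT z' hz' _ h0 (by omega))
  · have h4 := shift hle h.symm
    rcases Nat.eq_zero_or_pos (s - s') with h0 | h0
    · rw [h0, pow_zero, Equiv.Perm.one_apply] at h4
      exact ⟨h4.symm, by omega⟩
    · exact absurd (h4 ▸ hz') (hT z hz _ h0 (by omega))

omit [Fintype ι] [DecidableEq ι] in
theorem ret_inj {T : ι → ℕ} (hpos : ∀ z ∈ Z, 0 < T z) (hT : ∀ z ∈ Z, ∀ s, 0 < s → s < T z → (ψ ^ s) z ∉ Z)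
    {z z' : ι} (hz : z ∈ Z) (hz' : z' ∈ Z) (h : (ψ ^ T z) z = (ψ ^ T z') z') : z = z' := by
  rcases le_total (T z) (T z') with hle | hle
  · have h4 := shift hle h
    rcases Nat.eq_zero_or_pos (T z' - T z) with h0 | h0
    · rw [h0, pow_zero, Equiv.Perm.one_apply] at h4
      exact h4
    · exact absurd (h4 ▸ hz) (hT z' hz' _ h0 (by have := hpos z hz; omega))
  · have h4 := shift hle h.symm
    rcases Nat.eq_zero_or_pos (T z - T z') with h0 | h0
    · rw [h0, pow_zero, Equiv.Perm.one_apply] at h4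
      exact h4.symm
    · exact absurd (h4 ▸ hz') (hT z hz _ h0 (by have := hpos z' hz'; omega))

variable {n : ℕ} {g : Fin n → ι} {u : Fin n → G}

omit [Fintype ι] in
theorem prod_w (hw : ∀ v, w v = ∏ i ∈ univ.filter (fun i => g i = v), u i)
    (S : Finset ι) : ∏ v ∈ S, w v = ∏ i ∈ univ.filter (fun i => g i ∈ S), u i := by
  classical
  rw [← Finset.prod_fiberwise_of_maps_to (s := univ.filter fun i => g i ∈ S) (t := S) (g := g)
    (fun i hi => (mem_filter.1 hi).2)]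
  refine Finset.prod_congr rfl fun v hv => ?_
  rw [hw v]
  refine Finset.prod_congr ?_ fun _ _ => rfl
  ext i
  simp only [mem_filter, mem_univ, true_and]
  constructor
  · intro h
    exact ⟨h ▸ hv, h⟩
  · exact fun h => h.2

/-- the vertices of the walk from `z` before the step `t` -/
def trail (ψ : Equiv.Perm ι) (z : ι) (t : ℕ) : Finset ι := (range t).image fun s => (ψ ^ s) z

omit [Fintype ι] in
theorem prod_trail {T : ι → ℕ} (hT : ∀ z ∈ Z, ∀ s, 0 < s → s < T z → (ψ ^ s) z ∉ Z) {z : ι} (hz : z ∈ Z) {t : ℕ}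
    (ht : t ≤ T z) (hw : ∀ v, w v = ∏ i ∈ univ.filter (fun i => g i = v), u i) :
    ∏ s ∈ range t, w ((ψ ^ s) z) = ∏ i ∈ univ.filter (fun i => g i ∈ trail ψ z t), u i := by
  rw [← prod_w hw, trail, Finset.prod_image]
  intro s hs s' hs' h
  rw [Finset.coe_range, Set.mem_Iio] at hs hs'
  exact (seg_inj hT hz hz (lt_of_lt_of_le hs ht) (lt_of_lt_of_le hs' ht) h).2

omit [Fintype ι] in
theorem exists_rets [Finite ι] (ψ : Equiv.Perm ι) (Z : Finset ι) : ∃ T : ι → ℕ, (∀ z ∈ Z, 0 < T z) ∧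
    (∀ z ∈ Z, (ψ ^ T z) z ∈ Z) ∧ ∀ z ∈ Z, ∀ s, 0 < s → s < T z → (ψ ^ s) z ∉ Z := by
  classical
  have := Fintype.ofFinite ι
  have h : ∀ z : ι, ∃ T, z ∈ Z → 0 < T ∧ (ψ ^ T) z ∈ Z ∧ ∀ s, 0 < s → s < T → (ψ ^ s) z ∉ Z := by
    intro z
    by_cases hz : z ∈ Z
    · obtain ⟨T, hT⟩ := exists_ret ψ Z hz
      exact ⟨T, fun _ => hT⟩
    · exact ⟨0, fun h => absurd h hz⟩
  choose T hT using h
  exact ⟨T, fun z hz => (hT z hz).1, fun z hz => (hT z hz).2.1, fun z hz => (hT z hz).2.2⟩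

/-- The walks between the unmatched labels. -/
theorem segs (hβ : ∀ z ∈ Z, ∀ z' ∈ Z, b z' ≠ μ z) (h1 : ∀ v, b (ψ v) * w v = μ v)
    (h2 : ∀ v, v ∉ Z → b v = μ v) (hw : ∀ v, w v = ∏ i ∈ univ.filter (fun i => g i = v), u i) :
    ∃ (r : ι → ι) (A : ι → Finset (Fin n)), (∀ z ∈ Z, r z ∈ Z) ∧ (∀ z ∈ Z, ∀ z' ∈ Z, r z = r z' → z = z') ∧
      (∀ z ∈ Z, (A z).Nonempty) ∧ (∀ z ∈ Z, μ z = b (r z) * ∏ i ∈ A z, u i) ∧
      (∀ z ∈ Z, ∀ z' ∈ Z, z ≠ z' → Disjoint (A z) (A z')) := by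
  classical
  obtain ⟨T, hpos, hmem, hT⟩ := exists_rets ψ Z
  have heq : ∀ z ∈ Z, μ z = b ((ψ ^ T z) z) * ∏ i ∈ univ.filter (fun i => g i ∈ trail ψ z (T z)), u i := by
    intro z hz
    rw [← prod_trail hT hz le_rfl hw]
    exact walk h1 h2 (hT z hz) (T z) (hpos z hz) le_rfl
  refine ⟨fun z => (ψ ^ T z) z, fun z => univ.filter fun i => g i ∈ trail ψ z (T z), hmem,
    fun z hz z' hz' h => ret_inj hpos hT hz hz' h, fun z hz => ?_, heq, fun z hz z' hz' hne => ?_⟩
  · rw [Finset.nonempty_iff_ne_empty]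
    intro h0
    have h3 := heq z hz
    simp only at h0
    rw [h0, Finset.prod_empty, mul_one] at h3
    exact hβ z hz _ (hmem z hz) h3.symm
  · rw [Finset.disjoint_left]
    intro i hi hi'
    obtain ⟨s, hs, hs1⟩ := mem_image.1 (mem_filter.1 hi).2
    obtain ⟨s', hs', hs1'⟩ := mem_image.1 (mem_filter.1 hi').2
    exact hne (seg_inj hT hz hz' (mem_range.1 hs) (mem_range.1 hs') (hs1.trans hs1'.symm)).1

omit [Fintype ι] in
/-- A closed set of columns which avoids `Z` contains no variable or all of them. -/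
theorem closed_empty (h1 : ∀ v, b (ψ v) * w v = μ v)
    (h2 : ∀ v, v ∉ Z → b v = μ v) (hw : ∀ v, w v = ∏ i ∈ univ.filter (fun i => g i = v), u i)
    (hgen : ∀ A : Finset (Fin n), ∏ i ∈ A, u i = 1 → A = ∅ ∨ A = univ)
    {C : Finset ι} (hC : C.image ψ = C) (hCZ : Disjoint C Z) : (∀ i, g i ∉ C) ∨ ∀ i, g i ∈ C := by
  classical
  have h3 : ∏ v ∈ C, b (ψ v) = ∏ v ∈ C, b v := by
    rw [← Finset.prod_image (f := b) (g := ψ) (fun x _ y _ h => ψ.injective h), hC]
  have h4 : ∏ v ∈ C, μ v = (∏ v ∈ C, μ v) * ∏ v ∈ C, w v := by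
    conv_lhs => rw [Finset.prod_congr rfl fun v _ => (h1 v).symm, Finset.prod_mul_distrib, h3]
    rw [Finset.prod_congr rfl fun v hv => h2 v (Finset.disjoint_left.1 hCZ hv)]
  have h5 : ∏ v ∈ C, w v = 1 := by
    have := mul_left_cancel (h4.symm.trans (mul_one _).symm)
    exact this
  rw [prod_w hw] at h5
  rcases hgen _ h5 with h6 | h6
  · left
    intro i hi
    have : i ∈ univ.filter fun i => g i ∈ C := mem_filter.2 ⟨mem_univ _, hi⟩
    rw [h6] at this
    exact absurd this (Finset.notMem_empty _)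
  · right
    intro i
    have : i ∈ univ.filter fun i => g i ∈ C := by
      rw [h6]
      exact mem_univ _
    exact (mem_filter.1 this).2

omit [Fintype ι] in
theorem trail_image {z0 : ι} {T : ℕ} (hTp : 0 < T) (hret : (ψ ^ T) z0 = z0) :
    (trail ψ z0 T).image ψ = trail ψ z0 T := by
  classical
  have hOim : (trail ψ z0 T).image ψ ⊆ trail ψ z0 T := by
    intro v hv
    obtain ⟨x, hx, rfl⟩ := mem_image.1 hv
    obtain ⟨s, hs, rfl⟩ := mem_image.1 hx
    rw [mem_range] at hs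
    rw [← Equiv.Perm.mul_apply, ← pow_succ']
    rcases Nat.lt_or_ge (s + 1) T with h3 | h3
    · exact mem_image.2 ⟨s + 1, mem_range.2 h3, rfl⟩
    · have h4 : s + 1 = T := by omega
      rw [h4, hret]
      exact mem_image.2 ⟨0, mem_range.2 hTp, by simp⟩
  refine Finset.eq_of_subset_of_card_le hOim ?_
  rw [Finset.card_image_of_injective _ ψ.injective]

omit [Fintype ι] in
/-- A walk through all variables, with at most `d` variables in every step, has columns at every level up to `d`. -/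
theorem levels_core {z0 : ι} {T : ι → ℕ} (hT : ∀ z ∈ ({z0} : Finset ι), ∀ s, 0 < s → s < T z → (ψ ^ s) z ∉ ({z0} : Finset ι))
    (h1 : ∀ v, b (ψ v) * w v = μ v)
    (h2 : ∀ v, v ∉ ({z0} : Finset ι) → b v = μ v) (hw : ∀ v, w v = ∏ i ∈ univ.filter (fun i => g i = v), u i)
    {d : ℕ} (hd : ∀ v, (univ.filter fun i => g i = v).card ≤ d) (hall : ∀ i, g i ∈ trail ψ z0 (T z0))
    {j : ℕ} (hj : j < n) : ∃ (v : ι) (A : Finset (Fin n)), A.card ≤ j ∧ j < A.card + d ∧
      μ z0 = μ v * ∏ i ∈ A, u i := by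
  classical
  have hz0 : z0 ∈ ({z0} : Finset ι) := Finset.mem_singleton_self _
  -- the number of the variables before the step `t`
  set cnt : ℕ → ℕ := fun t => (univ.filter fun i => g i ∈ trail ψ z0 t).card with hcnt
  have hc0 : cnt 0 = 0 := by
    rw [hcnt]
    simp [trail]
  have hcT : cnt (T z0) = n := by
    rw [hcnt]
    simp only
    rw [Finset.filter_true_of_mem fun i _ => hall i, Finset.card_univ, Fintype.card_fin]
  have hstep : ∀ t, cnt (t + 1) ≤ cnt t + d := by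
    intro t
    have h3 : (univ.filter fun i => g i ∈ trail ψ z0 (t + 1)) ⊆
        (univ.filter fun i => g i ∈ trail ψ z0 t) ∪ univ.filter fun i => g i = (ψ ^ t) z0 := by
      intro i hi
      rw [mem_filter] at hi
      rw [mem_union, mem_filter, mem_filter]
      obtain ⟨s, hs, h4⟩ := mem_image.1 hi.2
      rw [mem_range] at hs
      rcases Nat.lt_or_ge s t with h5 | h5
      · exact Or.inl ⟨mem_univ _, mem_image.2 ⟨s, mem_range.2 h5, h4⟩⟩
      · have h6 : s = t := by omega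
        subst h6
        exact Or.inr ⟨mem_univ _, h4.symm⟩
    exact (Finset.card_le_card h3).trans ((Finset.card_union_le _ _).trans (Nat.add_le_add_left (hd _) _))
  have hex : ∃ t, j < cnt t := ⟨T z0, by rw [hcT]; exact hj⟩
  obtain ⟨t, ht⟩ : ∃ t, Nat.find hex = t + 1 := by
    refine Nat.exists_eq_succ_of_ne_zero fun h0 => ?_
    have h3 := Nat.find_spec hex
    rw [h0, hc0] at h3
    omega
  have ht1 : j < cnt (t + 1) := ht ▸ Nat.find_spec hex
  have ht2 : t + 1 ≤ T z0 := ht ▸ Nat.find_min' hex (by rw [hcT]; exact hj)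
  have ht3 : cnt t ≤ j := by
    have h3 : ¬ j < cnt t := Nat.find_min hex (by omega)
    omega
  refine ⟨(ψ ^ t) z0, univ.filter fun i => g i ∈ trail ψ z0 t, ht3, lt_of_lt_of_le ht1 (hstep t), ?_⟩
  rw [← prod_trail hT hz0 (by omega) hw]
  rcases Nat.eq_zero_or_pos t with h0 | h0
  · rw [h0, pow_zero, Equiv.Perm.one_apply, Finset.prod_range_zero, mul_one]
  · rw [← h2 _ (hT z0 hz0 t h0 (by omega))]
    exact walk h1 h2 (hT z0 hz0) t h0 (by omega)

/-- If only one label is not matched, then the walk from it visits all variables. -/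
theorem levels {z0 : ι} (hne : b z0 ≠ μ z0) (h1 : ∀ v, b (ψ v) * w v = μ v)
    (h2 : ∀ v, v ∉ ({z0} : Finset ι) → b v = μ v) (hw : ∀ v, w v = ∏ i ∈ univ.filter (fun i => g i = v), u i)
    (hgen : ∀ A : Finset (Fin n), ∏ i ∈ A, u i = 1 → A = ∅ ∨ A = univ)
    {d : ℕ} (hd : ∀ v, (univ.filter fun i => g i = v).card ≤ d)
    {j : ℕ} (hj : j < n) : ∃ (v : ι) (A : Finset (Fin n)), A.card ≤ j ∧ j < A.card + d ∧
      μ z0 = μ v * ∏ i ∈ A, u i := by
  classical
  obtain ⟨T, hpos, hmem, hT⟩ := exists_rets ψ ({z0} : Finset ι)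
  have hz0 : z0 ∈ ({z0} : Finset ι) := Finset.mem_singleton_self _
  have hTp := hpos z0 hz0
  have hret : (ψ ^ T z0) z0 = z0 := Finset.mem_singleton.1 (hmem z0 hz0)
  have hOeq := trail_image hTp hret
  have hz0O : z0 ∈ trail ψ z0 (T z0) := mem_image.2 ⟨0, mem_range.2 hTp, by simp⟩
  have hCim : (trail ψ z0 (T z0))ᶜ.image ψ = (trail ψ z0 (T z0))ᶜ := by
    rw [Finset.compl_eq_univ_sdiff, Finset.image_sdiff _ _ ψ.injective, Finset.image_univ_equiv, hOeq]
  refine levels_core hT h1 h2 hw hd ?_ hj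
  rcases closed_empty h1 h2 hw hgen hCim (by
      rw [Finset.disjoint_singleton_right, Finset.mem_compl, not_not]
      exact hz0O) with h3 | h3
  · intro i
    have h4 := h3 i
    rwa [Finset.mem_compl, not_not] at h4
  · exfalso
    have h4 := walk h1 h2 (hT z0 hz0) (T z0) hTp le_rfl
    rw [prod_trail hT hz0 le_rfl hw, hret] at h4
    have h5 : (univ.filter fun i => g i ∈ trail ψ z0 (T z0)) = ∅ := by
      refine Finset.filter_eq_empty_iff.2 fun i _ hi => ?_
      exact (Finset.mem_compl.1 (h3 i)) hi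
    rw [h5, Finset.prod_empty, mul_one] at h4
    exact hne h4.symm

/-- If all labels are matched, then the walk from a column next to a variable visits all variables. -/
theorem levels_cycle {z0 : ι} (h1 : ∀ v, b (ψ v) * w v = μ v)
    (h2 : ∀ v, b v = μ v) (hw : ∀ v, w v = ∏ i ∈ univ.filter (fun i => g i = v), u i)
    (hgen : ∀ A : Finset (Fin n), ∏ i ∈ A, u i = 1 → A = ∅ ∨ A = univ)
    {d : ℕ} (hd : ∀ v, (univ.filter fun i => g i = v).card ≤ d)
    (hin : ∃ i, ψ (g i) = z0)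
    {j : ℕ} (hj : j < n) : ∃ (v : ι) (A : Finset (Fin n)), A.card ≤ j ∧ j < A.card + d ∧
      μ z0 = μ v * ∏ i ∈ A, u i := by
  classical
  obtain ⟨T, hpos, hmem, hT⟩ := exists_rets ψ ({z0} : Finset ι)
  have hz0 : z0 ∈ ({z0} : Finset ι) := Finset.mem_singleton_self _
  have hTp := hpos z0 hz0
  have hret : (ψ ^ T z0) z0 = z0 := Finset.mem_singleton.1 (hmem z0 hz0)
  have hOeq := trail_image hTp hret
  have hz0O : z0 ∈ trail ψ z0 (T z0) := mem_image.2 ⟨0, mem_range.2 hTp, by simp⟩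
  refine levels_core hT h1 (fun v _ => h2 v) hw hd ?_ hj
  rcases closed_empty (Z := ∅) h1 (fun v _ => h2 v) hw hgen hOeq (Finset.disjoint_empty_right _) with h3 | h3
  · exfalso
    obtain ⟨i, hi⟩ := hin
    refine h3 i ?_
    have h4 : z0 ∈ (trail ψ z0 (T z0)).image ψ := by rw [hOeq]; exact hz0O
    obtain ⟨x, hx, hx'⟩ := mem_image.1 h4
    have h5 : g i = x := ψ.injective (hi.trans hx'.symm)
    rw [h5]
    exact hx
  · exact h3

end

end Pool.Agent.Helper1x.EP
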