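import Pool.Agent.Helper1x.EP.Alg
import Pool.Agent.Helper1x.EP.Grid
import Pool.Agent.Helper1x.EP.Walk

/-!
# The dichotomy for torus equivariant determinantal representations
-/

set_option autoImplicit false

namespace Pool.Agent.Helper1x.EP

open Finset Matrix Pool.Agent.Helper1x.EQ

/-- A pair of diagonal matrices without small multiplicative relations, except that the product of all entries may be
one: in a relation with exponents of absolute value at most two and the same sum of the exponents on both sides, all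
exponents are equal. -/
def GenericPair {K : Type*} [Field K] {n : ℕ} (s t : Fin n → Kˣ) : Prop :=
  ∀ a b : Fin n → ℤ, (∀ i, |a i| ≤ 2) → (∀ j, |b j| ≤ 2) → ∑ i, a i = ∑ j, b j →
    (∏ i, s i ^ a i) * ∏ j, t j ^ b j = 1 → ∃ k : ℤ, (∀ i, a i = k) ∧ ∀ j, b j = k

section

variable {n : ℕ}

/-- the difference of the indicator functions, doubled -/
def dd (A A' : Finset (Fin n)) (i : Fin n) : ℤ := 2 * ((if i ∈ A then 1 else 0) - if i ∈ A' then 1 else 0)

theorem dd_abs (A A' : Finset (Fin n)) (i : Fin n) : |dd A A' i| ≤ 2 := by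
  unfold dd
  split_ifs <;> simp

theorem dd_sum (A A' : Finset (Fin n)) : ∑ i, dd A A' i = 2 * ((A.card : ℤ) - A'.card) := by
  unfold dd
  rw [← Finset.mul_sum, Finset.sum_sub_distrib]
  simp

theorem dd_zero {A A' : Finset (Fin n)} (h : ∀ i, dd A A' i = 0) : A = A' := by
  ext i
  have h1 := h i
  simp only [dd] at h1
  split_ifs at h1 with h2 h3 h3
  · exact ⟨fun _ => h3, fun _ => h2⟩
  · omega
  · omega
  · exact ⟨fun h => absurd h h2, fun h => absurd h h3⟩

theorem dd_const {A A' : Finset (Fin n)} {k : ℤ} (hn : 0 < n) (h : ∀ i, dd A A' i = k) :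
    k = 0 ∨ (k = 2 ∧ A = univ ∧ A' = ∅) ∨ (k = -2 ∧ A = ∅ ∧ A' = univ) := by
  have h0 := h ⟨0, hn⟩
  have hcase : k = 0 ∨ k = 2 ∨ k = -2 := by
    simp only [dd] at h0
    split_ifs at h0 <;> omega
  rcases hcase with hk | hk | hk
  · exact Or.inl hk
  · right; left
    refine ⟨hk, Finset.eq_univ_iff_forall.2 fun i => ?_, Finset.eq_empty_iff_forall_notMem.2 fun i hi => ?_⟩
    · have h1 := h i
      simp only [dd] at h1
      by_contra h2
      rw [if_neg h2] at h1
      split_ifs at h1 <;> omega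
    · have h1 := h i
      simp only [dd] at h1
      rw [if_pos hi] at h1
      split_ifs at h1 <;> omega
  · right; right
    refine ⟨hk, Finset.eq_empty_iff_forall_notMem.2 fun i hi => ?_, Finset.eq_univ_iff_forall.2 fun i => ?_⟩
    · have h1 := h i
      simp only [dd] at h1
      rw [if_pos hi] at h1
      split_ifs at h1 <;> omega
    · have h1 := h i
      simp only [dd] at h1
      by_contra h2
      rw [if_neg h2] at h1
      split_ifs at h1 <;> omega

theorem dd_prod {G : Type*} [CommGroup G] (s : Fin n → G) (A A' : Finset (Fin n)) :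
    ∏ i, s i ^ dd A A' i = (∏ i ∈ A, s i * s i) * (∏ i ∈ A', s i * s i)⁻¹ := by
  have h1 : ∀ i, s i ^ dd A A' i = (if i ∈ A then s i * s i else 1) * (if i ∈ A' then s i * s i else 1)⁻¹ := by
    intro i
    unfold dd
    split_ifs
    · simp
    · rw [sub_zero, mul_one, inv_one, mul_one, zpow_two]
    · rw [zero_sub, one_mul, mul_neg, mul_one, _root_.zpow_neg, zpow_two]
    · simp
  rw [Finset.prod_congr rfl fun i _ => h1 i, Finset.prod_mul_distrib, Finset.prod_inv_distrib, Finset.prod_ite_mem,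
    Finset.prod_ite_mem, Finset.univ_inter, Finset.univ_inter]

theorem GenericPair.both {K : Type*} [Field K] {s t : Fin n → Kˣ} (h : GenericPair s t) (hn : 0 < n)
    {A A' B B' : Finset (Fin n)} (h1 : A.card = B.card) (h2 : A'.card = B'.card)
    (h3 : wt (fun i => s i * s i) (fun j => t j * t j) A B = wt (fun i => s i * s i) (fun j => t j * t j) A' B') :
    (A = A' ∧ B = B') ∨ (A = univ ∧ A' = ∅) ∨ (A = ∅ ∧ A' = univ) := by
  obtain ⟨k, hk1, hk2⟩ := h (dd A A') (dd B B') (dd_abs A A') (dd_abs B B') (by rw [dd_sum, dd_sum, h1, h2]) (by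
    rw [dd_prod, dd_prod]
    unfold wt at h3
    rw [mul_mul_mul_comm, ← mul_inv, h3, mul_inv_cancel])
  rcases dd_const hn hk1 with h4 | h4 | h4
  · left
    subst h4
    exact ⟨dd_zero hk1, dd_zero hk2⟩
  · exact Or.inr (Or.inl h4.2)
  · exact Or.inr (Or.inr h4.2)

theorem GenericPair.gen {K : Type*} [Field K] {s t : Fin n → Kˣ} (h : GenericPair s t) (hn : 0 < n) :
    Gen (fun i => s i * s i) (fun j => t j * t j) := by
  intro A A' B B' hA hA' h1 h2 h3
  rcases h.both hn h1 h2 h3 with h4 | h4 | h4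
  · exact h4
  · rw [h4.1, Finset.card_univ, Fintype.card_fin] at hA
    omega
  · rw [h4.2, Finset.card_univ, Fintype.card_fin] at hA'
    omega

theorem gen_cell {G : Type*} [CommGroup G] {S T : Fin n → G} (hgen : Gen S T) (hn : 2 ≤ n) {x y : Fin n × Fin n}
    (h : S x.1 * T x.2 = S y.1 * T y.2) : x = y := by
  have h1 := hgen {x.1} {y.1} {x.2} {y.2} (by rw [Finset.card_singleton]; omega) (by rw [Finset.card_singleton]; omega)
    rfl rfl (by
    unfold wt
    simpa using h)
  exact Prod.ext (Finset.singleton_injective h1.1) (Finset.singleton_injective h1.2)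

end

variable {K ι : Type*} [Field K] [Fintype ι] [DecidableEq ι] {n : ℕ}

/-- A graded singular matrix has a left kernel vector with one label. -/
theorem exists_left {G : Type*} {N0 : Matrix ι ι K} {b μ : ι → G} (hdet : N0.det = 0)
    (h : ∀ u v, N0 u v ≠ 0 → b u = μ v) :
    ∃ (u1 : ι) (l : ι → K), l u1 ≠ 0 ∧ (∀ u, l u ≠ 0 → b u = b u1) ∧ ∀ v, ∑ k, l k * N0 k v = 0 := by
  classical
  obtain ⟨y, hy0, hy⟩ := Matrix.exists_vecMul_eq_zero_iff.2 hdet
  obtain ⟨u1, hu1⟩ := Function.ne_iff.1 hy0
  refine ⟨u1, fun u => if b u = b u1 then y u else 0, ?_, ?_, ?_⟩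
  · simpa using hu1
  · intro u hu
    by_contra hcon
    simp only [if_neg hcon] at hu
    exact hu rfl
  · intro v
    by_cases hv : μ v = b u1
    · have h1 := congrFun hy v
      simp only [Matrix.vecMul, dotProduct, Pi.zero_apply] at h1
      refine Eq.trans ?_ h1
      refine Finset.sum_congr rfl fun k _ => ?_
      simp only
      split_ifs with hk
      · rfl
      · have h2 : N0 k v = 0 := by
          by_contra h3
          exact hk ((h k v h3).trans hv)
        rw [h2, mul_zero, mul_zero]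
    · refine Finset.sum_eq_zero fun k _ => ?_
      simp only
      split_ifs with hk
      · have h2 : N0 k v = 0 := by
          by_contra h3
          exact hv ((h k v h3).symm.trans hk)
        rw [h2, mul_zero]
      · rw [zero_mul]

/-- the lower bounds for the size `m` of a matrix whose entries have degree at most `d` -/
def Bound (n d m : ℕ) : Prop :=
  (d = 1 → 2 ^ n - 1 ≤ m) ∧ (1 ≤ d → d ≤ n → n.choose ((n - d + 1) / 2) ≤ m)

omit [DecidableEq ι] in
theorem bound_of_levels {G : Type*} [CommGroup G] {S T : Fin n → G} (hG : Gen S T) {μ : ι → G} {c : G} {d : ℕ}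
    (h : ∀ (σ : Equiv.Perm (Fin n)), ∀ j < n, ∃ (v : ι) (A : Finset (Fin n)), A.card ≤ j ∧ j < A.card + d ∧
      c = μ v * ∏ i ∈ A, (S i * T (σ i))) : Bound n d (Fintype.card ι) := by
  classical
  refine ⟨fun hd => ?_, fun hd1 hdn => ?_⟩
  · refine count_levels hG (μ := μ) (c := c) fun σ j hj => ?_
    obtain ⟨v, A, h1, h2, h3⟩ := h σ j hj
    exact ⟨v, A, by omega, h3⟩
  · refine count_window hG (μ := μ) (c := c) fun σ => ?_
    obtain ⟨v, A, h1, h2, h3⟩ := h σ ((n + d - 1) / 2) (by omega)
    exact ⟨v, A, by omega, choose_window hd1 hdn h1 h2, h3⟩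

/-- The master theorem over algebraically closed fields. -/
theorem master [IsAlgClosed K] (hn : 2 ≤ n) {d : ℕ} {M : Matrix ι ι (MvPolynomial (Fin n × Fin n) K)}
    (hMdeg : ∀ i j, (M i j).totalDegree ≤ d)
    (hcoef : ∀ σ, MvPolynomial.coeff (pm σ) M.det ≠ 0) {s t : Fin n → Kˣ} (hgen : GenericPair s t)
    (hEq : Equivariant (fun x => ((s x.1 * t x.2 : Kˣ) : K)) M) :
    (∃ lam : Fin n × Fin n → K, MvPolynomial.homogeneousComponent n M.det = (Matrix.of fun i j : Fin n =>
      MvPolynomial.C (lam (i, j)) * (MvPolynomial.X (i, j) : MvPolynomial (Fin n × Fin n) K)).det) ∨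
    Bound n d (Fintype.card ι) ∨
    (MvPolynomial.coeff 0 M.det ≠ 0 ∧
      (1 ≤ d → d ≤ n → n.choose ((n - d + 1) / 2) ≤ Fintype.card ι * Fintype.card ι)) := by
  classical
  obtain ⟨B, C, hB, hC, hBC⟩ := hEq.square
  set c2 : Fin n × Fin n → Kˣ := fun x => s x.1 * t x.2 * (s x.1 * t x.2) with hc2
  have hsc : (scale fun x => ((s x.1 * t x.2 : Kˣ) : K) * ((s x.1 * t x.2 : Kˣ) : K)) =
      scale fun x => ((c2 x : Kˣ) : K) := by
    congr 1
  rw [hsc] at hBC
  obtain ⟨P, Q, ν, μ, hP, hQ, hPQ⟩ := graded_form hB hC hBC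
  obtain ⟨β, hβ⟩ := exists_beta ν μ
  set f := M.det with hMdet
  set N1 : Matrix ι ι (MvPolynomial (Fin n × Fin n) K) := P.map MvPolynomial.C * M * Q.map MvPolynomial.C with hN1
  set N : Matrix ι ι (MvPolynomial (Fin n × Fin n) K) := N1.submatrix β id with hN
  set b : ι → Kˣ := fun u => ν (β u) with hb
  set Z : Finset ι := univ.filter fun v => b v ≠ μ v with hZ
  have hNg : ∀ m u v, MvPolynomial.coeff m (N u v) ≠ 0 → b u * mwt c2 m = μ v := fun m u v h => hPQ m (β u) v h
  have hNdeg : ∀ u v, (N u v).totalDegree ≤ d := fun u v => conj_degree P Q hMdeg (β u) v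
  set ε : K := ((Equiv.Perm.sign β : ℤ) : K) with hε
  have hε2 : ε * ε = 1 := by
    rw [hε, ← Int.cast_mul]
    rcases Int.units_eq_one_or (Equiv.Perm.sign β) with h | h <;> rw [h] <;> simp
  have hNdet : N.det = MvPolynomial.C (ε * P.det * Q.det) * f := by
    rw [hN, Matrix.det_permute, hN1, det_conj, ← hMdet, hε, map_mul, map_mul, map_intCast]
    ring
  have hPQ0 : ε * P.det * Q.det ≠ 0 := by
    refine mul_ne_zero (mul_ne_zero ?_ hP.ne_zero) hQ.ne_zero
    intro h0
    rw [h0, mul_zero] at hε2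
    exact zero_ne_one hε2
  have hNcoef : ∀ σ, MvPolynomial.coeff (pm σ) N.det ≠ 0 := by
    intro σ
    rw [hNdet, MvPolynomial.coeff_C_mul]
    exact mul_ne_zero hPQ0 (hcoef σ)
  have hw0 : mwt c2 0 = 1 := by simp [mwt]
  set S : Fin n → Kˣ := fun i => s i * s i with hS
  set T : Fin n → Kˣ := fun j => t j * t j with hT
  have hwx : ∀ x : Fin n × Fin n, mwt c2 (Finsupp.single x 1) = S x.1 * T x.2 := by
    intro x
    unfold mwt
    rw [Finsupp.prod_single_index (h := fun x k => c2 x ^ k) (pow_zero (c2 x)), pow_one, hc2, hS, hT]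
    simp only
    rw [mul_mul_mul_comm]
  have hwA : ∀ (σ : Equiv.Perm (Fin n)) (A : Finset (Fin n)), mwt c2 (pmA σ A) = ∏ i ∈ A, (S i * T (σ i)) := by
    intro σ A
    rw [mwt, pmA, ← Finsupp.prod_finsetSum_index (h := fun x k => c2 x ^ k)
      (fun x => pow_zero _) (fun x a b => pow_add _ _ _)]
    exact Finset.prod_congr rfl fun i _ => hwx (i, σ i)
  have hG : Gen S T := hgen.gen (by omega)
  have h2 : ∀ v, v ∉ Z → b v = μ v := by
    intro v hv
    by_contra h
    exact hv (mem_filter.2 ⟨mem_univ _, h⟩)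
  have h3 : ∀ z ∈ Z, ∀ z' ∈ Z, b z' ≠ μ z := fun z hz z' hz' => hβ z z' (mem_filter.1 hz).2 (mem_filter.1 hz').2
  -- the walks
  have hwalk : ∀ (N' : Matrix ι ι (MvPolynomial (Fin n × Fin n) K)),
      (∀ m u v, MvPolynomial.coeff m (N' u v) ≠ 0 → b u * mwt c2 m = μ v) →
      (∀ u v, (N' u v).totalDegree ≤ d) → (∀ σ, MvPolynomial.coeff (pm σ) N'.det ≠ 0) →
      ∀ σ : Equiv.Perm (Fin n), ∃ (ψ : Equiv.Perm ι) (g : Fin n → ι) (w : ι → Kˣ),
      (∀ v, b (ψ v) * w v = μ v) ∧ (∀ v, w v = ∏ i ∈ univ.filter (fun i => g i = v), (S i * T (σ i))) ∧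
      (∀ v, (univ.filter fun i => g i = v).card ≤ d) ∧
      ∀ v, MvPolynomial.coeff (pmA σ (univ.filter fun i => g i = v)) (N' (ψ v) v) ≠ 0 := by
    intro N' hN'g hN'deg hN'coef σ
    obtain ⟨ψ, g, h4⟩ := leib σ (hN'coef σ)
    refine ⟨ψ, g, fun v => ∏ i ∈ univ.filter (fun i => g i = v), (S i * T (σ i)), ?_, fun v => rfl, ?_, h4⟩
    · intro v
      simp only
      rw [← hwA]
      exact hN'g _ _ _ (h4 v)
    · intro v
      rw [← pmA_degree σ]
      exact degree_le_of_coeff (hN'deg _ _) (h4 v)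
  have hgen1 : ∀ (σ : Equiv.Perm (Fin n)) (A : Finset (Fin n)), ∏ i ∈ A, (S i * T (σ i)) = 1 → A = ∅ ∨ A = univ := by
    intro σ A hA
    rw [prod_eq_wt] at hA
    rcases hgen.both (A := A) (A' := ∅) (B := A.image σ) (B' := ∅) (by omega) (card_image_perm σ A) rfl
      (by rw [hA]; simp [wt]) with h | h | h
    · exact Or.inl h.1
    · exact Or.inr h.1
    · exact Or.inl h.1
  rcases Nat.lt_or_ge 1 Z.card with hZ2 | hZ1
  · left
    obtain ⟨hcard, φ, hφ, hinj, hrow, hcol⟩ := count_struct hG hZ2 (b := b) (μ := μ) (fun σ => by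
      obtain ⟨ψ, g, w, h4, h5, _, _⟩ := hwalk N hNg hNdeg hNcoef σ
      exact segs h3 h4 h2 h5)
    obtain ⟨α, γ, hα, hγ, hαγ⟩ := grid hcard hn hinj hrow hcol
    obtain ⟨lam, κ, hdet⟩ := several hw0 hNg h2 h3 (φ := φ) (fun z hz z' hz' h => by
        have h4 := hφ z hz z hz
        have h5 := hφ z' hz' z hz
        rw [h4, h5] at h
        exact (hinj z hz z hz z' hz' z hz (gen_cell hG hn (mul_left_cancel h))).1) (fun z hz z' hz' h => by
        have h4 := hφ z hz z hz
        have h5 := hφ z hz z' hz'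
        rw [h4, h] at h5
        exact (hinj z hz z hz z hz z' hz' (gen_cell hG hn (mul_left_cancel h5))).2) (fun z hz z' hz' x hx => by
        rw [hwx, hφ z hz z' hz'] at hx
        exact gen_cell hG hn (mul_left_cancel hx))
    rw [hcard, hNdet, MvPolynomial.homogeneousComponent_C_mul] at hdet
    have hfin : ∃ (lam' : Fin n × Fin n → K) (κ' : K), MvPolynomial.C (ε * P.det * Q.det) *
        MvPolynomial.homogeneousComponent n f = MvPolynomial.C κ' * (Matrix.of fun i j : Fin n =>
        MvPolynomial.C (lam' (i, j)) * (MvPolynomial.X (i, j) : MvPolynomial (Fin n × Fin n) K)).det := by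
      rcases hαγ with hαγ | hαγ
      · obtain ⟨lam', ε', h4⟩ := to_fin hcard hα hγ fun u v => lam v u
        refine ⟨lam', ε' * κ, ?_⟩
        rw [hdet, map_mul, mul_right_comm, ← h4, ← Matrix.det_transpose]
        congr 2
        ext1 u v
        rw [Matrix.transpose_apply, Matrix.of_apply, Matrix.of_apply, hαγ u.1 u.2 v.1 v.2]
      · obtain ⟨lam', ε', h4⟩ := to_fin hcard hα hγ lam
        refine ⟨lam', ε' * κ, ?_⟩
        rw [hdet, map_mul, mul_right_comm, ← h4]
        congr 2
        ext1 u v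
        rw [Matrix.of_apply, Matrix.of_apply, hαγ v.1 v.2 u.1 u.2]
    obtain ⟨lam', κ', h4⟩ := hfin
    obtain ⟨lam2, h5⟩ := absorb (by omega : 0 < n) lam' ((ε * P.det * Q.det)⁻¹ * κ')
    refine ⟨lam2, ?_⟩
    rw [← h5, map_mul, mul_assoc, ← h4, ← mul_assoc, ← map_mul, inv_mul_cancel₀ hPQ0, map_one, one_mul]
  · right
    rcases Z.eq_empty_or_nonempty with hZ0 | hZne
    · -- all labels are matched
      have h2' : ∀ v, b v = μ v := fun v => h2 v (by rw [hZ0]; exact Finset.notMem_empty v)
      have hcoef0 : (N.map (MvPolynomial.coeff 0)).det = (ε * P.det * Q.det) * MvPolynomial.coeff 0 f := by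
        have h5 := (MvPolynomial.constantCoeff (σ := Fin n × Fin n) (R := K)).map_det N
        rw [hNdet] at h5
        have h6 : (MvPolynomial.constantCoeff (σ := Fin n × Fin n) (R := K)) (MvPolynomial.C (ε * P.det * Q.det) * f) =
            (ε * P.det * Q.det) * MvPolynomial.coeff 0 f := by
          rw [map_mul, MvPolynomial.constantCoeff_C]
          rfl
        rw [h6] at h5
        exact h5.symm
      by_cases hf0 : MvPolynomial.coeff 0 f = 0
      · -- the constant part is singular
        left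
        obtain ⟨u1, l, hl1, hl2, hl3⟩ := exists_left (N0 := N.map (MvPolynomial.coeff 0)) (b := b) (μ := μ) (by
          rw [hcoef0, hf0, mul_zero]) (fun u v h => by
          have h4 := hNg 0 u v h
          rwa [hw0, mul_one] at h4)
        set N' : Matrix ι ι (MvPolynomial (Fin n × Fin n) K) :=
          N.updateRow u1 (∑ k, (MvPolynomial.C (l k) : MvPolynomial (Fin n × Fin n) K) • N k) with hN'
        have hrow : ∀ v, N' u1 v = ∑ k, MvPolynomial.C (l k) * N k v := by
          intro v
          rw [hN', Matrix.updateRow_self, Finset.sum_apply]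
          rfl
        have hrow' : ∀ u, u ≠ u1 → ∀ v, N' u v = N u v := by
          intro u hu v
          rw [hN', Matrix.updateRow_ne hu]
        have hNg' : ∀ m u v, MvPolynomial.coeff m (N' u v) ≠ 0 → b u * mwt c2 m = μ v := by
          intro m u v h
          by_cases hu : u = u1
          · rw [hu, hrow, MvPolynomial.coeff_sum] at h
            obtain ⟨k, _, hk⟩ := Finset.exists_ne_zero_of_sum_ne_zero h
            rw [MvPolynomial.coeff_C_mul] at hk
            rw [hu, ← hl2 k (left_ne_zero_of_mul hk)]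
            exact hNg m k v (right_ne_zero_of_mul hk)
          · rw [hrow' u hu] at h
            exact hNg m u v h
        have hNdeg' : ∀ u v, (N' u v).totalDegree ≤ d := by
          intro u v
          refine totalDegree_le_of_coeff fun m hm => ?_
          by_cases hu : u = u1
          · rw [hu, hrow, MvPolynomial.coeff_sum] at hm
            obtain ⟨k, _, hk⟩ := Finset.exists_ne_zero_of_sum_ne_zero hm
            rw [MvPolynomial.coeff_C_mul] at hk
            exact degree_le_of_coeff (hNdeg k v) (right_ne_zero_of_mul hk)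
          · rw [hrow' u hu] at hm
            exact degree_le_of_coeff (hNdeg u v) hm
        have hNcoef' : ∀ σ, MvPolynomial.coeff (pm σ) N'.det ≠ 0 := by
          intro σ
          rw [hN', Matrix.det_updateRow_sum, smul_eq_mul, MvPolynomial.coeff_C_mul]
          exact mul_ne_zero hl1 (hNcoef σ)
        refine bound_of_levels hG (μ := μ) (c := μ u1) fun σ j hj => ?_
        obtain ⟨ψ, g, w, h4, h5, h6, h7⟩ := hwalk N' hNg' hNdeg' hNcoef' σ
        refine levels_cycle h4 h2' h5 (hgen1 σ) h6 ?_ hj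
        have h8 := h7 (ψ.symm u1)
        by_contra hcon
        push Not at hcon
        have h9 : (univ.filter fun i => g i = ψ.symm u1) = ∅ := by
          refine Finset.filter_eq_empty_iff.2 fun i _ hi => ?_
          apply hcon i
          rw [hi, Equiv.apply_symm_apply]
        rw [h9, Equiv.apply_symm_apply, hrow, pmA, Finset.sum_empty, MvPolynomial.coeff_sum] at h8
        apply h8
        have h10 := hl3 (ψ.symm u1)
        rw [← h10]
        refine Finset.sum_congr rfl fun k _ => ?_
        rw [MvPolynomial.coeff_C_mul, Matrix.map_apply]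
      · right
        refine ⟨hf0, fun hd1 hdn => ?_⟩
        refine count_window_sq hG (μ := μ) fun σ => ?_
        obtain ⟨ψ, g, w, h4, h5, h6, h7⟩ := hwalk N hNg hNdeg hNcoef σ
        have hn0 : 0 < n := by omega
        obtain ⟨v, A, h8, h9, h10⟩ := levels_cycle (z0 := ψ (g ⟨0, hn0⟩)) h4 h2' h5 (hgen1 σ) h6 ⟨⟨0, hn0⟩, rfl⟩
          (j := (n + d - 1) / 2) (by omega)
        exact ⟨_, v, A, by omega, choose_window hd1 hdn h8 h9, h10⟩
    · left
      obtain ⟨z0, hz0⟩ := Finset.card_eq_one.1 (le_antisymm hZ1 (Finset.card_pos.2 hZne))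
      have hne : b z0 ≠ μ z0 := (mem_filter.1 (by rw [hz0]; exact Finset.mem_singleton_self _ : z0 ∈ Z)).2
      rw [hz0] at h2
      refine bound_of_levels hG (μ := μ) (c := μ z0) fun σ j hj => ?_
      obtain ⟨ψ, g, w, h4, h5, h6, _⟩ := hwalk N hNg hNdeg hNcoef σ
      exact levels hne h4 h2 h5 (hgen1 σ) h6 hj

end Pool.Agent.Helper1x.EP
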