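import Pool.Agent.Helper1x.EP.Main

/-!
# Scaled determinants, and the dichotomy over all fields
-/

set_option autoImplicit false

namespace Pool.Agent.Helper1x.EP

open Finset Matrix Pool.Agent.Helper1x.EQ

section scaled

variable {K : Type*} [Field K] {n : ℕ}

/-- the scaled determinant -/
noncomputable def sdet (lam : Fin n × Fin n → K) : MvPolynomial (Fin n × Fin n) K :=
  (Matrix.of fun i j : Fin n => MvPolynomial.C (lam (i, j)) *
    (MvPolynomial.X (i, j) : MvPolynomial (Fin n × Fin n) K)).det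

theorem sdet_eq (lam : Fin n × Fin n → K) : sdet lam = ∑ σ : Equiv.Perm (Fin n),
    MvPolynomial.monomial (pm σ) (((Equiv.Perm.sign σ : ℤ) : K) * ∏ i, lam (i, σ i)) := by
  rw [sdet, ← Matrix.det_transpose, Matrix.det_apply']
  refine Finset.sum_congr rfl fun σ _ => ?_
  simp only [Matrix.transpose_apply, Matrix.of_apply]
  rw [Finset.prod_mul_distrib, MvPolynomial.monomial_eq, ← map_prod, map_mul, map_intCast, mul_assoc]
  congr 2
  rw [pm, ← Finsupp.prod_finsetSum_index (h := fun x k => (MvPolynomial.X x : MvPolynomial (Fin n × Fin n) K) ^ k)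
    (fun x => pow_zero _) (fun x a b => pow_add _ _ _)]
  refine Finset.prod_congr rfl fun i _ => ?_
  rw [Finsupp.prod_single_index (h := fun x k => (MvPolynomial.X x : MvPolynomial (Fin n × Fin n) K) ^ k)
    (pow_zero _), pow_one]

theorem coeff_multi (a : Equiv.Perm (Fin n) → K) (σ : Equiv.Perm (Fin n)) :
    MvPolynomial.coeff (pm σ) (∑ τ : Equiv.Perm (Fin n), MvPolynomial.monomial (pm τ) (a τ)) = a σ := by
  classical
  rw [MvPolynomial.coeff_sum, Finset.sum_eq_single σ]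
  · rw [MvPolynomial.coeff_monomial, if_pos rfl]
  · intro τ _ hτ
    rw [MvPolynomial.coeff_monomial, if_neg fun h => hτ (pm_injective h)]
  · intro h
    exact absurd (mem_univ _) h

theorem coeff_sdet (lam : Fin n × Fin n → K) (σ : Equiv.Perm (Fin n)) :
    MvPolynomial.coeff (pm σ) (sdet lam) = ((Equiv.Perm.sign σ : ℤ) : K) * ∏ i, lam (i, σ i) := by
  rw [sdet_eq, coeff_multi]

/-- the relation between six coefficients of a scaled determinant -/
theorem sdet_relation (hn : 3 ≤ n) (lam : Fin n × Fin n → K) : ∃ σ : Fin 6 → Equiv.Perm (Fin n),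
    MvPolynomial.coeff (pm (σ 0)) (sdet lam) * MvPolynomial.coeff (pm (σ 1)) (sdet lam) *
      MvPolynomial.coeff (pm (σ 2)) (sdet lam) + MvPolynomial.coeff (pm (σ 3)) (sdet lam) *
      MvPolynomial.coeff (pm (σ 4)) (sdet lam) * MvPolynomial.coeff (pm (σ 5)) (sdet lam) = 0 := by
  classical
  set x : Fin n := ⟨0, by omega⟩ with hx
  set y : Fin n := ⟨1, by omega⟩ with hy
  set z : Fin n := ⟨2, by omega⟩ with hz
  have hxy : x ≠ y := by simp [hx, hy]
  have hxz : x ≠ z := by simp [hx, hz]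
  have hyz : y ≠ z := by simp [hy, hz]
  have key : ∀ σ : Equiv.Perm (Fin n), (∀ i, i ≠ x → i ≠ y → i ≠ z → σ i = i) →
      ∏ i, lam (i, σ i) = lam (x, σ x) * lam (y, σ y) * lam (z, σ z) * ∏ i ∈ univ \ {x, y, z}, lam (i, i) := by
    intro σ hσ
    rw [← Finset.prod_sdiff (Finset.subset_univ ({x, y, z} : Finset (Fin n))), mul_comm]
    congr 1
    · rw [Finset.prod_insert (by simp [hxy, hxz]), Finset.prod_pair hyz, mul_assoc]
    · refine Finset.prod_congr rfl fun i hi => ?_
      rw [mem_sdiff, mem_insert, mem_insert, mem_singleton] at hi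
      push Not at hi
      rw [hσ i hi.2.1 hi.2.2.1 hi.2.2.2]
  refine ⟨![1, Equiv.swap x y * Equiv.swap y z, Equiv.swap y z * Equiv.swap x y, Equiv.swap x y, Equiv.swap x z,
    Equiv.swap y z], ?_⟩
  have h1 : ∏ i, lam (i, (1 : Equiv.Perm (Fin n)) i) = _ := key 1 fun i _ _ _ => rfl
  have h2 := key (Equiv.swap x y * Equiv.swap y z) fun i h1 h2 h3 => by
    rw [Equiv.Perm.mul_apply, Equiv.swap_apply_of_ne_of_ne h2 h3, Equiv.swap_apply_of_ne_of_ne h1 h2]
  have h3 := key (Equiv.swap y z * Equiv.swap x y) fun i h1 h2 h3 => by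
    rw [Equiv.Perm.mul_apply, Equiv.swap_apply_of_ne_of_ne h1 h2, Equiv.swap_apply_of_ne_of_ne h2 h3]
  have h4 := key (Equiv.swap x y) fun i h1 h2 h3 => Equiv.swap_apply_of_ne_of_ne h1 h2
  have h5 := key (Equiv.swap x z) fun i h1 h2 h3 => Equiv.swap_apply_of_ne_of_ne h1 h3
  have h6 := key (Equiv.swap y z) fun i h1 h2 h3 => Equiv.swap_apply_of_ne_of_ne h2 h3
  simp only [Equiv.Perm.mul_apply, Equiv.Perm.one_apply, Equiv.swap_apply_left, Equiv.swap_apply_right] at h1 h2 h3 h4 h5 h6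
  rw [Equiv.swap_apply_of_ne_of_ne hxy hxz, Equiv.swap_apply_left,
    Equiv.swap_apply_of_ne_of_ne hxz.symm hyz.symm] at h2
  rw [Equiv.swap_apply_of_ne_of_ne hxy hxz, Equiv.swap_apply_of_ne_of_ne hxz.symm hyz.symm,
    Equiv.swap_apply_right] at h3
  rw [Equiv.swap_apply_of_ne_of_ne hxz.symm hyz.symm] at h4
  rw [Equiv.swap_apply_of_ne_of_ne hxy.symm hyz] at h5
  rw [Equiv.swap_apply_of_ne_of_ne hxy hxz] at h6
  simp only [Matrix.cons_val, coeff_sdet, Equiv.Perm.sign_mul, Equiv.Perm.sign_swap hxy, Equiv.Perm.sign_swap hxz,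
    Equiv.Perm.sign_swap hyz, Equiv.Perm.sign_one, Equiv.Perm.mul_apply, Equiv.Perm.one_apply]
  rw [h1, h2, h3, h4, h5, h6]
  push_cast
  ring

end scaled

end Pool.Agent.Helper1x.EP
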